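import Pool.Agent.Lib_MP_f5471b_q.Final
import Pool.Agent.Lib_MP_f5471b_j.Poles

/-!
# MP_f5471b_nt: the power form, all parts
-/

namespace LangForms

open Height NumberField WeierstrassCurve Topology Filter

namespace Pow

/-- A representation by the matrices `1` and `-1` comes from a character. -/
theorem exists_chi {G : Type} [Group G] {g : ℕ} (hg : 1 ≤ g)
    (ρ : G →* Matrix.GeneralLinearGroup (Fin g) ℤ) (hρ : Function.Injective ρ)
    (hs : ∀ s, (ρ s).val = 1 ∨ (ρ s).val = -1) :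
    ∃ ρ₁ : G →* Matrix.GeneralLinearGroup (Fin 1) ℤ, Function.Injective ρ₁ ∧
      ∀ s, ∃ ε : ℤ, (ρ s).val = ε • (1 : Matrix (Fin g) (Fin g) ℤ) ∧
        (ρ₁ s).val = ε • (1 : Matrix (Fin 1) (Fin 1) ℤ) := by
  classical
  have hne : (-1 : Matrix (Fin g) (Fin g) ℤ) ≠ 1 := by
    intro h
    have h1 := congrFun (congrFun h ⟨0, hg⟩) ⟨0, hg⟩
    rw [Matrix.neg_apply, Matrix.one_apply_eq] at h1
    norm_num at h1
  obtain ⟨f, hf⟩ : ∃ f : G → ℤˣ, f = fun s => if (ρ s).val = 1 then 1 else -1 := ⟨_, rfl⟩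
  have hf1 : ∀ s, (ρ s).val = 1 → f s = 1 := fun s h => by rw [hf]; exact if_pos h
  have hf2 : ∀ s, (ρ s).val = -1 → f s = -1 := fun s h => by
    rw [hf]
    refine if_neg ?_
    rw [h]
    exact hne
  have hmul : ∀ s t, f (s * t) = f s * f t := by
    intro s t
    have h0 : (ρ (s * t)).val = (ρ s).val * (ρ t).val := by rw [map_mul, Units.val_mul]
    rcases hs s with h1 | h1 <;> rcases hs t with h2 | h2
    · rw [hf1 s h1, hf1 t h2, hf1 (s * t) (by rw [h0, h1, h2, Matrix.one_mul]), one_mul]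
    · rw [hf1 s h1, hf2 t h2, hf2 (s * t) (by rw [h0, h1, h2, Matrix.one_mul]), one_mul]
    · rw [hf2 s h1, hf1 t h2, hf2 (s * t) (by rw [h0, h1, h2, Matrix.mul_one]), mul_one]
    · rw [hf2 s h1, hf2 t h2, hf1 (s * t) (by rw [h0, h1, h2]; simp)]
      norm_num
  have hval : ∀ s, (ρ s).val = ((f s : ℤˣ) : ℤ) • (1 : Matrix (Fin g) (Fin g) ℤ) := by
    intro s
    rcases hs s with h1 | h1
    · rw [hf1 s h1, h1]; simp
    · rw [hf2 s h1, h1]; simp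
  let ρ₁ : G →* Matrix.GeneralLinearGroup (Fin 1) ℤ :=
    (Units.map (Matrix.scalar (Fin 1)).toMonoidHom).comp (MonoidHom.mk' f hmul)
  have hval1 : ∀ s, (ρ₁ s).val = ((f s : ℤˣ) : ℤ) • (1 : Matrix (Fin 1) (Fin 1) ℤ) := by
    intro s
    show Matrix.scalar (Fin 1) ((f s : ℤˣ) : ℤ) = _
    ext i j
    rw [Subsingleton.elim i 0, Subsingleton.elim j 0, Matrix.scalar_apply,
      Matrix.diagonal_apply_eq, Matrix.smul_apply, Matrix.one_apply_eq, smul_eq_mul, mul_one]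
  refine ⟨ρ₁, ?_, fun s => ⟨_, hval s, hval1 s⟩⟩
  intro s t hst
  apply hρ
  apply Units.ext
  rw [hval s, hval t]
  have h1 := hval1 s
  rw [hst, hval1 t] at h1
  have h2 := congrFun (congrFun h1 0) 0
  simp only [Matrix.smul_apply, Matrix.one_apply_eq, smul_eq_mul, mul_one] at h2
  rw [h2]

/-- The coordinates of a point of a form given by the matrices `1` and `-1`. -/
theorem kp_scalar {G X : Type} [Group G] [AddCommGroup X] {g : ℕ}
    (ρ : G →* Matrix.GeneralLinearGroup (Fin g) ℤ) (ρ₁ : G →* Matrix.GeneralLinearGroup (Fin 1) ℤ)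
    (hρ : ∀ s, ∃ ε : ℤ, (ρ s).val = ε • (1 : Matrix (Fin g) (Fin g) ℤ) ∧
        (ρ₁ s).val = ε • (1 : Matrix (Fin 1) (Fin 1) ℤ)) (act : G → X →+ X) (P : Fin g → X)
    (hP : ∀ s a, ∑ b, (ρ s).val a b • act s (P b) = P a) (i : Fin g) (s : G) (a : Fin 1) :
    ∑ b, (ρ₁ s).val a b • act s (P i) = P i := by
  obtain ⟨ε, h1, h2⟩ := hρ s
  have h3 := hP s i
  rw [h1] at h3
  rw [h2]
  simp only [Finset.univ_unique, Fin.default_eq_zero, Fin.isValue, Finset.sum_singleton]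
  rw [Subsingleton.elim a 0]
  rw [Finset.sum_eq_single i] at h3
  · simpa using h3
  · intro b _ hb
    simp [Matrix.one_apply_ne hb.symm]
  · intro h
    exact absurd (Finset.mem_univ i) h

/-- Lower bound for the Gram determinant of a point with independent coordinates. -/
theorem gram_form (K : Type) [Field K] [NumberField K] (g : ℕ) (hg : 1 ≤ g) (σ : ℝ) :
    ∃ c₁ : ℝ, 0 < c₁ ∧ ∀ (W : WeierstrassCurve K) [W.IsElliptic],
    hW W ≤ σ * (1 + hJ W) →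
    ∀ (F : Type) [Field F] [NumberField F] [DecidableEq F] [Algebra K F] [IsGalois K F]
    (ρ : (F ≃ₐ[K] F) →* Matrix.GeneralLinearGroup (Fin g) ℤ), Function.Injective ρ →
    ∀ (P : Fin g → (W.baseChange F).toAffine.Point), LinearIndependent ℤ P → IsKPoint ρ P →
      c₁ * (1 + hJ W) ^ (dexp g * g) ≤ (gramX nt P).det ∧
      ((∀ s, (ρ s).val = 1 ∨ (ρ s).val = -1) → ∀ S : Finset (Ideal (𝓞 K)),
        (∀ p ∈ S, p.IsMaximal ∧ p ≠ ⊥ ∧ ¬ Algebra.IsUnramifiedIn (𝓞 F) p) →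
        c₁ * (1 + hJ W + (∑ p ∈ S, Real.log (Ideal.absNorm p)) / Module.finrank ℚ K) ^
          (dexp g * g) ≤ (gramX nt P).det) := by
  classical
  have hg0 : (0 : ℝ) < g := by exact_mod_cast hg
  obtain ⟨e₁, e₂, he₁, he₂, hT2⟩ := uniform_lower_bound K 1 le_rfl
  obtain ⟨D₀, hD₀⟩ : ∃ D₀ : ℕ, D₀ = 3 ^ (g ^ 2) := ⟨_, rfl⟩
  have hD₀1 : 1 ≤ D₀ := by rw [hD₀]; exact Nat.one_le_iff_ne_zero.2 (by positivity)
  obtain ⟨C₂, c₂, hC₂, hc₂, hsep⟩ := sep_pow K g hg D₀ hD₀1 σ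
  obtain ⟨σ₁, hσ₁⟩ : ∃ σ₁, σ₁ = max σ 1 := ⟨_, rfl⟩
  have hσ1 : 1 ≤ σ₁ := by rw [hσ₁]; exact le_max_right _ _
  have hσσ : σ ≤ σ₁ := by rw [hσ₁]; exact le_max_left _ _
  obtain ⟨A, hA1, hA⟩ := big_R e₁ e₂ σ₁ he₁ he₂ (by linarith)
  obtain ⟨B, hB⟩ : ∃ B : ℝ, B = 256 * g * 2 ^ (2 / g : ℝ) := ⟨_, rfl⟩
  have hB0 : 0 < B := by rw [hB]; positivity
  obtain ⟨c₁, hc₁0, hc₁c, hcomb⟩ := comb (dexp g) (c₂ / (256 * g)) (e₁ / 2 / B) A
    (dexp_le hg) (by positivity) (by positivity) hA1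
  refine ⟨c₁ ^ g, by positivity, ?_⟩
  intro W _ hWh F _ _ _ _ _ ρ hρ P hP hK
  have hJn := hJ_nonneg W
  obtain ⟨h, hh⟩ : ∃ h : ℝ, h = 1 + hJ W := ⟨_, rfl⟩
  have hh1 : 1 ≤ h := by rw [hh]; linarith
  have hcard : Nat.card (F ≃ₐ[K] F) ≤ D₀ := by
    rw [hD₀]; exact card_le_of_injective ρ hρ
  have hcardF : Nat.card (F ≃ₐ[K] F) = Module.finrank K F := IsGalois.card_aut_eq_finrank K F
  obtain ⟨m, b, hm1, hm2, hb, hSp, hmb⟩ := hsep W hWh F (by rw [← hcardF]; exact hcard)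
  have h9 : hW W ≤ σ₁ * (1 + hJ W) :=
    hWh.trans (mul_le_mul_of_nonneg_right hσσ (by linarith))
  rw [← hh] at hm2 hmb h9
  rw [← hh]
  refine ⟨?_, ?_⟩
  · have h1 := reg_abs hg (X := (W.baseChange F).toAffine.Point) nt nt_par nt_nonneg P hP c₁ c₂
      (e₁ / 2) A B h 0 m b (dexp g) hB hc₁0 hcomb hh1 le_rfl hm1 hSp hmb fun h0 => by
        exfalso
        nlinarith
    rwa [add_zero] at h1
  intro hsc S hS
  obtain ⟨R, hR⟩ : ∃ R : ℝ, R = (∑ p ∈ S, Real.log (Ideal.absNorm p)) / Module.finrank ℚ K :=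
    ⟨_, rfl⟩
  have hR0 : 0 ≤ R := by
    rw [hR]
    refine div_nonneg (Finset.sum_nonneg fun p hp => ?_) (Nat.cast_nonneg _)
    exact Real.log_natCast_nonneg _
  rw [← hR]
  obtain ⟨ρ₁, hρ₁, hval⟩ := exists_chi hg ρ hρ hsc
  have hK1 := kp_scalar ρ ρ₁ hval gal P hK
  have hpt : A * h ≤ R → ∀ ℓ : Fin g → ℤ, ℓ ≠ 0 → e₁ / 2 * R ≤ nt (Phi P ℓ) := by
    intro hRA ℓ hℓ
    have hKx := kp_phi ρ₁ gal P hK1 ℓ
    rcases hT2 W F ρ₁ hρ₁ 1 isPol_one (fun s => gl_one (ρ₁ s)) (fun _ => Phi P ℓ) hKx with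
      h3 | h3
    · exact absurd (li_phi hP hℓ) (obstructed_not_li h3)
    have h4 := h3 S hS
    rw [ntL_one, ← hR] at h4
    exact hA h R _ (hW W) hh1 h9 h4 hRA
  exact reg_abs hg (X := (W.baseChange F).toAffine.Point) nt nt_par nt_nonneg P hP c₁ c₂ (e₁ / 2)
    A B h R m b (dexp g) hB hc₁0 hcomb hh1 hR0 hm1 hSp hmb hpt

end Pow

end LangForms
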