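import Pool.Agent.Lib_MP_f5471b_j.Defs

/-!
# MP_f5471b_nt: choice of many points with all differences close to zero on approximate circles
-/

namespace LangForms

namespace Pow

open Finset

variable {X : Type} [AddCommGroup X]

/-- Differences of two points both close to zero. -/
theorem diff_small {L c : ℝ} {ρ : X → ℝ} (hρ : ∀ Q, 0 ≤ ρ Q) (hL : 0 < L) (hc : 0 ≤ c)
    (h : PtRho L c ρ) (u u' : X) (h1 : ρ u ≤ L / 40 + c) (h2 : ρ u' ≤ L / 40 + c) :
    ρ (u - u') ≤ L / 20 + 3 * c := by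
  have a1 : |ρ u - ρ u'| ≤ L / 40 + c := by
    rw [abs_le]
    constructor <;> linarith [hρ u, hρ u']
  have a2 : min (ρ u + ρ u') (L - ρ u - ρ u') ≤ L / 20 + 2 * c :=
    (min_le_left _ _).trans (by linarith)
  rcases h u u' with ⟨_, h4⟩ | ⟨_, h4⟩
  · have := (abs_le.1 h4).2
    linarith
  · have := (abs_le.1 h4).2
    linarith

theorem arch_one {L c : ℝ} {ρ : X → ℝ} (hL : 0 < L) (hc : 0 ≤ c) (hρ : ∀ Q, 0 ≤ ρ Q)
    (hρ' : ∀ Q, ρ Q ≤ L / 2) (h : PtRho L c ρ) (S : Finset X) :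
    ∃ S' ⊆ S, S.card ≤ 42 * S'.card ∧ ∀ x ∈ S', ∀ y ∈ S', ρ (x - y) ≤ L / 20 + 3 * c := by
  classical
  obtain ⟨i, hi⟩ : ∃ i : X → ℕ, i = fun x => ⌊40 * (ρ x / L)⌋₊ := ⟨_, rfl⟩
  have hi21 : ∀ x ∈ S, i x ∈ range 21 := by
    intro x _
    rw [mem_range, hi]
    have h1 : 40 * (ρ x / L) ≤ 20 := by
      have : ρ x / L ≤ 1 / 2 := by
        rw [div_le_iff₀ hL]; linarith [hρ' x]
      linarith
    have h2 : ⌊40 * (ρ x / L)⌋₊ ≤ 20 := Nat.floor_le_of_le (by exact_mod_cast h1)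
    simp only
    omega
  obtain ⟨j, hj⟩ : ∃ j ∈ range 21, S.card ≤ 21 * (S.filter fun x => i x = j).card := by
    by_contra hcon
    push Not at hcon
    have h1 := Finset.card_eq_sum_card_fiberwise (f := i) (s := S) (t := range 21) hi21
    have h2 : 21 * S.card < 21 * S.card := by
      calc 21 * S.card = ∑ j ∈ range 21, 21 * (S.filter fun x => i x = j).card := by
            rw [← Finset.mul_sum, ← h1]
        _ < ∑ _j ∈ range 21, S.card :=
            Finset.sum_lt_sum_of_nonempty ⟨0, by simp⟩ hcon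
        _ = 21 * S.card := by simp
    exact lt_irrefl _ h2
  obtain ⟨C, hC⟩ : ∃ C, C = S.filter fun x => i x = j := ⟨_, rfl⟩
  have hCS : C ⊆ S := by rw [hC]; exact Finset.filter_subset _ _
  rw [← hC] at hj
  rcases C.eq_empty_or_nonempty with hemp | ⟨x₀, hx₀⟩
  · refine ⟨∅, Finset.empty_subset _, ?_, by simp⟩
    rw [hemp] at hj
    simpa using hj.2
  have hclose : ∀ x ∈ C, |ρ x - ρ x₀| ≤ L / 40 := by
    intro x hx
    rw [hC, Finset.mem_filter] at hx hx₀
    have e : ⌊40 * (ρ x / L)⌋₊ = ⌊40 * (ρ x₀ / L)⌋₊ := by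
      have h1 := hx.2.trans hx₀.2.symm
      rw [hi] at h1
      exact h1
    have a0 : 0 ≤ 40 * (ρ x / L) := by have := hρ x; positivity
    have b0 : 0 ≤ 40 * (ρ x₀ / L) := by have := hρ x₀; positivity
    have a1 := Nat.floor_le a0
    have a2 := Nat.lt_floor_add_one (40 * (ρ x / L))
    have b1 := Nat.floor_le b0
    have b2 := Nat.lt_floor_add_one (40 * (ρ x₀ / L))
    rw [e] at a1 a2
    have h3 : |40 * (ρ x / L) - 40 * (ρ x₀ / L)| ≤ 1 := by
      rw [abs_le]; constructor <;> linarith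
    have h4 : 40 * (ρ x / L) - 40 * (ρ x₀ / L) = 40 / L * (ρ x - ρ x₀) := by ring
    rw [h4, abs_mul, abs_of_pos (by positivity)] at h3
    calc |ρ x - ρ x₀| = L / 40 * (40 / L * |ρ x - ρ x₀|) := by field_simp
      _ ≤ L / 40 * 1 := mul_le_mul_of_nonneg_left h3 (by positivity)
      _ = _ := mul_one _
  obtain ⟨A, hA⟩ : ∃ A, A = C.filter fun y => ρ (y - x₀) ≤ L / 40 + c := ⟨_, rfl⟩
  obtain ⟨B, hB⟩ : ∃ B, B = C.filter fun y => ρ (y + x₀) ≤ L / 40 + c := ⟨_, rfl⟩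
  have hAC : A ⊆ C := by rw [hA]; exact Finset.filter_subset _ _
  have hBC : B ⊆ C := by rw [hB]; exact Finset.filter_subset _ _
  have hcov : C ⊆ A ∪ B := by
    intro y hy
    rw [Finset.mem_union, hA, hB, Finset.mem_filter, Finset.mem_filter]
    have h1 := hclose y hy
    rcases h y x₀ with ⟨h3, _⟩ | ⟨_, h3⟩
    · right
      refine ⟨hy, ?_⟩
      have := (abs_le.1 h3).2
      linarith
    · left
      refine ⟨hy, ?_⟩
      have := (abs_le.1 h3).2
      linarith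
  have hcard : C.card ≤ A.card + B.card :=
    (Finset.card_le_card hcov).trans (Finset.card_union_le _ _)
  have hAprop : ∀ x ∈ A, ∀ y ∈ A, ρ (x - y) ≤ L / 20 + 3 * c := by
    intro x hx y hy
    rw [hA, Finset.mem_filter] at hx hy
    have := diff_small hρ hL hc h _ _ hx.2 hy.2
    rwa [sub_sub_sub_cancel_right] at this
  have hBprop : ∀ x ∈ B, ∀ y ∈ B, ρ (x - y) ≤ L / 20 + 3 * c := by
    intro x hx y hy
    rw [hB, Finset.mem_filter] at hx hy
    have := diff_small hρ hL hc h _ _ hx.2 hy.2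
    rwa [add_sub_add_right_eq_sub] at this
  rcases le_total A.card B.card with hle | hle
  · exact ⟨B, hBC.trans hCS, by have := hj.2; omega, hBprop⟩
  · exact ⟨A, hAC.trans hCS, by have := hj.2; omega, hAprop⟩

theorem arch_select {β : Type} (I : Finset β) (L : β → ℝ) (c : ℝ) (hc : 0 ≤ c) (ρ : β → X → ℝ)
    (hL : ∀ v ∈ I, 0 < L v) (hρ : ∀ v ∈ I, ∀ Q, 0 ≤ ρ v Q) (hρ' : ∀ v ∈ I, ∀ Q, ρ v Q ≤ L v / 2)
    (h : ∀ v ∈ I, PtRho (L v) c (ρ v)) (S : Finset X) :
    ∃ S' ⊆ S, S.card ≤ 42 ^ I.card * S'.card ∧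
      ∀ v ∈ I, ∀ x ∈ S', ∀ y ∈ S', ρ v (x - y) ≤ L v / 20 + 3 * c := by
  classical
  induction I using Finset.induction with
  | empty => exact ⟨S, subset_rfl, by simp, by simp⟩
  | insert v I hv ih =>
    obtain ⟨S₁, hS₁, hc₁, h₁⟩ := ih (fun w hw => hL w (Finset.mem_insert_of_mem hw))
      (fun w hw => hρ w (Finset.mem_insert_of_mem hw))
      (fun w hw => hρ' w (Finset.mem_insert_of_mem hw))
      (fun w hw => h w (Finset.mem_insert_of_mem hw))
    obtain ⟨S₂, hS₂, hc₂, h₂⟩ := arch_one (hL v (Finset.mem_insert_self _ _)) hc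
      (hρ v (Finset.mem_insert_self _ _)) (hρ' v (Finset.mem_insert_self _ _))
      (h v (Finset.mem_insert_self _ _)) S₁
    refine ⟨S₂, hS₂.trans hS₁, ?_, ?_⟩
    · rw [Finset.card_insert_of_notMem hv, pow_succ, mul_assoc]
      exact hc₁.trans (Nat.mul_le_mul_left _ hc₂)
    · intro w hw x hx y hy
      rcases Finset.mem_insert.1 hw with rfl | hw
      · exact h₂ x hx y hy
      · exact h₁ w hw x (hS₂ hx) y (hS₂ hy)

end Pow

end LangForms
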