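import Pool.Agent.Lib_MP_f5471b_q.PairsC
import Pool.Agent.Lib_MP_f5471b_q.Arch
import Pool.Agent.Lib_MP_f5471b_j.LS

/-!
# MP_f5471b_nt: every large finite set of points has a difference of large canonical height
-/

namespace LangForms

open Height NumberField WeierstrassCurve Topology Filter

namespace Pow

/-- Every finite set of at least `m` points has two different points whose difference has
`q ≥ b`. -/
def Sp {X : Type} [AddCommGroup X] (q : X → ℝ) (m b : ℝ) : Prop :=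
  ∀ S : Finset X, m ≤ S.card → ∃ x ∈ S, ∃ y ∈ S, x ≠ y ∧ b ≤ q (x - y)

theorem plNorm_log_ge {F : Type} [Field F] [NumberField F] (v : FinitePlace F) :
    1 / 2 ≤ Real.log (plNorm v) := by
  have h1 := RhoFinAux.one_lt_plNorm v
  have h2 : (2 : ℝ) ≤ plNorm v := by
    unfold plNorm at h1 ⊢
    have : 1 < Ideal.absNorm v.maximalIdeal.asIdeal := by exact_mod_cast h1
    exact_mod_cast this
  have h3 := Real.log_two_gt_d9
  have h4 := Real.log_le_log (by norm_num) h2
  linarith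

/-- The exact circle functions at the finite places. -/
theorem circ_fin {F : Type} [Field F] [NumberField F] {X : Type} [AddCommGroup X] {t : F}
    {ξ : X → Fin 2 → F} (hξ : XMap t ξ) (v : FinitePlace F) (h0 : 0 < v t) (h1 : v t < 1) :
    Circ (Lt v.1 t) fun Q => rho v.1 t (ξ Q) := by
  have hna : IsNonarchimedean v.1 := FinitePlace.add_le v
  have h2 := dup_na v.1 hna t h0 h1
  have h3 := add_na v.1 hna t h0 h1
  exact ⟨neg_pos.2 (Real.log_neg h0 h1), LSAux.rho_zero hξ v.1 h1.le,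
    fun Q => rho_nonneg v.1 t h1.le _, fun Q => rho_le v.1 t h0 _,
    ptRho_of hξ v.1 0 le_rfl h0 h1 h2.2 h3⟩

theorem sep_abs (d : ℕ) : ∃ C c H₀ : ℝ, 1 ≤ C ∧ 0 < c ∧
    ∀ (F : Type) [Field F] [NumberField F], Module.finrank ℚ F ≤ d →
    ∀ t : F, t ≠ 0 → 1 + 1728 * t ≠ 0 → H₀ ≤ logHeight₁ t →
    ∀ (X : Type) [AddCommGroup X] (ξ : X → Fin 2 → F), XMap t ξ →
    ∀ q : X → ℝ,
    (∀ Q : X, Tendsto (fun n : ℕ => logHeight (ξ ((2 ^ n) • Q)) / 4 ^ n) atTop (𝓝 (q Q))) →
    ∀ N : ℝ, 1 ≤ N → C * N ^ 2 ≤ logHeight₁ t →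
      Sp q C (c * logHeight₁ t) ∨ Sp q (C * N ^ 2) (c * (logHeight₁ t / N ^ 2)) ∨
      ((∀ β : ℝ, 0 ≤ β → β ^ 3 ≤ c * (logHeight₁ t * N ^ 2) →
          Sp q (C * (logHeight₁ t / N)) β) ∧
        ∀ m β : ℝ, 0 ≤ m → 0 ≤ β → C * (logHeight₁ t / N) ^ 3 ≤ m ^ 2 →
          β ^ 2 ≤ c * (logHeight₁ t * N) → Sp q m β) := by
  classical
  obtain ⟨ε₁, c₁, hε₁, hε₁', hc₁, hdup⟩ := dup_gen
  obtain ⟨ε₂, c₂, hε₂, hε₂', hc₂, hadd⟩ := add_gen
  obtain ⟨ε, hεdef⟩ : ∃ ε, ε = min ε₁ ε₂ := ⟨_, rfl⟩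
  obtain ⟨c₀, hc₀def⟩ : ∃ c₀, c₀ = max c₁ c₂ := ⟨_, rfl⟩
  have hε : 0 < ε := by rw [hεdef]; exact lt_min hε₁ hε₂
  have hε' : ε < 1 := by rw [hεdef]; exact lt_of_le_of_lt (min_le_left _ _) hε₁'
  have hc₀ : 0 ≤ c₀ := by rw [hc₀def]; exact hc₁.trans (le_max_left _ _)
  have hdup' : ∀ (F : Type) [Field F] (v : AbsoluteValue F ℝ) (t : F), 0 < v t → v t ≤ ε →
      DupLow v t c₀ ∧ DupRho v t c₀ := by
    intro F _ v t h1 h2
    have h3 := hdup F v t h1 (h2.trans (by rw [hεdef]; exact min_le_left _ _))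
    have h4 : c₁ ≤ c₀ := by rw [hc₀def]; exact le_max_left _ _
    exact ⟨LSAux.DupLow.mono h4 h3.1, LSAux.DupRho.mono h4 h3.2⟩
  have hadd' : ∀ (F : Type) [Field F] (v : AbsoluteValue F ℝ) (t : F), 0 < v t → v t ≤ ε →
      AddRho v t c₀ := by
    intro F _ v t h1 h2
    exact LSAux.AddRho.mono (by rw [hc₀def]; exact le_max_right _ _)
      (hadd F v t h1 (h2.trans (by rw [hεdef]; exact min_le_right _ _)))
  obtain ⟨C₁, hC₁, hcl⟩ := can_lower d ε c₀ hε hε' hc₀ hdup'
  obtain ⟨E, hE⟩ : ∃ E : ℝ, E = 3 * c₀ * d + C₁ := ⟨_, rfl⟩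
  have hE0 : 0 ≤ E := by rw [hE]; positivity
  obtain ⟨dε, hdε⟩ : ∃ dε : ℝ, dε = d * -Real.log ε := ⟨_, rfl⟩
  have hlogε : 0 ≤ -Real.log ε := by
    rw [neg_nonneg]; exact Real.log_nonpos hε.le hε'.le
  have hdε0 : 0 ≤ dε := by rw [hdε]; positivity
  obtain ⟨B, hB⟩ : ∃ B : ℝ, B = 42 ^ d := ⟨_, rfl⟩
  have hB1 : 1 ≤ B := by rw [hB]; exact one_le_pow₀ (by norm_num)
  obtain ⟨C, hC⟩ : ∃ C : ℝ, C = max (max (2240 * B) (1280 * E)) (B ^ 2 * 14400 ^ 3) := ⟨_, rfl⟩
  have hCB : 2240 * B ≤ C := by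
    rw [hC]; exact (le_max_left _ _).trans (le_max_left _ _)
  have hCE : 1280 * E ≤ C := by
    rw [hC]; exact (le_max_right _ _).trans (le_max_left _ _)
  have hCB2 : B ^ 2 * 14400 ^ 3 ≤ C := by rw [hC]; exact le_max_right _ _
  refine ⟨C, 1 / (16 * 19200 ^ 2),
    max (max 1 (115200 * E ^ 2)) (max (4 * dε) (16 * E ^ 3 * 19200 ^ 2)),
    by linarith, by norm_num, ?_⟩
  intro F _ _ hFd t ht hκ hH X _ ξ hξ q hlim N hN hNH
  obtain ⟨H, hHd⟩ : ∃ H, H = logHeight₁ t := ⟨_, rfl⟩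
  rw [← hHd] at hH hNH ⊢
  have hH1 : 1 ≤ H := ((le_max_left _ _).trans (le_max_left _ _)).trans hH
  have hHE3 : 115200 * E ^ 2 ≤ H := ((le_max_right _ _).trans (le_max_left _ _)).trans hH
  have hHdε : 4 * dε ≤ H := ((le_max_left _ _).trans (le_max_right _ _)).trans hH
  have hHE : 16 * E ^ 3 * 19200 ^ 2 ≤ H :=
    ((le_max_right _ _).trans (le_max_right _ _)).trans hH
  have hNpos : 0 < N := by linarith
  have hN2 : 1 ≤ N ^ 2 := one_le_pow₀ hN
  have hHE2 : 1280 * E * N ^ 2 ≤ H :=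
    (mul_le_mul_of_nonneg_right hCE (by positivity)).trans hNH
  have hHE1 : 1280 * E ≤ H := by nlinarith
  have hvt : ∀ v : FinitePlace F, 0 < v t := fun v => by
    rw [FinitePlace.pos_iff]; exact ht
  have hvi : ∀ v : InfinitePlace F, 0 < v t := fun v => by
    rw [InfinitePlace.pos_iff]; exact ht
  -- the bad finite places
  obtain ⟨Tf, hTf⟩ : ∃ Tf : Finset (FinitePlace F), ∀ v, v ∈ Tf ↔ v t < 1 := by
    have hfin : {v : FinitePlace F | v t < 1}.Finite := by
      refine (FinitePlace.hasFiniteMulSupport ht).subset ?_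
      intro v hv
      rw [Function.mem_mulSupport]
      exact ne_of_lt hv
    exact ⟨hfin.toFinset, fun v => by simp⟩
  have hh := logHeight₁_eq_Lt t ht Tf hTf
  rw [← hHd] at hh
  obtain ⟨W, hW⟩ : ∃ W, W = ∑ v ∈ Tf, Lt v.1 t := ⟨_, rfl⟩
  have hCirc : ∀ v ∈ Tf, Circ (Lt v.1 t) fun Q => rho v.1 t (ξ Q) := fun v hv =>
    circ_fin hξ v (hvt v) ((hTf v).1 hv)
  have hW0 : 0 ≤ W := by
    rw [hW]; exact Finset.sum_nonneg fun v hv => (hCirc v hv).pos.le
  -- the infinite places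
  obtain ⟨I, hI⟩ : ∃ I : Finset (InfinitePlace F), I = Finset.univ.filter fun v => v t ≤ ε :=
    ⟨_, rfl⟩
  have hIv : ∀ v ∈ I, v t ≤ ε := fun v hv => by
    rw [hI, Finset.mem_filter] at hv; exact hv.2
  have hLi : ∀ v ∈ I, 0 < Lt v.1 t := fun v hv =>
    neg_pos.2 (Real.log_neg (hvi v) (lt_of_le_of_lt (hIv v hv) hε'))
  obtain ⟨WI, hWI⟩ : ∃ WI, WI = ∑ v ∈ I, (v.mult : ℝ) * Lt v.1 t := ⟨_, rfl⟩
  have hWI0 : 0 ≤ WI := by
    rw [hWI]; exact Finset.sum_nonneg fun v hv => mul_nonneg (Nat.cast_nonneg _) (hLi v hv).le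
  have hmult : ∑ v ∈ I, (v.mult : ℝ) ≤ d := by
    have h1 : ∑ v ∈ I, (v.mult : ℝ) ≤ ∑ v : InfinitePlace F, (v.mult : ℝ) :=
      Finset.sum_le_univ_sum_of_nonneg fun v => Nat.cast_nonneg _
    have h2 : ∑ v : InfinitePlace F, (v.mult : ℝ) = Module.finrank ℚ F := by
      exact_mod_cast InfinitePlace.sum_mult_eq
    have h3 : (Module.finrank ℚ F : ℝ) ≤ d := by exact_mod_cast hFd
    linarith
  have hA : ∑ v : InfinitePlace F, v.mult * Real.posLog (v t)⁻¹ ≤ WI + dε := by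
    have h1 : ∀ v : InfinitePlace F, (v.mult : ℝ) * Real.posLog (v t)⁻¹ ≤
        (if v t ≤ ε then (v.mult : ℝ) * Lt v.1 t else 0) + v.mult * -Real.log ε := by
      intro v
      have hm0 : (0 : ℝ) ≤ v.mult := Nat.cast_nonneg _
      split_ifs with h
      · have h2 : Real.posLog (v t)⁻¹ = Lt v.1 t := by
          rw [Real.posLog_eq_log]
          · rw [Real.log_inv]; rfl
          · rw [abs_of_pos (inv_pos.2 (hvi v))]
            exact (one_le_inv₀ (hvi v)).2 (h.trans hε'.le)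
        rw [h2]
        have := mul_nonneg hm0 hlogε
        linarith
      · rw [zero_add]
        refine mul_le_mul_of_nonneg_left ?_ hm0
        push Not at h
        rw [Real.posLog]
        refine max_le hlogε ?_
        rw [Real.log_inv]
        exact neg_le_neg (Real.log_le_log hε h.le)
    refine (Finset.sum_le_sum fun v _ => h1 v).trans ?_
    rw [Finset.sum_add_distrib, hWI, hI, Finset.sum_filter, ← Finset.sum_mul]
    have h2 : ∑ v : InfinitePlace F, (v.mult : ℝ) = Module.finrank ℚ F := by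
      exact_mod_cast InfinitePlace.sum_mult_eq
    have h3 : (Module.finrank ℚ F : ℝ) ≤ d := by exact_mod_cast hFd
    rw [h2, hdε]
    have := mul_le_mul_of_nonneg_right h3 hlogε
    linarith
  rw [← hW] at hh
  have hHle : H ≤ WI + dε + W := by rw [hh]; linarith
  have hWH : W ≤ H := by
    have : 0 ≤ ∑ v : InfinitePlace F, v.mult * Real.posLog (v t)⁻¹ :=
      Finset.sum_nonneg fun v _ => mul_nonneg (Nat.cast_nonneg _) Real.posLog_nonneg
    linarith
  -- the lower bound for differences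
  obtain ⟨bs, hbs⟩ : ∃ bs : X → ℝ, bs = bsum Tf (fun v => Lt v.1 t)
    (fun v Q => rho v.1 t (ξ Q)) := ⟨_, rfl⟩
  have hlow : ∀ z : X, z ≠ 0 → (∀ v ∈ I, rho v.1 t (ξ z) ≤ Lt v.1 t / 20 + 3 * c₀) →
      bs z + WI / 10 - E ≤ q z := by
    intro z hz hzI
    have h1 := hcl F hFd t ht hκ X ξ hξ Tf hTf z (q z) hz (hlim z)
    have h2 : ∑ v ∈ Tf, phi v.1 t (ξ z) = bs z := by
      rw [hbs, bsum]
      refine Finset.sum_congr rfl fun v hv => ?_
      have hL := (hCirc v hv).pos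
      simp only [phi, bv, bern]
      field_simp
    have h3 : WI / 10 - 3 * c₀ * d ≤
        ∑ v : InfinitePlace F, (if v t ≤ ε then v.mult * phi v.1 t (ξ z) else 0) := by
      rw [← Finset.sum_filter, ← hI]
      have h4 : ∀ v ∈ I, (v.mult : ℝ) * (Lt v.1 t / 10) - v.mult * (3 * c₀) ≤
          v.mult * phi v.1 t (ξ z) := by
        intro v hv
        have h5 := hzI v hv
        have h6 := hLi v hv
        have h7 : 0 ≤ rho v.1 t (ξ z) ^ 2 / Lt v.1 t := by positivity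
        have h8 : Lt v.1 t / 10 - 3 * c₀ ≤ phi v.1 t (ξ z) := by
          simp only [phi]
          linarith
        have h9 := mul_le_mul_of_nonneg_left h8 (Nat.cast_nonneg (α := ℝ) v.mult)
        linarith
      refine le_trans ?_ (Finset.sum_le_sum h4)
      rw [Finset.sum_sub_distrib, ← Finset.sum_mul]
      have h5 : ∑ v ∈ I, (v.mult : ℝ) * (Lt v.1 t / 10) = WI / 10 := by
        rw [hWI, Finset.sum_div]
        exact Finset.sum_congr rfl fun v _ => by ring
      rw [h5]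
      have h6 : (∑ v ∈ I, (v.mult : ℝ)) * (3 * c₀) ≤ d * (3 * c₀) :=
        mul_le_mul_of_nonneg_right hmult (by positivity)
      linarith
    rw [h2] at h1
    rw [hE]
    linarith
  -- selection at the infinite places
  have hsel : ∀ S : Finset X, ∃ S' ⊆ S, (S.card : ℝ) ≤ B * S'.card ∧
      ∀ x ∈ S', ∀ y ∈ S', x ≠ y → bs (x - y) + WI / 10 - E ≤ q (x - y) := by
    intro S
    obtain ⟨S', hS', hcard, h1⟩ := arch_select I (fun v => Lt v.1 t) c₀ hc₀
      (fun v Q => rho v.1 t (ξ Q)) hLi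
      (fun v hv Q => rho_nonneg v.1 t ((hIv v hv).trans hε'.le) _)
      (fun v hv Q => rho_le v.1 t (hvi v) _)
      (fun v hv => ptRho_of hξ v.1 c₀ hc₀ (hvi v) (lt_of_le_of_lt (hIv v hv) hε')
        (hdup' F v.1 t (hvi v) (hIv v hv)).2 (hadd' F v.1 t (hvi v) (hIv v hv))) S
    refine ⟨S', hS', ?_, ?_⟩
    · have h2 : I.card ≤ d := by
        refine (Finset.card_le_univ I).trans ((LSAux.card_inf_le F).trans hFd)
      have h3 : (S.card : ℝ) ≤ 42 ^ I.card * S'.card := by exact_mod_cast hcard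
      refine h3.trans ?_
      rw [hB]
      exact mul_le_mul_of_nonneg_right (pow_le_pow_right₀ (by norm_num) h2) (Nat.cast_nonneg _)
    · intro x hx y hy hxy
      exact hlow _ (sub_ne_zero.2 hxy) fun v hv => h1 v hv x hx y hy
  by_cases hcase : H / 4 ≤ WI
  · -- case A
    left
    intro S hS
    obtain ⟨S', hS', hcard, h1⟩ := hsel S
    have h2 : (41 : ℝ) ≤ S'.card := by
      by_contra hlt
      push Not at hlt
      have : B * S'.card ≤ B * 41 := mul_le_mul_of_nonneg_left hlt.le (by linarith)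
      linarith
    have h3 : 41 ≤ S'.card := by exact_mod_cast h2
    obtain ⟨x, hx, y, hy, hxy, h⟩ := pairA hCirc S' h3
    refine ⟨x, hS' hx, y, hS' hy, hxy, ?_⟩
    have h4 := h1 x hx y hy hxy
    rw [← hW, ← hbs] at h
    have h5 : (1 : ℝ) / (16 * 19200 ^ 2) * H ≤ H / 96 := by
      rw [div_mul_eq_mul_div, div_le_div_iff₀ (by norm_num) (by norm_num)]
      nlinarith
    linarith
  right
  push Not at hcase
  have hWbig : H / 2 ≤ W := by linarith
  have hWp : 0 < W := by linarith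
  -- the component numbers
  have hn : ∀ v ∈ Tf, ∃ n : ℕ, 1 ≤ n ∧ Lt v.1 t = n * Real.log (plNorm v) ∧
      ∀ x : X, ∃ a : ℕ, rho v.1 t (ξ x) / Lt v.1 t * (2 * n) = a := by
    intro v hv
    obtain ⟨n, a, hn1, hn2, _⟩ := rho_fin v t ht ((hTf v).1 hv) (ξ 0) (hξ.ne_zero 0)
    refine ⟨n, hn1, hn2, fun x => ?_⟩
    obtain ⟨n', a', hn1', hn2', hn3'⟩ := rho_fin v t ht ((hTf v).1 hv) (ξ x) (hξ.ne_zero x)
    have hlp := log_plNorm_pos v
    refine ⟨a', ?_⟩
    have h5 : rho v.1 t (ξ x) = a' * Real.log (plNorm v) / 2 := by linarith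
    have hnpos : (0 : ℝ) < n := by exact_mod_cast (by omega : 0 < n)
    rw [h5, hn2]
    field_simp
  choose! n hn1 hn2 hn3 using hn
  obtain ⟨T₁, hT₁⟩ : ∃ T₁, T₁ = Tf.filter fun v => (n v : ℝ) ≤ N := ⟨_, rfl⟩
  obtain ⟨T₂, hT₂⟩ : ∃ T₂, T₂ = Tf.filter fun v => ¬ (n v : ℝ) ≤ N := ⟨_, rfl⟩
  have hT₁s : T₁ ⊆ Tf := by rw [hT₁]; exact Finset.filter_subset _ _
  have hT₂s : T₂ ⊆ Tf := by rw [hT₂]; exact Finset.filter_subset _ _
  have hsplit : W = ∑ v ∈ T₁, Lt v.1 t + ∑ v ∈ T₂, Lt v.1 t := by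
    rw [hW, hT₁, hT₂, Finset.sum_filter_add_sum_filter_not]
  by_cases hcase2 : W ≤ 4 * ∑ v ∈ T₁, Lt v.1 t
  · -- case B1
    left
    intro S hS
    obtain ⟨S', hS', hcard, h1⟩ := hsel S
    have h2 : 54 * N ^ 2 ≤ (S'.card : ℝ) := by
      by_contra hlt
      push Not at hlt
      have h3 : B * S'.card ≤ B * (54 * N ^ 2) := mul_le_mul_of_nonneg_left hlt.le (by linarith)
      have h4 : 2240 * B * N ^ 2 ≤ C * N ^ 2 := mul_le_mul_of_nonneg_right hCB (by positivity)
      have h5 : 0 < B * N ^ 2 := by positivity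
      linarith
    obtain ⟨x, hx, y, hy, hxy, h⟩ := pairB1 hCirc T₁ hT₁s n
      (fun v hv => hn1 v (hT₁s hv)) N hN
      (fun v hv => by rw [hT₁, Finset.mem_filter] at hv; exact hv.2)
      (fun v hv => hn3 v (hT₁s hv)) (by rw [← hW]; exact hcase2) S' h2
    refine ⟨x, hS' hx, y, hS' hy, hxy, ?_⟩
    have h4 := h1 x hx y hy hxy
    rw [← hW, ← hbs] at h
    have h5 : H / (640 * N ^ 2) ≤ W / (320 * N ^ 2) := by
      rw [div_le_div_iff₀ (by positivity) (by positivity)]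
      nlinarith
    have h6 : E ≤ H / (1280 * N ^ 2) := by
      rw [le_div_iff₀ (by positivity)]
      linarith
    have h7 : H / (640 * N ^ 2) = 2 * (H / (1280 * N ^ 2)) := by
      field_simp
      norm_num
    have h8 : (1 : ℝ) / (16 * 19200 ^ 2) * (H / N ^ 2) ≤ H / (1280 * N ^ 2) := by
      have e : H / (1280 * N ^ 2) = 1 / 1280 * (H / N ^ 2) := by field_simp
      rw [e]
      exact mul_le_mul_of_nonneg_right (by norm_num) (by positivity)
    linarith
  · -- case B2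
    right
    push Not at hcase2
    have hcase3 : W ≤ 4 * ∑ v ∈ T₂, Lt v.1 t := by linarith
    have hLN : ∀ v ∈ T₂, N / 2 ≤ Lt v.1 t := fun v hv => by
      rw [hT₂, Finset.mem_filter] at hv
      push Not at hv
      rw [hn2 v hv.1]
      have h3 := plNorm_log_ge v
      have h4 := hv.2
      nlinarith
    refine ⟨?_, ?_⟩
    · intro β hβ hβ3 S hS
      obtain ⟨S', hS', hcard, h1⟩ := hsel S
      have h2 : 2240 * W / N ≤ (S'.card : ℝ) := by
        by_contra hlt
        push Not at hlt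
        have h3 : B * S'.card < B * (2240 * W / N) := mul_lt_mul_of_pos_left hlt (by linarith)
        have h4 : B * (2240 * W / N) ≤ C * (H / N) := by
          calc B * (2240 * W / N) = 2240 * B * (W / N) := by ring
            _ ≤ C * (H / N) := by
              refine mul_le_mul hCB ?_ (by positivity) (by linarith)
              exact div_le_div_of_nonneg_right hWH hNpos.le
        linarith
      obtain ⟨x, hx, y, hy, hxy, h⟩ := pairB2 hCirc T₂ hT₂s N hN hLN
        (by rw [← hW]; exact hWp) (by rw [← hW]; exact hcase3) S'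
        (by rw [← hW]; exact h2) (β + E) (by linarith)
        (by
          rw [← hW]
          have h3 : (β + E) ^ 3 ≤ 4 * (β ^ 3 + E ^ 3) := by
            nlinarith [mul_nonneg (add_nonneg hβ hE0) (sq_nonneg (β - E))]
          have h4 : β ^ 3 * (16 * 19200 ^ 2) ≤ H * N ^ 2 := by
            rw [div_mul_eq_mul_div, le_div_iff₀ (by norm_num)] at hβ3
            linarith
          have h5 : H * N ^ 2 / 2 ≤ W * N ^ 2 := by
            have := mul_le_mul_of_nonneg_right hWbig (by positivity : (0 : ℝ) ≤ N ^ 2)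
            linarith
          have h6 : H ≤ H * N ^ 2 := le_mul_of_one_le_right (by linarith) hN2
          nlinarith)
      refine ⟨x, hS' hx, y, hS' hy, hxy, ?_⟩
      have h4 := h1 x hx y hy hxy
      rw [← hbs] at h
      linarith
    · intro m β hm hβ hm2 hβ2 S hS
      obtain ⟨S', hS', hcard, h1⟩ := hsel S
      have h2 : (14400 * W / N) ^ 3 ≤ (S'.card : ℝ) ^ 2 := by
        have h3 : m ^ 2 ≤ (B * S'.card) ^ 2 :=
          pow_le_pow_left₀ hm (hS.trans hcard) 2
        have h4 : B ^ 2 * (14400 * W / N) ^ 3 ≤ C * (H / N) ^ 3 := by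
          calc B ^ 2 * (14400 * W / N) ^ 3 = B ^ 2 * 14400 ^ 3 * (W / N) ^ 3 := by ring
            _ ≤ C * (H / N) ^ 3 := by
              refine mul_le_mul hCB2 ?_ (by positivity) (by linarith)
              exact pow_le_pow_left₀ (by positivity)
                (div_le_div_of_nonneg_right hWH hNpos.le) 3
        have h5 : B ^ 2 * (14400 * W / N) ^ 3 ≤ B ^ 2 * (S'.card : ℝ) ^ 2 := by
          rw [← mul_pow]
          linarith
        exact le_of_mul_le_mul_left h5 (by positivity)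
      obtain ⟨x, hx, y, hy, hxy, h⟩ := pairB3 hCirc T₂ hT₂s N hN hLN
        (by rw [← hW]; exact hWp) (by rw [← hW]; exact hcase3) S'
        (by rw [← hW]; exact h2) (β + E)
        (by
          rw [← hW]
          have h3 : (β + E) ^ 2 ≤ 2 * (β ^ 2 + E ^ 2) := by
            nlinarith [sq_nonneg (β - E)]
          have h4 : β ^ 2 * (16 * 19200 ^ 2) ≤ H * N := by
            rw [div_mul_eq_mul_div, le_div_iff₀ (by norm_num)] at hβ2
            linarith
          have h5 : H * N / 2 ≤ W * N := by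
            have := mul_le_mul_of_nonneg_right hWbig hNpos.le
            linarith
          have h6 : H ≤ H * N := le_mul_of_one_le_right (by linarith) hN
          have h7 : 0 ≤ β ^ 2 := sq_nonneg β
          linarith)
      refine ⟨x, hS' hx, y, hS' hy, hxy, ?_⟩
      have h4 := h1 x hx y hy hxy
      rw [← hbs] at h
      linarith

end Pow

end LangForms
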