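import Pool.Agent.Lib_MP_f5471b_q.Code
import Pool.Agent.Lib_MP_f5471b_j.Fejer
import Pool.Agent.Lib_MP_f5471b_j.NCirc

/-!
# MP_f5471b_nt: positive semidefinite kernels from exact circle functions
-/

namespace LangForms

namespace Pow

open Finset

variable {X : Type} [AddCommGroup X]

/-- Real solutions of d'Alembert's equation are cosines: `f (x - y)` is a kernel of rank two. -/
theorem dal_repr (f : X → ℝ) (h0 : f 0 = 1) (hd : ∀ x y, f (x + y) + f (x - y) = 2 * f x * f y)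
    (hb : ∀ x, f x ^ 2 ≤ 1) : ∃ u v : X → ℝ, ∀ x y, f (x - y) = u x * u y + v x * v y := by
  by_cases hall : ∀ a, f a ^ 2 = 1
  · refine ⟨f, fun _ => 0, fun x y => ?_⟩
    have h1 := hd x y
    have h2 := hall (x + y)
    have h3 := hall (x - y)
    have h4 := hall x
    have h5 := hall y
    have h6 : (f x * f y) ^ 2 = 1 := by rw [mul_pow, h4, h5, one_mul]
    have h7 : (f (x - y) - f x * f y) ^ 2 + (f (x + y) - f x * f y) ^ 2 = 0 := by
      have e : (f (x - y) - f x * f y) ^ 2 + (f (x + y) - f x * f y) ^ 2 =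
          f (x - y) ^ 2 + f (x + y) ^ 2 + 2 * (f x * f y) ^ 2 -
          2 * (f x * f y) * (f (x + y) + f (x - y)) := by ring
      rw [e, h1, h2, h3, h6]
      nlinarith
    have h8 : (f (x - y) - f x * f y) ^ 2 = 0 := by
      nlinarith [sq_nonneg (f (x - y) - f x * f y), sq_nonneg (f (x + y) - f x * f y)]
    have h9 : f (x - y) - f x * f y = 0 := by
      exact pow_eq_zero_iff (two_ne_zero) |>.1 h8
    linarith
  · push Not at hall
    obtain ⟨a, ha⟩ := hall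
    have hlt : f a ^ 2 < 1 := lt_of_le_of_ne (hb a) ha
    obtain ⟨s, hs, hs2⟩ : ∃ s : ℝ, 0 < s ∧ s ^ 2 = 1 - f a ^ 2 :=
      ⟨Real.sqrt (1 - f a ^ 2), Real.sqrt_pos.2 (by linarith), Real.sq_sqrt (by linarith)⟩
    refine ⟨f, fun x => (f (x + a) - f (x - a)) / (2 * s), fun x y => ?_⟩
    have A1 := hd (x + a) (y + a)
    have A2 := hd (x + a) (y - a)
    have A3 := hd (x - a) (y + a)
    have A4 := hd (x - a) (y - a)
    have B1 := hd (x + y) (a + a)
    have B2 := hd (x - y) (a + a)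
    have D := hd a a
    have E := hd x y
    rw [show x + a + (y + a) = x + y + (a + a) by abel, show x + a - (y + a) = x - y by abel] at A1
    rw [show x + a + (y - a) = x + y by abel, show x + a - (y - a) = x - y + (a + a) by abel] at A2
    rw [show x - a + (y + a) = x + y by abel, show x - a - (y + a) = x - y - (a + a) by abel] at A3
    rw [show x - a + (y - a) = x + y - (a + a) by abel, show x - a - (y - a) = x - y by abel] at A4
    rw [sub_self, h0] at D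
    have key : (f (x + a) - f (x - a)) / (2 * s) * ((f (y + a) - f (y - a)) / (2 * s)) =
        (f (x - y) - f (x + y)) / 2 := by
      have hne : s ≠ 0 := hs.ne'
      rw [div_mul_div_comm, div_eq_div_iff (by positivity) (by norm_num)]
      have e1 : (f (x + a) - f (x - a)) * (f (y + a) - f (y - a)) * 2 =
          2 * (1 - f (a + a)) * (f (x - y) - f (x + y)) := by
        linear_combination -A1 + A2 + A3 - A4 + B1 - B2
      rw [e1]
      have e2 : f (a + a) = 2 * f a ^ 2 - 1 := by linear_combination D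
      have e3 : 2 * s * (2 * s) = 4 * s ^ 2 := by ring
      rw [e2, e3, hs2]
      ring
    simp only
    rw [key]
    linarith

/-- `ρ` is the distance to `0` on the circle `ℝ / L ℤ` of the values of a homomorphism. -/
structure Circ (L : ℝ) (ρ : X → ℝ) : Prop where
  pos : 0 < L
  zero : ρ 0 = 0
  nonneg : ∀ Q, 0 ≤ ρ Q
  le : ∀ Q, ρ Q ≤ L / 2
  pt : PtRho L 0 ρ

/-- The cosines of the position. -/
noncomputable def cf (L : ℝ) (ρ : X → ℝ) (k : ℕ) (x : X) : ℝ :=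
  Real.cos (k * (2 * Real.pi * (ρ x / L)))

variable {L : ℝ} {ρ : X → ℝ}

theorem Circ.neg (h : Circ L ρ) (Q : X) : ρ (-Q) = ρ Q := by
  have h1 := h.pt 0 Q
  rw [zero_add, zero_sub, h.zero, zero_sub, abs_neg, abs_of_nonneg (h.nonneg Q), zero_add,
    sub_zero, min_eq_left (by linarith [h.le Q])] at h1
  rcases h1 with h1 | h1
  · have := abs_nonpos_iff.1 h1.2
    linarith
  · have := abs_nonpos_iff.1 h1.2
    linarith

theorem Circ.sub_comm (h : Circ L ρ) (P Q : X) : ρ (P - Q) = ρ (Q - P) := by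
  rw [← neg_sub, h.neg]

theorem Circ.dal (h : Circ L ρ) (k : ℕ) (P Q : X) :
    cf L ρ k (P + Q) + cf L ρ k (P - Q) = 2 * cf L ρ k P * cf L ρ k Q := by
  have hL := h.pos
  have h1 := h.pt P Q
  have e1 : Real.cos (k * (2 * Real.pi * (|ρ P - ρ Q| / L))) =
      Real.cos (k * (2 * Real.pi * (ρ P / L)) - k * (2 * Real.pi * (ρ Q / L))) := by
    have : (k : ℝ) * (2 * Real.pi * (|ρ P - ρ Q| / L)) =
        |(k : ℝ) * (2 * Real.pi * (ρ P / L)) - k * (2 * Real.pi * (ρ Q / L))| := by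
      have e : (k : ℝ) * (2 * Real.pi * (ρ P / L)) - k * (2 * Real.pi * (ρ Q / L)) =
          k * (2 * Real.pi) / L * (ρ P - ρ Q) := by ring
      have hn : 0 ≤ (k : ℝ) * (2 * Real.pi) / L := by positivity
      rw [e, abs_mul, abs_of_nonneg hn]
      ring
    rw [this, Real.cos_abs]
  have e2 : Real.cos (k * (2 * Real.pi * (min (ρ P + ρ Q) (L - ρ P - ρ Q) / L))) =
      Real.cos (k * (2 * Real.pi * (ρ P / L)) + k * (2 * Real.pi * (ρ Q / L))) := by
    rcases min_choice (ρ P + ρ Q) (L - ρ P - ρ Q) with hm | hm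
    · rw [hm]
      congr 1
      ring
    · rw [hm]
      have e : (k : ℝ) * (2 * Real.pi * ((L - ρ P - ρ Q) / L)) =
          k * (2 * Real.pi) - (k * (2 * Real.pi * (ρ P / L)) + k * (2 * Real.pi * (ρ Q / L))) := by
        field_simp
        ring
      rw [e, Real.cos_nat_mul_two_pi_sub]
  have e3 : 2 * cf L ρ k P * cf L ρ k Q =
      Real.cos (k * (2 * Real.pi * (ρ P / L)) - k * (2 * Real.pi * (ρ Q / L))) +
      Real.cos (k * (2 * Real.pi * (ρ P / L)) + k * (2 * Real.pi * (ρ Q / L))) := by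
    rw [Real.cos_sub, Real.cos_add, cf, cf]
    ring
  rw [e3, ← e1, ← e2]
  rcases h1 with ⟨h1, h2⟩ | ⟨h1, h2⟩
  · have a1 := abs_nonpos_iff.1 h1
    have a2 := abs_nonpos_iff.1 h2
    rw [cf, cf, sub_eq_zero.1 a1, sub_eq_zero.1 a2]
  · have a1 := abs_nonpos_iff.1 h1
    have a2 := abs_nonpos_iff.1 h2
    rw [cf, cf, sub_eq_zero.1 a1, sub_eq_zero.1 a2]
    ring

theorem Circ.repr (h : Circ L ρ) (k : ℕ) :
    ∃ u v : X → ℝ, ∀ x y, cf L ρ k (x - y) = u x * u y + v x * v y := by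
  refine dal_repr (cf L ρ k) ?_ (h.dal k) fun x => ?_
  · rw [cf, h.zero]
    simp
  · rw [cf]
    exact Real.cos_sq_le_one _

/-- The value of the Bernoulli polynomial at the position. -/
noncomputable def bv (L : ℝ) (ρ : X → ℝ) (x : X) : ℝ := bern (ρ x / L)

theorem Circ.hasSum (h : Circ L ρ) (x : X) :
    HasSum (fun m : ℕ => 1 / Real.pi ^ 2 * (1 / (m : ℝ) ^ 2) * cf L ρ m x) (bv L ρ x) := by
  have h1 := bern_hasSum (ρ x / L)
  have h2 : ncirc (ρ x / L) = ρ x / L := by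
    refine ncirc_of_mem (div_nonneg (h.nonneg x) h.pos.le) ?_
    rw [div_le_iff₀ h.pos]
    linarith [h.le x]
  rw [h2] at h1
  have e : (fun m : ℕ => 1 / Real.pi ^ 2 * (1 / (m : ℝ) ^ 2) * cf L ρ m x) =
      fun m : ℕ => 1 / Real.pi ^ 2 * (1 / (m : ℝ) ^ 2 *
        Real.cos (m * (2 * Real.pi * (ρ x / L)))) := by
    funext m
    rw [cf]
    ring
  rw [e]
  exact h1

theorem wt_nonneg (m : ℕ) : 0 ≤ 1 / Real.pi ^ 2 * (1 / (m : ℝ) ^ 2) := by positivity

theorem Circ.psd_mul_cf (h : Circ L ρ) (k : ℕ) {S : Finset X} {K : X → X → ℝ} (hK : PSDk S K) :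
    PSDk S fun x y => K x y * cf L ρ k (x - y) := by
  obtain ⟨u, v, huv⟩ := h.repr k
  exact hK.mul huv

theorem Circ.psd_cf (h : Circ L ρ) (k : ℕ) (S : Finset X) :
    PSDk S fun x y => cf L ρ k (x - y) := by
  have := h.psd_mul_cf k (psd_one S)
  simpa using this

theorem Circ.psd_mul_bv (h : Circ L ρ) {S : Finset X} {K : X → X → ℝ} (hK : PSDk S K) :
    PSDk S fun x y => K x y * bv L ρ (x - y) := by
  refine PSDk.hasSum (K := fun m x y => 1 / Real.pi ^ 2 * (1 / (m : ℝ) ^ 2) *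
    (K x y * cf L ρ m (x - y))) (fun m => (h.psd_mul_cf m hK).smul (wt_nonneg m)) ?_
  intro x y
  have h1 := (h.hasSum (x - y)).mul_left (K x y)
  have e : (fun m : ℕ => 1 / Real.pi ^ 2 * (1 / (m : ℝ) ^ 2) * (K x y * cf L ρ m (x - y))) =
      fun m : ℕ => K x y * (1 / Real.pi ^ 2 * (1 / (m : ℝ) ^ 2) * cf L ρ m (x - y)) := by
    funext m
    ring
  rw [e]
  exact h1

theorem Circ.psd_bv (h : Circ L ρ) (S : Finset X) : PSDk S fun x y => bv L ρ (x - y) := by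
  have := h.psd_mul_bv (psd_one S)
  simpa using this

/-- The sum of a kernel times the Bernoulli kernel is at least one term of the Fourier series. -/
theorem Circ.sum_ge (h : Circ L ρ) (k : ℕ) {S : Finset X} {K : X → X → ℝ} (hK : PSDk S K) :
    1 / Real.pi ^ 2 * (1 / (k : ℝ) ^ 2) * ∑ x ∈ S, ∑ y ∈ S, K x y * cf L ρ k (x - y) ≤
      ∑ x ∈ S, ∑ y ∈ S, K x y * bv L ρ (x - y) := by
  have h1 : HasSum (fun m : ℕ => ∑ x ∈ S, ∑ y ∈ S, K x y *
      (1 / Real.pi ^ 2 * (1 / (m : ℝ) ^ 2) * cf L ρ m (x - y)))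
      (∑ x ∈ S, ∑ y ∈ S, K x y * bv L ρ (x - y)) :=
    hasSum_sum fun x _ => hasSum_sum fun y _ => (h.hasSum (x - y)).mul_left _
  have e : ∀ m : ℕ, ∑ x ∈ S, ∑ y ∈ S, K x y *
      (1 / Real.pi ^ 2 * (1 / (m : ℝ) ^ 2) * cf L ρ m (x - y)) =
      1 / Real.pi ^ 2 * (1 / (m : ℝ) ^ 2) * ∑ x ∈ S, ∑ y ∈ S, K x y * cf L ρ m (x - y) := by
    intro m
    rw [Finset.mul_sum]
    refine Finset.sum_congr rfl fun x _ => ?_
    rw [Finset.mul_sum]
    refine Finset.sum_congr rfl fun y _ => ?_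
    ring
  simp only [e] at h1
  exact le_hasSum h1 k fun m _ => mul_nonneg (wt_nonneg m) (h.psd_mul_cf m hK).sum_nonneg

theorem pi_sq_lt : Real.pi ^ 2 < 9.87 := by
  have h1 := Real.pi_lt_d4
  have h2 := Real.pi_pos
  nlinarith

/-- First moment, when the positions are multiples of `L / (2 n)`. -/
theorem Circ.first (h : Circ L ρ) (S : Finset X) (n : ℕ) (hn : 1 ≤ n)
    (hint : ∀ x, ∃ a : ℕ, ρ x / L * (2 * n) = a) :
    (S.card : ℝ) ^ 2 / (40 * (n : ℝ) ^ 2) ≤ ∑ x ∈ S, ∑ y ∈ S, bv L ρ (x - y) := by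
  have h1 := h.sum_ge (2 * n) (psd_one S)
  have e : ∀ x : X, cf L ρ (2 * n) x = 1 := by
    intro x
    obtain ⟨a, ha⟩ := hint x
    rw [cf]
    have : ((2 * n : ℕ) : ℝ) * (2 * Real.pi * (ρ x / L)) = a * (2 * Real.pi) := by
      push_cast
      calc 2 * (n : ℝ) * (2 * Real.pi * (ρ x / L)) = ρ x / L * (2 * n) * (2 * Real.pi) := by ring
        _ = _ := by rw [ha]
    rw [this, Real.cos_nat_mul_two_pi]
  simp only [e, one_mul, Finset.sum_const, nsmul_eq_mul, mul_one] at h1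
  refine le_trans ?_ h1
  have hn' : (0 : ℝ) < n := by exact_mod_cast hn
  have hpi := pi_sq_lt
  have hpi0 : 0 < Real.pi ^ 2 := by positivity
  push_cast
  have e2 : 1 / Real.pi ^ 2 * (1 / (2 * (n : ℝ)) ^ 2) * (↑S.card * ↑S.card) =
      (S.card : ℝ) ^ 2 / (4 * Real.pi ^ 2 * (n : ℝ) ^ 2) := by
    field_simp
    ring
  rw [e2]
  gcongr
  linarith

/-- Second moment. -/
theorem Circ.second (h : Circ L ρ) (S : Finset X) :
    (S.card : ℝ) ^ 2 / 195 ≤ ∑ x ∈ S, ∑ y ∈ S, bv L ρ (x - y) * bv L ρ (x - y) := by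
  have h1 := h.sum_ge 1 (h.psd_bv S)
  have h2 := h.sum_ge 1 (h.psd_cf 1 S)
  have h3 : (S.card : ℝ) ^ 2 / 2 ≤ ∑ x ∈ S, ∑ y ∈ S, cf L ρ 1 (x - y) * cf L ρ 1 (x - y) := by
    have h4 := (h.psd_cf 2 S).sum_nonneg
    have e : ∀ x : X, cf L ρ 1 x * cf L ρ 1 x = 1 / 2 + 1 / 2 * cf L ρ 2 x := by
      intro x
      have e1 : cf L ρ 2 x = Real.cos (2 * (2 * Real.pi * (ρ x / L))) := by
        rw [cf]; norm_num
      have e2 : cf L ρ 1 x = Real.cos (2 * Real.pi * (ρ x / L)) := by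
        rw [cf]; norm_num
      rw [e1, e2, Real.cos_two_mul]
      ring
    simp only [e, Finset.sum_add_distrib, Finset.sum_const, nsmul_eq_mul, ← Finset.mul_sum]
    nlinarith
  have hpi := pi_sq_lt
  have hpi0 : 0 < Real.pi ^ 2 := by positivity
  have h4 : ∑ x ∈ S, ∑ y ∈ S, bv L ρ (x - y) * cf L ρ 1 (x - y) =
      ∑ x ∈ S, ∑ y ∈ S, cf L ρ 1 (x - y) * bv L ρ (x - y) :=
    Finset.sum_congr rfl fun x _ => Finset.sum_congr rfl fun y _ => mul_comm _ _
  rw [h4] at h1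
  have hw : 1 / Real.pi ^ 2 * (1 / ((1 : ℕ) : ℝ) ^ 2) = 1 / Real.pi ^ 2 := by norm_num
  rw [hw] at h1 h2
  have hw0 : 0 ≤ 1 / Real.pi ^ 2 := by positivity
  have hw1 : 1 / 9.87 ≤ 1 / Real.pi ^ 2 := one_div_le_one_div_of_le hpi0 hpi.le
  have a1 : (1 / 9.87 : ℝ) * ((S.card : ℝ) ^ 2 / 2) ≤ 1 / Real.pi ^ 2 *
      ∑ x ∈ S, ∑ y ∈ S, cf L ρ 1 (x - y) * cf L ρ 1 (x - y) :=
    mul_le_mul hw1 h3 (by positivity) hw0
  have a2 : (1 / 9.87 : ℝ) * ((1 / 9.87 : ℝ) * ((S.card : ℝ) ^ 2 / 2)) ≤ 1 / Real.pi ^ 2 *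
      ∑ x ∈ S, ∑ y ∈ S, cf L ρ 1 (x - y) * bv L ρ (x - y) :=
    mul_le_mul hw1 (a1.trans h2) (by positivity) hw0
  refine le_trans ?_ (a2.trans h1)
  have hc : (0 : ℝ) ≤ (S.card : ℝ) ^ 2 := by positivity
  nlinarith

theorem Circ.bv_zero (h : Circ L ρ) : bv L ρ 0 = 1 / 6 := by
  rw [bv, h.zero, bern]
  simp

end Pow

end LangForms
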