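import Mathlib

/-!
# MP_f5471b_nt: positive semidefinite kernels on finite sets and the spherical code step
-/

namespace LangForms

namespace Pow

open Finset

variable {X : Type}

/-- The kernel `K` is positive semidefinite on the finite set `S`. -/
def PSDk (S : Finset X) (K : X → X → ℝ) : Prop :=
  ∀ c : X → ℝ, 0 ≤ ∑ x ∈ S, ∑ y ∈ S, c x * c y * K x y

theorem PSDk.sum_nonneg {S : Finset X} {K : X → X → ℝ} (h : PSDk S K) :
    0 ≤ ∑ x ∈ S, ∑ y ∈ S, K x y := by
  have := h fun _ => 1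
  simpa using this

theorem PSDk.smul {S : Finset X} {K : X → X → ℝ} (h : PSDk S K) {a : ℝ} (ha : 0 ≤ a) :
    PSDk S fun x y => a * K x y := by
  intro c
  have h1 := mul_nonneg ha (h c)
  refine h1.trans (le_of_eq ?_)
  rw [Finset.mul_sum]
  refine Finset.sum_congr rfl fun x _ => ?_
  rw [Finset.mul_sum]
  refine Finset.sum_congr rfl fun y _ => ?_
  ring

theorem PSDk.sum {S : Finset X} {ι : Type} (T : Finset ι) {K : ι → X → X → ℝ}
    (h : ∀ i ∈ T, PSDk S (K i)) : PSDk S fun x y => ∑ i ∈ T, K i x y := by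
  intro c
  have h1 : 0 ≤ ∑ i ∈ T, ∑ x ∈ S, ∑ y ∈ S, c x * c y * K i x y :=
    Finset.sum_nonneg fun i hi => h i hi c
  refine h1.trans (le_of_eq ?_)
  rw [Finset.sum_comm]
  refine Finset.sum_congr rfl fun x _ => ?_
  rw [Finset.sum_comm]
  refine Finset.sum_congr rfl fun y _ => ?_
  rw [Finset.mul_sum]

theorem PSDk.hasSum {S : Finset X} {K : ℕ → X → X → ℝ} {L : X → X → ℝ}
    (h : ∀ m, PSDk S (K m)) (hs : ∀ x y, HasSum (fun m => K m x y) (L x y)) : PSDk S L := by
  intro c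
  have h1 : HasSum (fun m => ∑ x ∈ S, ∑ y ∈ S, c x * c y * K m x y)
      (∑ x ∈ S, ∑ y ∈ S, c x * c y * L x y) :=
    hasSum_sum fun x _ => hasSum_sum fun y _ => (hs x y).mul_left _
  exact h1.nonneg fun m => h m c

/-- multiplication by a kernel of rank two -/
theorem PSDk.mul {S : Finset X} {K f : X → X → ℝ} (h : PSDk S K) {u v : X → ℝ}
    (hf : ∀ x y, f x y = u x * u y + v x * v y) : PSDk S fun x y => K x y * f x y := by
  intro c
  have h1 := add_nonneg (h fun x => c x * u x) (h fun x => c x * v x)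
  refine h1.trans (le_of_eq ?_)
  rw [← Finset.sum_add_distrib]
  refine Finset.sum_congr rfl fun x _ => ?_
  rw [← Finset.sum_add_distrib]
  refine Finset.sum_congr rfl fun y _ => ?_
  simp only [hf]
  ring

theorem psd_one (S : Finset X) : PSDk S fun _ _ => 1 := by
  intro c
  have : ∑ x ∈ S, ∑ y ∈ S, c x * c y * 1 = (∑ x ∈ S, c x) ^ 2 := by
    rw [sq, Finset.sum_mul_sum]
    simp
  rw [this]
  positivity

/-- Cauchy-Schwarz for a kernel with value `1 / 6` on the diagonal. -/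
theorem PSDk.cs {S : Finset X} {K : X → X → ℝ} (h : PSDk S K) (hsym : ∀ x y, K x y = K y x)
    {x₀ : X} (hx₀ : x₀ ∈ S) (h0 : K x₀ x₀ = 1 / 6) (c : X → ℝ) :
    6 * (∑ y ∈ S, c y * K x₀ y) ^ 2 ≤ ∑ x ∈ S, ∑ y ∈ S, c x * c y * K x y := by
  classical
  obtain ⟨A, hA⟩ : ∃ A, A = ∑ y ∈ S, c y * K x₀ y := ⟨_, rfl⟩
  have h1 := h fun x => c x - 6 * A * (if x = x₀ then 1 else 0)
  have e : ∑ x ∈ S, ∑ y ∈ S, (c x - 6 * A * (if x = x₀ then 1 else 0)) *
      (c y - 6 * A * (if y = x₀ then 1 else 0)) * K x y =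
      (∑ x ∈ S, ∑ y ∈ S, c x * c y * K x y) - 2 * (6 * A) * A + (6 * A) ^ 2 * (1 / 6) := by
    have e1 : ∀ x y, (c x - 6 * A * (if x = x₀ then 1 else 0)) *
        (c y - 6 * A * (if y = x₀ then 1 else 0)) * K x y =
        c x * c y * K x y - 6 * A * ((if y = x₀ then 1 else 0) * (c x * K x y)) -
        6 * A * ((if x = x₀ then 1 else 0) * (c y * K x y)) +
        (6 * A) ^ 2 * ((if x = x₀ then 1 else 0) * ((if y = x₀ then 1 else 0) * K x y)) := by
      intro x y; ring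
    simp only [e1, Finset.sum_add_distrib, Finset.sum_sub_distrib, ← Finset.mul_sum]
    have e2 : ∀ x, ∑ y ∈ S, (if y = x₀ then (1 : ℝ) else 0) * (c x * K x y) = c x * K x x₀ := by
      intro x
      rw [Finset.sum_eq_single x₀]
      · simp
      · intro y _ hy; simp [hy]
      · intro h; exact absurd hx₀ h
    have e3 : ∑ x ∈ S, (if x = x₀ then (1 : ℝ) else 0) * ∑ y ∈ S, (c y * K x y) = A := by
      rw [Finset.sum_eq_single x₀]
      · rw [hA]; simp
      · intro y _ hy; simp [hy]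
      · intro h; exact absurd hx₀ h
    have e4 : ∑ x ∈ S, (if x = x₀ then (1 : ℝ) else 0) *
        ∑ y ∈ S, (if y = x₀ then (1 : ℝ) else 0) * K x y = 1 / 6 := by
      rw [Finset.sum_eq_single x₀]
      · rw [Finset.sum_eq_single x₀]
        · simp [h0]
        · intro y _ hy; simp [hy]
        · intro h; exact absurd hx₀ h
      · intro y _ hy; simp [hy]
      · intro h; exact absurd hx₀ h
    have e5 : ∑ x ∈ S, c x * K x x₀ = A := by
      rw [hA]
      exact Finset.sum_congr rfl fun x _ => by rw [hsym x x₀]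
    simp only [e2, e5]
    rw [e3, e4]
    ring
  rw [e] at h1
  rw [← hA]
  nlinarith

/-- The spherical code step. -/
theorem code_step {S : Finset X} {K : X → X → ℝ} (h : PSDk S K) (hsym : ∀ x y, K x y = K y x)
    (hdiag : ∀ x, K x x = 1 / 6) (κ τ : ℝ)
    (h3 : κ / 195 * (S.card : ℝ) ^ 2 ≤ ∑ x ∈ S, ∑ y ∈ S, K x y ^ 2)
    (hκ : 0 < κ) (hτ : 0 < τ) (hτ1 : τ ≤ 1 / 2) (hτκ : τ ^ 3 ≤ κ / 600)
    (hn : 70 ≤ κ * S.card) : ∃ x ∈ S, ∃ y ∈ S, x ≠ y ∧ τ ^ 2 < K x y := by
  classical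
  by_contra hcon
  push Not at hcon
  obtain ⟨n, hndef⟩ : ∃ n : ℝ, n = (S.card : ℝ) := ⟨_, rfl⟩
  rw [← hndef] at h3 hn
  have hnpos : 0 < n := by
    by_contra hneg
    push Not at hneg
    nlinarith
  -- negative and positive parts
  obtain ⟨m, hm⟩ : ∃ m : X → X → ℝ, m = fun x y => max (-K x y) 0 := ⟨_, rfl⟩
  have hm0 : ∀ x y, 0 ≤ m x y := fun x y => by rw [hm]; exact le_max_right _ _
  have hmK : ∀ x y, m x y * K x y = -(m x y) ^ 2 := by
    intro x y
    rw [hm]
    rcases le_total 0 (K x y) with hk | hk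
    · simp only; rw [max_eq_right (by linarith)]; ring
    · simp only; rw [max_eq_left (by linarith)]; ring
  obtain ⟨δ, hδ⟩ : ∃ δ : ℝ, δ = τ ^ 2 := ⟨_, rfl⟩
  have hδ0 : 0 < δ := by rw [hδ]; positivity
  -- step one: for each point
  have step1 : ∀ x ∈ S, ∑ y ∈ S, m x y ^ 2 ≤ 1 / 18 + τ * ∑ y ∈ S, m x y := by
    intro x hx
    have h1 := h.cs hsym hx (hdiag x) (fun y => m x y)
    simp only [hmK] at h1
    rw [Finset.sum_neg_distrib, neg_sq] at h1
    have h2 : ∑ y ∈ S, ∑ z ∈ S, m x y * m x z * K y z ≤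
        1 / 6 * ∑ y ∈ S, m x y ^ 2 + δ * (∑ y ∈ S, m x y) ^ 2 := by
      have e1 : ∀ y ∈ S, ∀ z ∈ S, m x y * m x z * K y z ≤
          (if y = z then 1 / 6 * m x y ^ 2 else 0) + δ * (m x y * m x z) := by
        intro y hy z hz
        have hp := mul_nonneg (hm0 x y) (hm0 x z)
        by_cases hyz : y = z
        · subst hyz
          rw [if_pos rfl, hdiag]
          nlinarith [mul_nonneg hδ0.le hp]
        · rw [if_neg hyz, zero_add]
          have := hcon y hy z hz hyz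
          rw [← hδ] at this
          nlinarith
      calc ∑ y ∈ S, ∑ z ∈ S, m x y * m x z * K y z
          ≤ ∑ y ∈ S, ∑ z ∈ S, ((if y = z then 1 / 6 * m x y ^ 2 else 0) +
            δ * (m x y * m x z)) :=
            Finset.sum_le_sum fun y hy => Finset.sum_le_sum fun z hz => e1 y hy z hz
        _ = _ := by
          simp only [Finset.sum_add_distrib, ← Finset.mul_sum]
          rw [sq (∑ y ∈ S, m x y), Finset.sum_mul_sum]
          congr 1
          · rw [Finset.mul_sum]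
            refine Finset.sum_congr rfl fun y hy => ?_
            rw [Finset.sum_ite_eq, if_pos hy]
          · simp only [Finset.mul_sum]
    have h3 := h1.trans h2
    obtain ⟨F2, hF2⟩ : ∃ F2, F2 = ∑ y ∈ S, m x y ^ 2 := ⟨_, rfl⟩
    obtain ⟨F1, hF1⟩ : ∃ F1, F1 = ∑ y ∈ S, m x y := ⟨_, rfl⟩
    have hF10 : 0 ≤ F1 := by rw [hF1]; exact Finset.sum_nonneg fun y _ => hm0 x y
    have hF20 : 0 ≤ F2 := by rw [hF2]; exact Finset.sum_nonneg fun y _ => sq_nonneg _
    rw [← hF2, ← hF1] at h3 ⊢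
    by_contra hlt
    push Not at hlt
    have ht0 : 0 ≤ τ * F1 := mul_nonneg hτ.le hF10
    -- `F2 > 1/18` and `F2 > τ F1`
    have a1 : 1 / 18 ≤ F2 := by linarith
    have a2 : τ * F1 < F2 := by linarith
    have a3 : (τ * F1) ^ 2 ≤ F2 ^ 2 := pow_le_pow_left₀ ht0 a2.le 2
    have a4 : δ * F1 ^ 2 ≤ F2 ^ 2 := by rw [hδ]; nlinarith
    nlinarith
  -- the first moment
  have hP2 := h.sum_nonneg
  have hneg : ∑ x ∈ S, ∑ y ∈ S, m x y ≤ n / 6 + δ * n ^ 2 := by
    have e1 : ∀ x ∈ S, ∀ y ∈ S, m x y ≤ (if x = y then 1 / 6 else 0) + δ - K x y := by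
      intro x hx y hy
      simp only [hm]
      by_cases hxy : x = y
      · subst hxy
        have hd := hdiag x
        rw [if_pos rfl]
        refine max_le (by linarith) (by linarith)
      · rw [if_neg hxy]
        have := hcon x hx y hy hxy
        rw [← hδ] at this
        refine max_le (by linarith) (by linarith)
    calc ∑ x ∈ S, ∑ y ∈ S, m x y ≤ ∑ x ∈ S, ∑ y ∈ S, ((if x = y then 1 / 6 else 0) + δ - K x y) :=
          Finset.sum_le_sum fun x hx => Finset.sum_le_sum fun y hy => e1 x hx y hy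
      _ = n / 6 + δ * n ^ 2 - ∑ x ∈ S, ∑ y ∈ S, K x y := by
        simp only [Finset.sum_sub_distrib, Finset.sum_add_distrib, Finset.sum_const,
          nsmul_eq_mul]
        congr 1
        rw [← hndef]
        congr 1
        · have : ∀ x ∈ S, (∑ y ∈ S, if x = y then (1 / 6 : ℝ) else 0) = 1 / 6 := by
            intro x hx
            rw [Finset.sum_ite_eq, if_pos hx]
          rw [Finset.sum_congr rfl this, Finset.sum_const, nsmul_eq_mul, ← hndef]
          ring
        · ring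
      _ ≤ _ := by linarith
  -- the second moment
  have hsq : ∑ x ∈ S, ∑ y ∈ S, K x y ^ 2 ≤
      n / 36 + δ ^ 2 * n ^ 2 + ∑ x ∈ S, ∑ y ∈ S, m x y ^ 2 := by
    have e1 : ∀ x ∈ S, ∀ y ∈ S, K x y ^ 2 ≤ (if x = y then 1 / 36 else 0) + δ ^ 2 + m x y ^ 2 := by
      intro x hx y hy
      by_cases hxy : x = y
      · subst hxy
        rw [if_pos rfl, hdiag]
        nlinarith [sq_nonneg (m x x), sq_nonneg δ]
      · rw [if_neg hxy, zero_add]
        have hle := hcon x hx y hy hxy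
        rw [← hδ] at hle
        rcases le_total 0 (K x y) with hk | hk
        · have : K x y ^ 2 ≤ δ ^ 2 := pow_le_pow_left₀ hk hle 2
          nlinarith [sq_nonneg (m x y)]
        · have : m x y = -K x y := by rw [hm]; exact max_eq_left (by linarith)
          rw [this]
          nlinarith [sq_nonneg δ]
    calc ∑ x ∈ S, ∑ y ∈ S, K x y ^ 2
        ≤ ∑ x ∈ S, ∑ y ∈ S, ((if x = y then 1 / 36 else 0) + δ ^ 2 + m x y ^ 2) :=
          Finset.sum_le_sum fun x hx => Finset.sum_le_sum fun y hy => e1 x hx y hy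
      _ = _ := by
        simp only [Finset.sum_add_distrib, Finset.sum_const, nsmul_eq_mul]
        congr 1
        rw [← hndef]
        congr 1
        · have : ∀ x ∈ S, (∑ y ∈ S, if x = y then (1 / 36 : ℝ) else 0) = 1 / 36 := by
            intro x hx
            rw [Finset.sum_ite_eq, if_pos hx]
          rw [Finset.sum_congr rfl this, Finset.sum_const, nsmul_eq_mul, ← hndef]
          ring
        · ring
  have hm2 : ∑ x ∈ S, ∑ y ∈ S, m x y ^ 2 ≤ n / 18 + τ * (n / 6 + δ * n ^ 2) := by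
    calc ∑ x ∈ S, ∑ y ∈ S, m x y ^ 2 ≤ ∑ x ∈ S, (1 / 18 + τ * ∑ y ∈ S, m x y) :=
          Finset.sum_le_sum step1
      _ = n / 18 + τ * ∑ x ∈ S, ∑ y ∈ S, m x y := by
        rw [Finset.sum_add_distrib, Finset.sum_const, nsmul_eq_mul, ← hndef, ← Finset.mul_sum]
        ring
      _ ≤ _ := by
        have := mul_le_mul_of_nonneg_left hneg hτ.le
        linarith
  have hfin : κ / 195 * n ^ 2 ≤ n / 12 + δ ^ 2 * n ^ 2 + τ * (n / 6 + δ * n ^ 2) := by
    linarith
  -- divide by n ^ 2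
  have hκn : n * 70 ≤ κ * n ^ 2 := by nlinarith
  have hτ3 : τ * δ = τ ^ 3 := by rw [hδ]; ring
  have hτ4 : δ ^ 2 ≤ τ ^ 3 / 2 := by
    rw [hδ]
    have : τ ^ 3 * τ ≤ τ ^ 3 * (1 / 2) := mul_le_mul_of_nonneg_left hτ1 (by positivity)
    nlinarith
  have hn2 : 0 < n ^ 2 := by positivity
  have b1 : δ ^ 2 * n ^ 2 ≤ κ / 1200 * n ^ 2 :=
    mul_le_mul_of_nonneg_right (by linarith) hn2.le
  have b2 : τ * (n / 6 + δ * n ^ 2) ≤ n / 12 + κ / 600 * n ^ 2 := by
    have c1 : τ * (n / 6) ≤ 1 / 2 * (n / 6) := mul_le_mul_of_nonneg_right hτ1 (by positivity)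
    have c2 : τ * (δ * n ^ 2) ≤ κ / 600 * n ^ 2 := by
      rw [← mul_assoc, hτ3]
      exact mul_le_mul_of_nonneg_right hτκ hn2.le
    linarith
  have hκn2 : 0 < κ * n ^ 2 := by positivity
  nlinarith

end Pow

end LangForms
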