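import Pool.Agent.Lib_MP_f5471b_q.SepAbs
import Pool.Agent.Lib_MP_f5471b_j.Final

/-!
# MP_f5471b_nt: differences of large canonical height, for elliptic curves
-/

namespace LangForms

open Height NumberField WeierstrassCurve Topology Filter

namespace Pow

theorem Sp.mono {X : Type} [AddCommGroup X] {q : X → ℝ} {m m' b b' : ℝ} (h : Sp q m b)
    (hm : m ≤ m') (hb : b' ≤ b) : Sp q m' b' := fun S hS => by
  obtain ⟨x, hx, y, hy, hxy, h1⟩ := h S (hm.trans hS)
  exact ⟨x, hx, y, hy, hxy, hb.trans h1⟩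

theorem sep_bdd (d : ℕ) (H : ℝ) : ∃ m lam : ℝ, 1 ≤ m ∧ 0 < lam ∧
    ∀ (F : Type) [Field F] [NumberField F] [DecidableEq F], Module.finrank ℚ F ≤ d →
    ∀ (W : WeierstrassCurve F) [W.IsElliptic], hWrel W ≤ H →
      Sp (nt (W := W)) m lam := by
  obtain ⟨C, hC, hpar⟩ := approx_par
  obtain ⟨N, hN⟩ := uniform_count d (C * (d + H) + 1)
  have hlam : (0 : ℝ) < 1 / (2 * (d + 1)) := by positivity
  refine ⟨2 * N + 2, 1 / (2 * (d + 1)), by have : (0 : ℝ) ≤ N := Nat.cast_nonneg _; linarith,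
    hlam, ?_⟩
  intro F _ _ _ hF W _ hW S hS
  by_contra hcon
  push Not at hcon
  have hFd : ((Module.finrank ℚ F : ℕ) : ℝ) ≤ d := by exact_mod_cast hF
  set E : ℝ := C * (Module.finrank ℚ F + hWrel W) with hE
  have hEle : E ≤ C * (d + H) := by
    rw [hE]
    apply mul_le_mul_of_nonneg_left _ hC.le
    linarith
  have hp : ∀ P Q : W.toAffine.Point,
      |hx (P + Q) + hx (P - Q) - 2 * hx P - 2 * hx Q| ≤ E := fun P Q => hpar F _ P Q
  have hS' : 2 * N + 2 ≤ S.card := by exact_mod_cast hS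
  obtain ⟨x₀, hx₀⟩ : S.Nonempty := by
    rw [← Finset.card_pos]; omega
  have hbd : ∀ x ∈ S.erase x₀, hx (x - x₀) ≤ C * (d + H) + 1 := by
    intro x hxS
    rw [Finset.mem_erase] at hxS
    have h1 := (abs_le.1 (canX_bound hx E hp (x - x₀))).1
    have h2 : canX hx (x - x₀) ≤ 1 := by
      rw [canX_eq_nt]
      have h3 := hcon x hxS.2 x₀ hx₀ hxS.1
      have h4 : 2 * (Module.finrank ℚ F : ℝ) * nt (x - x₀) ≤
          2 * (d + 1) * (1 / (2 * (d + 1))) := by
        have h5 := nt_nonneg (x - x₀)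
        refine mul_le_mul (by linarith) h3.le h5 (by positivity)
      have h6 : 2 * ((d : ℝ) + 1) * (1 / (2 * (d + 1))) = 1 := by field_simp
      linarith
    linarith
  have hrep : ∀ x ∈ S.erase x₀, (x - x₀).xRep = ![(x - x₀).xRep 0, 1] := by
    intro x hxS
    rw [Finset.mem_erase] at hxS
    have hne : x - x₀ ≠ 0 := sub_ne_zero.2 hxS.1
    rcases h : x - x₀ with _ | ⟨a, b, hab⟩
    · exact absurd h hne
    · simp
  have hcard := hN F hF ((S.erase x₀).image fun x => (x - x₀).xRep 0) (by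
      intro z hz
      obtain ⟨x, hxS, rfl⟩ := Finset.mem_image.1 hz
      rw [logHeight₁_eq_logHeight, ← hrep x hxS]
      exact hbd x hxS)
  have hfib := Finset.card_le_mul_card_image (f := fun x => (x - x₀).xRep 0) (S.erase x₀) 2 (by
      intro a ha
      obtain ⟨y, hyS, rfl⟩ := Finset.mem_image.1 ha
      refine (Finset.card_le_card (t := {y, x₀ - (y - x₀)}) ?_).trans Finset.card_le_two
      intro x hxf
      rw [Finset.mem_filter] at hxf
      rw [Finset.mem_insert, Finset.mem_singleton]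
      have h1 : (x - x₀).xRep = (y - x₀).xRep := by
        rw [hrep x hxf.1, hrep y hyS, hxf.2]
      rcases Affine.Point.eq_or_eq_neg_of_xRep_eq_xRep h1 with h2 | h2
      · left
        exact sub_left_injective h2
      · right
        rw [← sub_add_cancel x x₀, h2]
        abel)
  rw [Finset.card_erase_of_mem hx₀] at hfib
  omega

theorem sep_W (K : Type) [Field K] [NumberField K] (D : ℕ) (hD : 1 ≤ D) (σ : ℝ) :
    ∃ C' : ℝ, 1 ≤ C' ∧ ∀ B₁ : ℝ,
    ∃ C c : ℝ, 1 ≤ C ∧ 0 < c ∧ ∀ (W : WeierstrassCurve K) [W.IsElliptic],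
    hW W ≤ σ * (1 + hJ W) →
    ∀ (F : Type) [Field F] [NumberField F] [DecidableEq F] [Algebra K F],
      Module.finrank K F ≤ D →
      (hJ W ≤ B₁ → Sp (nt (W := W.baseChange F)) C (c * (1 + hJ W))) ∧
      ∀ N : ℝ, 1 ≤ N → C' * N ^ 2 ≤ 1 + hJ W →
      Sp (nt (W := W.baseChange F)) C (c * (1 + hJ W)) ∨
      Sp (nt (W := W.baseChange F)) (C * N ^ 2) (c * ((1 + hJ W) / N ^ 2)) ∨
      ((∀ β : ℝ, 0 ≤ β → β ^ 3 ≤ c * ((1 + hJ W) * N ^ 2) →
          Sp (nt (W := W.baseChange F)) (C * ((1 + hJ W) / N)) β) ∧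
        ∀ m β : ℝ, 0 ≤ m → 0 ≤ β → C * ((1 + hJ W) / N) ^ 3 ≤ m ^ 2 →
          β ^ 2 ≤ c * ((1 + hJ W) * N) → Sp (nt (W := W.baseChange F)) m β) := by
  classical
  obtain ⟨σ₁, hσ₁⟩ : ∃ σ₁, σ₁ = max σ 1 := ⟨_, rfl⟩
  have hσ1 : 1 ≤ σ₁ := by rw [hσ₁]; exact le_max_right _ _
  have hσσ : σ ≤ σ₁ := by rw [hσ₁]; exact le_max_left _ _
  obtain ⟨n, hn⟩ : ∃ n : ℕ, n = Module.finrank ℚ K := ⟨_, rfl⟩
  have hn1 : 1 ≤ n := by rw [hn]; exact Nat.succ_le_of_lt Module.finrank_pos
  obtain ⟨d, hd⟩ : ∃ d : ℕ, d = n * D := ⟨_, rfl⟩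
  have hd1 : 1 ≤ d := by rw [hd]; exact Nat.mul_pos (by omega) (by omega)
  have hdpos : (0 : ℝ) < d := by exact_mod_cast (by omega : 0 < d)
  have hd1' : (1 : ℝ) ≤ d := by exact_mod_cast hd1
  obtain ⟨C₃, hC₃, hcomp⟩ := logHeight₁_t_comp
  obtain ⟨C₀, c₀, H₀, hC₀, hc₀, hls⟩ := sep_abs d
  refine ⟨C₀ * 4, by linarith, ?_⟩
  intro B₁
  obtain ⟨B, hB⟩ : ∃ B : ℝ, B = max B₁ (max (max (2 * H₀) (2 * C₃ + 1))
      (max (logHeight₁ (0 : K) / n) (logHeight₁ (1728 : K) / n))) := ⟨_, rfl⟩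
  have hBB : B₁ ≤ B := by rw [hB]; exact le_max_left _ _
  have hB1 : 2 * H₀ ≤ B := by
    rw [hB]; exact ((le_max_left _ _).trans (le_max_left _ _)).trans (le_max_right _ _)
  have hB2 : 2 * C₃ + 1 ≤ B := by
    rw [hB]; exact ((le_max_right _ _).trans (le_max_left _ _)).trans (le_max_right _ _)
  have hB3 : logHeight₁ (0 : K) / n ≤ B := by
    rw [hB]; exact ((le_max_left _ _).trans (le_max_right _ _)).trans (le_max_right _ _)
  have hB4 : logHeight₁ (1728 : K) / n ≤ B := by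
    rw [hB]; exact ((le_max_right _ _).trans (le_max_right _ _)).trans (le_max_right _ _)
  have hB0 : 0 ≤ B := by linarith
  obtain ⟨m₁, lam, hm₁, hlam, hgap⟩ := sep_bdd d (d * (σ₁ * (1 + B)))
  obtain ⟨C, hC⟩ : ∃ C : ℝ, C = max (max m₁ (C₀ * (4 * d * (1 + C₃))))
      (C₀ * (d * (1 + C₃)) ^ 3) := ⟨_, rfl⟩
  have hCm : m₁ ≤ C := by rw [hC]; exact (le_max_left _ _).trans (le_max_left _ _)
  have hCC : C₀ * (4 * d * (1 + C₃)) ≤ C := by
    rw [hC]; exact (le_max_right _ _).trans (le_max_left _ _)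
  have hCC3 : C₀ * (d * (1 + C₃)) ^ 3 ≤ C := by rw [hC]; exact le_max_right _ _
  have hfac : 4 ≤ 4 * d * (1 + C₃) := by nlinarith
  have hCC₀ : C₀ * 4 ≤ C := (mul_le_mul_of_nonneg_left hfac (by linarith)).trans hCC
  obtain ⟨c, hc⟩ : ∃ c : ℝ, c = min (c₀ / (32 * d ^ 3)) (lam / (1 + B)) := ⟨_, rfl⟩
  have hcpos : 0 < c := by rw [hc]; exact lt_min (by positivity) (by positivity)
  have hc1 : c ≤ c₀ / (32 * d ^ 3) := by rw [hc]; exact min_le_left _ _
  have hc2 : c ≤ lam / (1 + B) := by rw [hc]; exact min_le_right _ _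
  have hd3 : (d : ℝ) ≤ d ^ 3 := by
    have : (1 : ℝ) ≤ d ^ 2 := one_le_pow₀ hd1'
    nlinarith
  have hc1' : c * (8 * d) ≤ c₀ / 4 := by
    calc c * (8 * d) ≤ c₀ / (32 * d ^ 3) * (8 * d ^ 3) :=
          mul_le_mul hc1 (by linarith) (by positivity) (by positivity)
      _ = c₀ / 4 := by field_simp; norm_num
  refine ⟨C, c, hm₁.trans hCm, hcpos, ?_⟩
  intro W _ hWh F _ _ _ _ hF
  have hjn := hJ_nonneg W
  have hnK : (0 : ℝ) < Module.finrank ℚ K := by exact_mod_cast Module.finrank_pos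
  have hnF : (0 : ℝ) < Module.finrank ℚ F := by exact_mod_cast Module.finrank_pos
  have hF1 : (1 : ℝ) ≤ Module.finrank ℚ F := by
    exact_mod_cast Nat.succ_le_of_lt Module.finrank_pos
  have hFd : Module.finrank ℚ F ≤ d := by
    rw [hd, hn, ← Module.finrank_mul_finrank ℚ K F]
    exact Nat.mul_le_mul_left _ hF
  have hFd' : (Module.finrank ℚ F : ℝ) ≤ d := by exact_mod_cast hFd
  have hmulF : (Module.finrank ℚ F : ℝ) = Module.finrank ℚ K * Module.finrank K F := by
    exact_mod_cast (Module.finrank_mul_finrank ℚ K F).symm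
  -- the bounded case
  have hbdd : hJ W ≤ B → Sp (nt (W := W.baseChange F)) C (c * (1 + hJ W)) := by
    intro hle
    have h1 : hWrel (W.baseChange F) ≤ d * (σ₁ * (1 + B)) := by
      rw [hWrel_baseChange]
      have h2 : hWrel W = Module.finrank ℚ K * hW W := by
        rw [hW]; field_simp
      have h3 : hW W ≤ σ₁ * (1 + B) :=
        hWh.trans (mul_le_mul hσσ (by linarith) (by linarith) (by linarith))
      have h0 : 0 ≤ σ₁ * (1 + B) := by positivity
      calc (Module.finrank K F : ℝ) * hWrel W = Module.finrank ℚ F * hW W := by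
            rw [h2, hmulF]; ring
        _ ≤ Module.finrank ℚ F * (σ₁ * (1 + B)) := mul_le_mul_of_nonneg_left h3 hnF.le
        _ ≤ d * (σ₁ * (1 + B)) := mul_le_mul_of_nonneg_right hFd' h0
    refine (hgap F hFd (W.baseChange F) h1).mono hCm ?_
    calc c * (1 + hJ W) ≤ lam / (1 + B) * (1 + B) :=
          mul_le_mul hc2 (by linarith) (by linarith) (by positivity)
      _ = lam := by field_simp
  refine ⟨fun hle => hbdd (hle.trans hBB), ?_⟩
  intro N hN hNh
  have hNpos : 0 < N := by linarith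
  by_cases hj0 : W.j = 0
  · left
    apply hbdd
    rw [hJ, hj0, ← hn]
    exact hB3
  by_cases hj1 : W.j = 1728
  · left
    apply hbdd
    rw [hJ, hj1, ← hn]
    exact hB4
  by_cases hbig : hJ W ≤ B
  · exact Or.inl (hbdd hbig)
  push Not at hbig
  have hjF : (W.baseChange F).j = algebraMap K F W.j := j_baseChange W
  have hjF0 : (W.baseChange F).j ≠ 0 := by
    rw [hjF]
    exact fun h => hj0 ((map_eq_zero _).1 h)
  have hjF1 : (W.baseChange F).j ≠ 1728 := by
    rw [hjF]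
    intro h
    apply hj1
    have h2 : algebraMap K F 1728 = 1728 := map_ofNat _ _
    exact (algebraMap K F).injective (h.trans h2.symm)
  obtain ⟨h4, h6, ht, ht0, hκ⟩ := t_eq (W.baseChange F) hjF0 hjF1
  obtain ⟨t, htd⟩ : ∃ t : F, t = (W.baseChange F).Δ / (W.baseChange F).c₆ ^ 2 := ⟨_, rfl⟩
  rw [← htd] at ht ht0 hκ
  have hcmp := hcomp F _ hjF1
  rw [← ht] at hcmp
  have hhJ : hJ W * Module.finrank ℚ F = logHeight₁ (W.baseChange F).j := by
    rw [hjF, logHeight₁_base, hJ, hmulF]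
    field_simp
  rw [← hhJ] at hcmp
  obtain ⟨H, hH⟩ : ∃ H : ℝ, H = logHeight₁ t := ⟨_, rfl⟩
  obtain ⟨f, hf⟩ : ∃ f : ℝ, f = Module.finrank ℚ F := ⟨_, rfl⟩
  obtain ⟨h, hh⟩ : ∃ h : ℝ, h = 1 + hJ W := ⟨_, rfl⟩
  rw [← hf, ← hH] at hcmp
  rw [← hf] at hnF hF1 hFd'
  have hHlow : h / 4 ≤ H := by
    have h2 := (abs_le.1 hcmp).1
    have h3 : 1 * (hJ W - C₃) ≤ f * (hJ W - C₃) :=
      mul_le_mul_of_nonneg_right hF1 (by linarith)
    rw [hh]
    linarith
  have hHup : H ≤ d * (1 + C₃) * h := by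
    have h2 := (abs_le.1 hcmp).2
    have h3 : f * (hJ W + C₃) ≤ d * (hJ W + C₃) :=
      mul_le_mul_of_nonneg_right hFd' (by linarith)
    have h4 : hJ W + C₃ ≤ (1 + C₃) * h := by rw [hh]; nlinarith
    have h5 : (d : ℝ) * (hJ W + C₃) ≤ d * ((1 + C₃) * h) :=
      mul_le_mul_of_nonneg_left h4 hdpos.le
    linarith
  have hhpos : 0 < h := by rw [hh]; linarith
  have hHpos : 0 < H := by linarith
  have hH₀ : H₀ ≤ H := by
    have h2 := (abs_le.1 hcmp).1
    have h3 : 1 * (hJ W - C₃) ≤ f * (hJ W - C₃) :=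
      mul_le_mul_of_nonneg_right hF1 (by linarith)
    linarith
  have hN2 : C₀ * N ^ 2 ≤ H := by
    rw [← hh] at hNh
    linarith
  have hxm := xmap_W (W.baseChange F) h4 h6
  rw [← htd] at hxm
  have hmain := hls F hFd t ht0 hκ (by rw [← hH]; exact hH₀) _ _ hxm (canX hx)
    (tendsto_xi (W.baseChange F) h4 h6) N hN (by rw [← hH]; exact hN2)
  rw [← hH] at hmain
  rw [← hh] at hbdd hNh ⊢
  have hcan : ∀ Q : (W.baseChange F).toAffine.Point, canX hx Q = 2 * f * nt Q := by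
    intro Q
    rw [hf]
    exact canX_eq_nt Q
  -- transfer
  have htrans : ∀ m b : ℝ, 0 ≤ b → Sp (canX hx (X := (W.baseChange F).toAffine.Point)) m b →
      Sp (nt (W := W.baseChange F)) m (b / (2 * d)) := by
    intro m b hb hs S hS
    obtain ⟨x, hx', y, hy', hxy, h1⟩ := hs S hS
    refine ⟨x, hx', y, hy', hxy, ?_⟩
    rw [hcan] at h1
    rw [div_le_iff₀ (by positivity)]
    have h2 := nt_nonneg (x - y)
    have h3 : f * nt (x - y) ≤ d * nt (x - y) := mul_le_mul_of_nonneg_right hFd' h2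
    linarith
  rcases hmain with h1 | h1 | h1
  · left
    refine (htrans _ _ (by positivity) h1).mono (by linarith) ?_
    rw [le_div_iff₀ (by positivity)]
    have h2 : c * (8 * d) * h ≤ c₀ / 4 * h := mul_le_mul_of_nonneg_right hc1' hhpos.le
    have h3 : c₀ * (h / 4) ≤ c₀ * H := mul_le_mul_of_nonneg_left hHlow hc₀.le
    have h4 : 0 ≤ c * h * d := by positivity
    linarith
  · right; left
    have hCC1 : C₀ ≤ C := by linarith
    refine (htrans _ _ (by positivity) h1).mono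
      (mul_le_mul_of_nonneg_right hCC1 (by positivity)) ?_
    rw [le_div_iff₀ (by positivity)]
    have h2 : c * (8 * d) * (h / N ^ 2) ≤ c₀ / 4 * (h / N ^ 2) :=
      mul_le_mul_of_nonneg_right hc1' (by positivity)
    have h3 : c₀ * (h / 4 / N ^ 2) ≤ c₀ * (H / N ^ 2) :=
      mul_le_mul_of_nonneg_left (div_le_div_of_nonneg_right hHlow (by positivity)) hc₀.le
    have h4 : 0 ≤ c * (h / N ^ 2) * d := by positivity
    have h5 : c₀ * (h / 4 / N ^ 2) = c₀ / 4 * (h / N ^ 2) := by ring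
    linarith
  · right; right
    refine ⟨?_, ?_⟩
    · intro β hβ hβ3
      have h2 := htrans _ _ (by positivity) (h1.1 (2 * d * β) (by positivity) (by
        have e : (2 * (d : ℝ) * β) ^ 3 = 8 * d ^ 3 * β ^ 3 := by ring
        rw [e]
        have h3 : 8 * (d : ℝ) ^ 3 * β ^ 3 ≤ 8 * d ^ 3 * (c * (h * N ^ 2)) :=
          mul_le_mul_of_nonneg_left hβ3 (by positivity)
        refine h3.trans ?_
        have h4 : 8 * (d : ℝ) ^ 3 * c ≤ c₀ / 4 := by
          have := mul_le_mul_of_nonneg_left hc1 (by positivity : (0 : ℝ) ≤ 8 * d ^ 3)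
          refine this.trans (le_of_eq ?_)
          field_simp
          norm_num
        calc 8 * (d : ℝ) ^ 3 * (c * (h * N ^ 2)) = 8 * (d : ℝ) ^ 3 * c * (h * N ^ 2) := by ring
          _ ≤ c₀ / 4 * (h * N ^ 2) := mul_le_mul_of_nonneg_right h4 (by positivity)
          _ = c₀ * (h / 4 * N ^ 2) := by ring
          _ ≤ c₀ * (H * N ^ 2) :=
            mul_le_mul_of_nonneg_left (mul_le_mul_of_nonneg_right hHlow (by positivity)) hc₀.le))
      refine h2.mono ?_ (le_of_eq ?_)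
      · calc C₀ * (H / N) ≤ C₀ * (d * (1 + C₃) * h / N) :=
              mul_le_mul_of_nonneg_left (div_le_div_of_nonneg_right hHup hNpos.le) (by linarith)
          _ = C₀ * (d * (1 + C₃)) * (h / N) := by ring
          _ ≤ C * (h / N) := by
            refine mul_le_mul_of_nonneg_right ?_ (by positivity)
            refine le_trans ?_ hCC
            have h5 : 0 ≤ C₀ * (d * (1 + C₃)) := by positivity
            linarith
      · field_simp
    · intro m β hm hβ hm2 hβ2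
      have h2 := htrans _ _ (by positivity) (h1.2 m (2 * d * β) hm (by positivity)
        (by
          refine le_trans ?_ hm2
          calc C₀ * (H / N) ^ 3 ≤ C₀ * (d * (1 + C₃) * h / N) ^ 3 :=
                mul_le_mul_of_nonneg_left (pow_le_pow_left₀ (by positivity)
                  (div_le_div_of_nonneg_right hHup hNpos.le) 3) (by linarith)
            _ = C₀ * (d * (1 + C₃)) ^ 3 * (h / N) ^ 3 := by ring
            _ ≤ C * (h / N) ^ 3 := mul_le_mul_of_nonneg_right hCC3 (by positivity))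
        (by
          have e : (2 * (d : ℝ) * β) ^ 2 = 4 * d ^ 2 * β ^ 2 := by ring
          rw [e]
          have h3 : 4 * (d : ℝ) ^ 2 * β ^ 2 ≤ 4 * d ^ 2 * (c * (h * N)) :=
            mul_le_mul_of_nonneg_left hβ2 (by positivity)
          refine h3.trans ?_
          have h4 : 4 * (d : ℝ) ^ 2 * c ≤ c₀ / 4 := by
            have h5 : (d : ℝ) ^ 2 ≤ d ^ 3 := by
              have : (0 : ℝ) ≤ d ^ 2 := by positivity
              nlinarith
            calc 4 * (d : ℝ) ^ 2 * c ≤ 8 * d ^ 3 * (c₀ / (32 * d ^ 3)) :=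
                  mul_le_mul (by
                    have h6 : (0 : ℝ) ≤ (d : ℝ) ^ 3 := by positivity
                    linarith) hc1 hcpos.le (by positivity)
              _ = c₀ / 4 := by field_simp; norm_num
          calc 4 * (d : ℝ) ^ 2 * (c * (h * N)) = 4 * (d : ℝ) ^ 2 * c * (h * N) := by ring
            _ ≤ c₀ / 4 * (h * N) := mul_le_mul_of_nonneg_right h4 (by positivity)
            _ = c₀ * (h / 4 * N) := by ring
            _ ≤ c₀ * (H * N) :=
              mul_le_mul_of_nonneg_left (mul_le_mul_of_nonneg_right hHlow hNpos.le) hc₀.le))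
      refine h2.mono le_rfl (le_of_eq ?_)
      field_simp

end Pow

end LangForms
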