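import Pool.Agent.Lib_MP_f5471b_q.Reg
import Pool.Agent.Lib_MP_f5471b_q.SepW

/-!
# MP_f5471b_nt: the power form of the strong Lang-Silverman lower bound
-/

namespace LangForms

open Height NumberField WeierstrassCurve Topology Filter

namespace Pow

/-- The exponent of the lower bound, from the pairs of points with the code bound. -/
noncomputable def dexp1 (g : ℕ) : ℝ := (2 * (g : ℝ) ^ 2 - g - 12) / (g * (4 * g + 9))

/-- The exponent of the lower bound, from the pairs of points with the third moment. -/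
noncomputable def dexp2 (g : ℕ) : ℝ := (3 * (g : ℝ) ^ 2 - 2 * g - 24) / (g * (5 * g + 14))

/-- The exponent of the lower bound. -/
noncomputable def dexp (g : ℕ) : ℝ := max (dexp1 g) (dexp2 g)

/-- The exponent of the truncation parameter for `dexp1`. -/
noncomputable def nexp1 (g : ℕ) : ℝ := ((g : ℝ) + 3) / (4 * g + 9)

/-- The exponent of the truncation parameter for `dexp2`. -/
noncomputable def nexp2 (g : ℕ) : ℝ := ((g : ℝ) + 6) / (5 * g + 14)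

theorem nexp1_pos (g : ℕ) : 0 < nexp1 g := by
  unfold nexp1; positivity

theorem nexp2_pos (g : ℕ) : 0 < nexp2 g := by
  unfold nexp2; positivity

theorem nexp1_lt (g : ℕ) : 2 * nexp1 g < 1 := by
  unfold nexp1
  rw [mul_div_assoc', div_lt_one (by positivity)]
  have : (0 : ℝ) ≤ g := Nat.cast_nonneg _
  linarith

theorem nexp2_lt (g : ℕ) : 2 * nexp2 g < 1 := by
  unfold nexp2
  rw [mul_div_assoc', div_lt_one (by positivity)]
  have : (0 : ℝ) ≤ g := Nat.cast_nonneg _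
  linarith

theorem dexp1_eq1 {g : ℕ} (hg : 1 ≤ g) : 1 - 2 * nexp1 g - 2 * nexp1 g * (2 / g) = dexp1 g := by
  have hg0 : (0 : ℝ) < g := by exact_mod_cast hg
  unfold nexp1 dexp1
  field_simp
  ring

theorem dexp1_eq2 {g : ℕ} (hg : 1 ≤ g) :
    (1 + 2 * nexp1 g) / 3 - (1 - nexp1 g) * (2 / g) = dexp1 g := by
  have hg0 : (0 : ℝ) < g := by exact_mod_cast hg
  unfold nexp1 dexp1
  field_simp
  ring

theorem dexp2_eq1 {g : ℕ} (hg : 1 ≤ g) : 1 - 2 * nexp2 g - 2 * nexp2 g * (2 / g) = dexp2 g := by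
  have hg0 : (0 : ℝ) < g := by exact_mod_cast hg
  unfold nexp2 dexp2
  field_simp
  ring

theorem dexp2_eq2 {g : ℕ} (hg : 1 ≤ g) :
    (1 + nexp2 g) / 2 - (1 - nexp2 g) * (3 / 2) * (2 / g) = dexp2 g := by
  have hg0 : (0 : ℝ) < g := by exact_mod_cast hg
  unfold nexp2 dexp2
  field_simp
  ring

theorem dexp_le {g : ℕ} (hg : 1 ≤ g) : dexp g ≤ 1 := by
  have hg0 : (0 : ℝ) < g := by exact_mod_cast hg
  refine max_le ?_ ?_
  · unfold dexp1
    rw [div_le_one (by positivity)]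
    nlinarith
  · unfold dexp2
    rw [div_le_one (by positivity)]
    nlinarith

/-- For every curve there is a pair `m, b` with `Sp m b` and `m`, `b` of the right size. -/
theorem sep_pow_gen (K : Type) [Field K] [NumberField K] (g : ℕ) (hg : 1 ≤ g) (D : ℕ) (hD : 1 ≤ D)
    (σ ν e : ℝ) (hν0 : 0 < ν) (hν1 : 2 * ν < 1) (he1 : 1 - 2 * ν - 2 * ν * (2 / g) = e)
    (he2 : (1 + 2 * ν) / 3 - (1 - ν) * (2 / g) = e ∨
      (1 + ν) / 2 - (1 - ν) * (3 / 2) * (2 / g) = e) :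
    ∃ C c : ℝ, 1 ≤ C ∧ 0 < c ∧ ∀ (W : WeierstrassCurve K) [W.IsElliptic],
    hW W ≤ σ * (1 + hJ W) →
    ∀ (F : Type) [Field F] [NumberField F] [DecidableEq F] [Algebra K F],
      Module.finrank K F ≤ D → ∃ m b : ℝ, 1 ≤ m ∧ m ≤ C * (1 + hJ W) ^ 2 ∧ 0 < b ∧
        Sp (nt (W := W.baseChange F)) m b ∧
        c * (1 + hJ W) ^ e * m ^ (2 / g : ℝ) ≤ b := by
  have hg0 : (0 : ℝ) < g := by exact_mod_cast hg
  have hele : e ≤ 1 := by
    rw [← he1]
    have : 0 ≤ 2 * ν * (2 / g) := by positivity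
    linarith
  obtain ⟨C', hC', hsep⟩ := sep_W K D hD σ
  obtain ⟨h₁, hh₁⟩ : ∃ h₁ : ℝ, h₁ = C' ^ (1 / (1 - 2 * ν)) := ⟨_, rfl⟩
  have hh₁1 : 1 ≤ h₁ := by
    rw [hh₁]; exact Real.one_le_rpow hC' (by apply div_nonneg; norm_num; linarith)
  obtain ⟨C, c, hC, hc, hmain⟩ := hsep h₁
  have hC0 : 0 < C := by linarith
  have hCg : 0 < C ^ (2 / g : ℝ) := by positivity
  obtain ⟨a, ha⟩ : ∃ a : ℝ, a = min c (min (c ^ (1 / 3 : ℝ)) (c ^ (1 / 2 : ℝ))) := ⟨_, rfl⟩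
  have ha0 : 0 < a := by rw [ha]; positivity
  have hmin1 : a ≤ c := by rw [ha]; exact min_le_left _ _
  have hmin2 : a ≤ c ^ (1 / 3 : ℝ) := by
    rw [ha]; exact (min_le_right _ _).trans (min_le_left _ _)
  have hmin3 : a ≤ c ^ (1 / 2 : ℝ) := by
    rw [ha]; exact (min_le_right _ _).trans (min_le_right _ _)
  refine ⟨C, a / C ^ (2 / g : ℝ), hC, by positivity, ?_⟩
  intro W _ hWh F _ _ _ _ hF
  obtain ⟨hb, hN⟩ := hmain W hWh F hF
  have hjn := hJ_nonneg W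
  obtain ⟨h, hh⟩ : ∃ h : ℝ, h = 1 + hJ W := ⟨_, rfl⟩
  rw [← hh] at hb hN ⊢
  have hh1 : 1 ≤ h := by rw [hh]; linarith
  have hh0 : 0 < h := by linarith
  have hhh2 : h ≤ h ^ 2 := by nlinarith
  -- first alternative
  have halt1 : Sp (nt (W := W.baseChange F)) C (c * h) →
      ∃ m b : ℝ, 1 ≤ m ∧ m ≤ C * h ^ 2 ∧ 0 < b ∧ Sp (nt (W := W.baseChange F)) m b ∧
        a / C ^ (2 / g : ℝ) * h ^ e * m ^ (2 / g : ℝ) ≤ b := by
    intro hs
    refine ⟨C, c * h, hC, by nlinarith, by positivity, hs, ?_⟩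
    have h2 : h ^ e ≤ h := by
      calc h ^ e ≤ h ^ (1 : ℝ) := Real.rpow_le_rpow_of_exponent_le hh1 hele
        _ = h := Real.rpow_one h
    calc a / C ^ (2 / g : ℝ) * h ^ e * C ^ (2 / g : ℝ) =
          a * h ^ e := by field_simp
      _ ≤ c * h := mul_le_mul hmin1 h2 (by positivity) hc.le
  by_cases hsmall : hJ W ≤ h₁
  · exact halt1 (hb hsmall)
  push Not at hsmall
  have hhh₁ : h₁ ≤ h := by rw [hh]; linarith
  obtain ⟨N, hNd⟩ : ∃ N : ℝ, N = h ^ ν := ⟨_, rfl⟩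
  have hN1 : 1 ≤ N := by rw [hNd]; exact Real.one_le_rpow hh1 hν0.le
  have hN0 : 0 < N := by linarith
  have hN2 : N ^ 2 = h ^ (2 * ν) := by
    rw [hNd, ← Real.rpow_natCast, ← Real.rpow_mul hh0.le]
    congr 1
    push_cast
    ring
  have hN2h : N ^ 2 ≤ h := by
    rw [hN2]
    calc h ^ (2 * ν) ≤ h ^ (1 : ℝ) := Real.rpow_le_rpow_of_exponent_le hh1 hν1.le
      _ = h := Real.rpow_one h
  have hcond : C' * N ^ 2 ≤ h := by
    have h1 : C' ≤ h ^ (1 - 2 * ν) := by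
      have h2 : h₁ ^ (1 - 2 * ν) = C' := by
        rw [hh₁, ← Real.rpow_mul (by linarith), one_div_mul_cancel (by linarith), Real.rpow_one]
      calc C' = h₁ ^ (1 - 2 * ν) := h2.symm
        _ ≤ h ^ (1 - 2 * ν) := Real.rpow_le_rpow (by linarith) hhh₁ (by linarith)
    calc C' * N ^ 2 ≤ h ^ (1 - 2 * ν) * h ^ (2 * ν) := by
          rw [hN2]
          exact mul_le_mul_of_nonneg_right h1 (by positivity)
      _ = h := by
        rw [← Real.rpow_add hh0]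
        simp
  have e0 : h / N = h ^ (1 - ν) := by
    rw [hNd, Real.rpow_sub hh0, Real.rpow_one]
  have hhN : 1 ≤ h / N := by
    rw [le_div_iff₀ hN0, one_mul]
    nlinarith
  rcases hN N hN1 hcond with hs | hs | hs
  · exact halt1 hs
  · refine ⟨C * N ^ 2, c * (h / N ^ 2), ?_,
      mul_le_mul_of_nonneg_left (hN2h.trans hhh2) hC0.le, by positivity, hs, ?_⟩
    · have : 1 ≤ N ^ 2 := one_le_pow₀ hN1
      nlinarith
    · rw [Real.mul_rpow hC0.le (by positivity), hN2]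
      have e1 : (h ^ (2 * ν)) ^ (2 / g : ℝ) = h ^ (2 * ν * (2 / g)) :=
        (Real.rpow_mul hh0.le _ _).symm
      have e2 : h / h ^ (2 * ν) = h ^ (1 - 2 * ν) := by
        rw [Real.rpow_sub hh0, Real.rpow_one]
      rw [e1, e2]
      have e3 : h ^ e * h ^ (2 * ν * (2 / g)) = h ^ (1 - 2 * ν) := by
        rw [← Real.rpow_add hh0, ← he1]
        congr 1
        ring
      calc a / C ^ (2 / g : ℝ) * h ^ e * (C ^ (2 / g : ℝ) * h ^ (2 * ν * (2 / g))) =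
            a * (h ^ e * h ^ (2 * ν * (2 / g))) := by
              field_simp
        _ = a * h ^ (1 - 2 * ν) := by rw [e3]
        _ ≤ _ := mul_le_mul_of_nonneg_right hmin1 (by positivity)
  · rcases he2 with he2 | he2
    · have hsp := hs.1 (c ^ (1 / 3 : ℝ) * h ^ ((1 + 2 * ν) / 3)) (by positivity) (by
        rw [mul_pow, ← Real.rpow_natCast, ← Real.rpow_mul hc.le, ← Real.rpow_natCast,
          ← Real.rpow_mul hh0.le, hN2]
        have a1 : (1 / 3 : ℝ) * ((3 : ℕ) : ℝ) = 1 := by norm_num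
        have a2 : (1 + 2 * ν) / 3 * ((3 : ℕ) : ℝ) = 1 + 2 * ν := by push_cast; ring
        rw [a1, a2, Real.rpow_one, Real.rpow_add hh0, Real.rpow_one])
      refine ⟨C * (h / N), _, ?_, ?_, by positivity, hsp, ?_⟩
      · nlinarith
      · refine mul_le_mul_of_nonneg_left ?_ hC0.le
        exact (div_le_self hh0.le hN1).trans hhh2
      · rw [Real.mul_rpow hC0.le (by positivity), e0]
        have e1 : (h ^ (1 - ν)) ^ (2 / g : ℝ) = h ^ ((1 - ν) * (2 / g)) :=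
          (Real.rpow_mul hh0.le _ _).symm
        rw [e1]
        have e3 : h ^ e * h ^ ((1 - ν) * (2 / g)) = h ^ ((1 + 2 * ν) / 3) := by
          rw [← Real.rpow_add hh0, ← he2]
          congr 1
          ring
        calc a / C ^ (2 / g : ℝ) * h ^ e * (C ^ (2 / g : ℝ) * h ^ ((1 - ν) * (2 / g))) =
              a * (h ^ e * h ^ ((1 - ν) * (2 / g))) := by
                field_simp
          _ = a * h ^ ((1 + 2 * ν) / 3) := by rw [e3]
          _ ≤ _ := mul_le_mul_of_nonneg_right hmin2 (by positivity)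
    · have hm2 : (h ^ ((1 - ν) * (3 / 2))) ^ 2 = (h / N) ^ 3 := by
        rw [e0, ← Real.rpow_natCast, ← Real.rpow_mul hh0.le, ← Real.rpow_natCast,
          ← Real.rpow_mul hh0.le]
        congr 1
        push_cast
        ring
      have hsp := hs.2 (C * h ^ ((1 - ν) * (3 / 2))) (c ^ (1 / 2 : ℝ) * h ^ ((1 + ν) / 2))
        (by positivity) (by positivity)
        (by
          rw [mul_pow, hm2]
          refine mul_le_mul_of_nonneg_right ?_ (by positivity)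
          nlinarith)
        (by
          rw [mul_pow, ← Real.rpow_natCast, ← Real.rpow_mul hc.le, ← Real.rpow_natCast,
            ← Real.rpow_mul hh0.le, hNd]
          have a1 : (1 / 2 : ℝ) * ((2 : ℕ) : ℝ) = 1 := by norm_num
          have a2 : (1 + ν) / 2 * ((2 : ℕ) : ℝ) = 1 + ν := by push_cast; ring
          rw [a1, a2, Real.rpow_one, Real.rpow_add hh0, Real.rpow_one])
      refine ⟨C * h ^ ((1 - ν) * (3 / 2)), _, ?_, ?_, by positivity, hsp, ?_⟩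
      · have h2 : 1 ≤ h ^ ((1 - ν) * (3 / 2)) := Real.one_le_rpow hh1 (by nlinarith)
        nlinarith
      · refine mul_le_mul_of_nonneg_left ?_ hC0.le
        calc h ^ ((1 - ν) * (3 / 2)) ≤ h ^ (2 : ℝ) :=
              Real.rpow_le_rpow_of_exponent_le hh1 (by linarith)
          _ = h ^ 2 := by norm_cast
      · rw [Real.mul_rpow hC0.le (by positivity)]
        have e1 : (h ^ ((1 - ν) * (3 / 2))) ^ (2 / g : ℝ) =
            h ^ ((1 - ν) * (3 / 2) * (2 / g)) := (Real.rpow_mul hh0.le _ _).symm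
        rw [e1]
        have e3 : h ^ e * h ^ ((1 - ν) * (3 / 2) * (2 / g)) = h ^ ((1 + ν) / 2) := by
          rw [← Real.rpow_add hh0, ← he2]
          congr 1
          ring
        calc a / C ^ (2 / g : ℝ) * h ^ e * (C ^ (2 / g : ℝ) * h ^ ((1 - ν) * (3 / 2) * (2 / g))) =
              a * (h ^ e * h ^ ((1 - ν) * (3 / 2) * (2 / g))) := by
                field_simp
          _ = a * h ^ ((1 + ν) / 2) := by rw [e3]
          _ ≤ _ := mul_le_mul_of_nonneg_right hmin3 (by positivity)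

/-- For every curve there is a pair `m, b` with `Sp m b` and `m`, `b` of the right size. -/
theorem sep_pow (K : Type) [Field K] [NumberField K] (g : ℕ) (hg : 1 ≤ g) (D : ℕ) (hD : 1 ≤ D)
    (σ : ℝ) : ∃ C c : ℝ, 1 ≤ C ∧ 0 < c ∧ ∀ (W : WeierstrassCurve K) [W.IsElliptic],
    hW W ≤ σ * (1 + hJ W) →
    ∀ (F : Type) [Field F] [NumberField F] [DecidableEq F] [Algebra K F],
      Module.finrank K F ≤ D → ∃ m b : ℝ, 1 ≤ m ∧ m ≤ C * (1 + hJ W) ^ 2 ∧ 0 < b ∧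
        Sp (nt (W := W.baseChange F)) m b ∧
        c * (1 + hJ W) ^ dexp g * m ^ (2 / g : ℝ) ≤ b := by
  rcases max_choice (dexp1 g) (dexp2 g) with h | h
  · exact sep_pow_gen K g hg D hD σ (nexp1 g) (dexp g) (nexp1_pos g) (nexp1_lt g)
      (by rw [dexp, h]; exact dexp1_eq1 hg) (Or.inl (by rw [dexp, h]; exact dexp1_eq2 hg))
  · exact sep_pow_gen K g hg D hD σ (nexp2 g) (dexp g) (nexp2_pos g) (nexp2_lt g)
      (by rw [dexp, h]; exact dexp2_eq1 hg) (Or.inr (by rw [dexp, h]; exact dexp2_eq2 hg))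

/-- An obstructed point has dependent coordinates. -/
theorem obstructed_not_li {G : Type} [Group G] {X : Type} [AddCommGroup X] {g : ℕ}
    {ρ : G →* Matrix.GeneralLinearGroup (Fin g) ℤ} {M : Matrix (Fin g) (Fin g) ℤ}
    {P : Fin g → X} {c : ℝ} (h : Obstructed ρ M P c) : ¬ LinearIndependent ℤ P := by
  obtain ⟨Λ, hΛ, hsat, _, _, n, hn1, _, hmem⟩ := h
  intro hli
  haveI : Module.IsTorsionFree ℤ ((Fin g → ℤ) ⧸ Λ) := by
    constructor
    intro r hr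
    have hr0 : r ≠ 0 := hr.ne_zero
    intro x y hxy
    obtain ⟨x, rfl⟩ := Submodule.Quotient.mk_surjective Λ x
    obtain ⟨y, rfl⟩ := Submodule.Quotient.mk_surjective Λ y
    simp only at hxy
    rw [← Submodule.Quotient.mk_smul, ← Submodule.Quotient.mk_smul, Submodule.Quotient.eq,
      ← smul_sub] at hxy
    exact (Submodule.Quotient.eq Λ).2 (hsat r _ hr0 hxy)
  haveI : Module.Free ℤ ((Fin g → ℤ) ⧸ Λ) := inferInstance
  obtain ⟨v, hv⟩ : ∃ v : Fin g → ℤ, v ∉ Λ := by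
    by_contra hcon
    push Not at hcon
    exact hΛ (Submodule.eq_top_iff'.2 hcon)
  have hv0 : (Submodule.Quotient.mk v : (Fin g → ℤ) ⧸ Λ) ≠ 0 := by
    intro h0
    exact hv ((Submodule.Quotient.mk_eq_zero Λ).1 h0)
  obtain ⟨i, hi⟩ : ∃ i, (Module.Free.chooseBasis ℤ ((Fin g → ℤ) ⧸ Λ)).repr
      (Submodule.Quotient.mk v) i ≠ 0 := by
    by_contra hcon
    push Not at hcon
    apply hv0
    apply (Module.Free.chooseBasis ℤ ((Fin g → ℤ) ⧸ Λ)).repr.injective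
    ext j
    rw [hcon j, map_zero]
    rfl
  let φ : (Fin g → ℤ) →ₗ[ℤ] ℤ :=
    ((Module.Free.chooseBasis ℤ ((Fin g → ℤ) ⧸ Λ)).coord i).comp Λ.mkQ
  obtain ⟨ψ, hψ⟩ : ∃ ψ : Fin g → ℤ, ψ = fun a => φ (Pi.single a 1) := ⟨_, rfl⟩
  have hφ : ∀ w : Fin g → ℤ, φ w = ∑ a, w a * ψ a := by
    intro w
    conv_lhs => rw [pi_eq_sum_univ' w]
    rw [map_sum]
    refine Finset.sum_congr rfl fun a _ => ?_
    rw [map_smul, smul_eq_mul, hψ]
  have hψ0 : ψ ≠ 0 := by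
    intro h0
    apply hi
    have h1 := hφ v
    rw [h0] at h1
    have h2 : φ v = 0 := by rw [h1]; simp
    exact h2
  have hψΛ : ∀ w ∈ Λ, ∑ a, w a * ψ a = 0 := by
    intro w hw
    rw [← hφ]
    have : Λ.mkQ w = 0 := (Submodule.Quotient.mk_eq_zero Λ).2 hw
    change (Module.Free.chooseBasis ℤ ((Fin g → ℤ) ⧸ Λ)).coord i (Λ.mkQ w) = 0
    rw [this, map_zero]
  -- the character vanishes on the subgroup
  have hsub : ∀ Q ∈ subPts (X := X) Λ, Phi Q ψ = 0 := by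
    intro Q hQ
    induction hQ using AddSubgroup.closure_induction with
    | mem x hx =>
      obtain ⟨w, hw, R, rfl⟩ := hx
      have h1 : Phi (fun a => w a • R) ψ = (∑ a, w a * ψ a) • R := by
        simp only [Phi, Finset.sum_smul]
        refine Finset.sum_congr rfl fun a _ => ?_
        rw [← mul_smul, mul_comm]
      rw [h1, hψΛ w hw, zero_smul]
    | zero => simp [Phi]
    | add x y _ _ hx hy =>
      have : Phi (x + y) ψ = Phi x ψ + Phi y ψ := by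
        simp [Phi, smul_add, Finset.sum_add_distrib]
      rw [this, hx, hy, add_zero]
    | neg x _ hx =>
      have : Phi (-x) ψ = -Phi x ψ := by
        simp [Phi, smul_neg, Finset.sum_neg_distrib]
      rw [this, hx, neg_zero]
  have h2 := hsub _ hmem
  rw [Phi_nsmul] at h2
  have h3 : Phi P ((n : ℤ) • ψ) = 0 := by
    rw [Phi_smul, natCast_zsmul]
    exact h2
  have h4 := Fintype.linearIndependent_iff.1 hli ((n : ℤ) • ψ) h3
  apply hψ0
  funext a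
  have h5 := h4 a
  simp only [Pi.smul_apply, smul_eq_mul, mul_eq_zero] at h5
  rcases h5 with h5 | h5
  · omega
  · exact h5

/-- Combination of the lower bounds in terms of `h` and `R`. -/
theorem comb (δ c₀ e A : ℝ) (hδ : δ ≤ 1) (hc₀ : 0 < c₀) (he : 0 < e) (hA : 1 ≤ A) :
    ∃ c₁ : ℝ, 0 < c₁ ∧ c₁ ≤ c₀ ∧ ∀ h R L : ℝ, 1 ≤ h → 0 ≤ R → c₀ * h ^ δ ≤ L →
      (A * h ≤ R → e * R ≤ L) → c₁ * (h + R) ^ δ ≤ L := by
  have hA0 : 0 < A := by linarith
  refine ⟨min (c₀ / (2 * A)) (min c₀ (e / 2)), lt_min (by positivity)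
    (lt_min hc₀ (by positivity)), (min_le_right _ _).trans (min_le_left _ _), ?_⟩
  obtain ⟨c₁, hc₁⟩ : ∃ c₁ : ℝ, c₁ = min (c₀ / (2 * A)) (min c₀ (e / 2)) := ⟨_, rfl⟩
  have hc₁a : c₁ ≤ c₀ / (2 * A) := by rw [hc₁]; exact min_le_left _ _
  have hc₁b : c₁ ≤ c₀ := by rw [hc₁]; exact (min_le_right _ _).trans (min_le_left _ _)
  have hc₁c : c₁ ≤ e / 2 := by rw [hc₁]; exact (min_le_right _ _).trans (min_le_right _ _)
  rw [← hc₁]
  intro h R L hh1 hR0 hlow hbig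
  have hh0 : 0 < h := by linarith
  have hhR : 1 ≤ h + R := by linarith
  rcases le_total δ 0 with hδ0 | hδ0
  · -- negative exponent
    have h5 : (h + R) ^ δ ≤ h ^ δ := Real.rpow_le_rpow_of_nonpos hh0 (by linarith) hδ0
    calc c₁ * (h + R) ^ δ ≤ c₀ * h ^ δ := mul_le_mul hc₁b h5 (by positivity) hc₀.le
      _ ≤ L := hlow
  · rcases le_total R (A * h) with hRA | hRA
    · have h5 : (h + R) ^ δ ≤ (2 * A * h) ^ δ := by
        refine Real.rpow_le_rpow (by linarith) ?_ hδ0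
        nlinarith
      have h6 : (2 * A * h) ^ δ ≤ 2 * A * h ^ δ := by
        rw [Real.mul_rpow (by positivity) hh0.le]
        refine mul_le_mul_of_nonneg_right ?_ (by positivity)
        calc (2 * A) ^ δ ≤ (2 * A) ^ (1 : ℝ) :=
              Real.rpow_le_rpow_of_exponent_le (by linarith) hδ
          _ = 2 * A := Real.rpow_one _
      calc c₁ * (h + R) ^ δ ≤ c₀ / (2 * A) * (2 * A * h ^ δ) :=
            mul_le_mul hc₁a (h5.trans h6) (by positivity) (by positivity)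
        _ = c₀ * h ^ δ := by field_simp
        _ ≤ L := hlow
    · -- large `R`
      have h5 : (h + R) ^ δ ≤ h + R := by
        calc (h + R) ^ δ ≤ (h + R) ^ (1 : ℝ) :=
              Real.rpow_le_rpow_of_exponent_le hhR hδ
          _ = h + R := Real.rpow_one _
      have h10 : h ≤ R := by nlinarith
      calc c₁ * (h + R) ^ δ ≤ e / 2 * (h + R) :=
            mul_le_mul hc₁c h5 (by positivity) (by positivity)
        _ ≤ e / 2 * (2 * R) := mul_le_mul_of_nonneg_left (by linarith) (by positivity)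
        _ = e * R := by ring
        _ ≤ L := hbig hRA

/-- Comparison of `R` with the height of the equation. -/
theorem big_R (e₁ e₂ σ₁ : ℝ) (he₁ : 0 < e₁) (he₂ : 0 < e₂) (hσ₁ : 0 ≤ σ₁) :
    ∃ A : ℝ, 1 ≤ A ∧ ∀ h R L w : ℝ, 1 ≤ h → w ≤ σ₁ * h → e₁ * R ≤ L + e₂ * (1 + w) →
      A * h ≤ R → e₁ / 2 * R ≤ L := by
  refine ⟨1 + 2 * e₂ * (1 + σ₁) / e₁, ?_, ?_⟩
  · have : 0 ≤ 2 * e₂ * (1 + σ₁) / e₁ := by positivity
    linarith
  intro h R L w hh hw h4 hRA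
  have h6 : 1 + w ≤ (1 + σ₁) * h := by linarith
  have h7 : e₂ * (1 + w) ≤ e₂ * ((1 + σ₁) * h) := mul_le_mul_of_nonneg_left h6 he₂.le
  have h8 : e₂ * ((1 + σ₁) * h) ≤ e₁ / 2 * R := by
    have h9 : 2 * e₂ * (1 + σ₁) / e₁ * h ≤ R := by linarith
    have h10 := mul_le_mul_of_nonneg_left h9 (by positivity : 0 ≤ e₁ / 2)
    refine le_trans (le_of_eq ?_) h10
    field_simp
  linarith

theorem power_form (K : Type) [Field K] [NumberField K] (g : ℕ) (hg : 1 ≤ g) (σ : ℝ) :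
    ∃ c₁ c₂ : ℝ, ∃ k : ℕ, 0 < c₁ ∧ 0 < c₂ ∧ ∀ (W : WeierstrassCurve K) [W.IsElliptic],
    hW W ≤ σ * (1 + hJ W) →
    ∀ (F : Type) [Field F] [NumberField F] [DecidableEq F] [Algebra K F] [IsGalois K F]
    (ρ : (F ≃ₐ[K] F) →* Matrix.GeneralLinearGroup (Fin g) ℤ), Function.Injective ρ →
    ∀ (M : Matrix (Fin g) (Fin g) ℤ), IsPol M →
    (∀ σ, (ρ σ).val.transpose * M * (ρ σ).val = M) →
    ∀ (P : Fin g → (W.baseChange F).toAffine.Point),
    (∀ σ a, ∑ b, (ρ σ).val a b • gal σ (P b) = P a) →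
    (Obstructed ρ M P (c₂ * (1 + hJ W) ^ k) ∧ ¬ LinearIndependent ℤ P) ∨
      ((∀ n : ℕ, 1 ≤ n → n • P ≠ 0) ∧
      c₁ * ((M.det : ℤ) : ℝ) ^ (1 / g : ℝ) * (1 + hJ W) ^ dexp g ≤ ntL M P ∧
      ∀ S : Finset (Ideal (𝓞 K)),
        (∀ p ∈ S, p.IsMaximal ∧ p ≠ ⊥ ∧ ¬ Algebra.IsUnramifiedIn (𝓞 F) p) →
        c₁ * (1 + hJ W + (∑ p ∈ S, Real.log (Ideal.absNorm p)) / Module.finrank ℚ K) ^ dexp g ≤
          ntL M P) := by
  classical
  obtain ⟨e₁, e₂, he₁, he₂, hT2⟩ := uniform_lower_bound K g hg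
  obtain ⟨D₀, hD₀⟩ : ∃ D₀ : ℕ, D₀ = 3 ^ (g ^ 2) := ⟨_, rfl⟩
  have hD₀1 : 1 ≤ D₀ := by rw [hD₀]; exact Nat.one_le_iff_ne_zero.2 (by positivity)
  obtain ⟨C₁, hC₁, hlat⟩ := lat_step g D₀ hg
  obtain ⟨C₂, c₂, hC₂, hc₂, hsep⟩ := sep_pow K g hg D₀ hD₀1 σ
  obtain ⟨σ₁, hσ₁⟩ : ∃ σ₁, σ₁ = max σ 1 := ⟨_, rfl⟩
  have hσ1 : 1 ≤ σ₁ := by rw [hσ₁]; exact le_max_right _ _
  have hσσ : σ ≤ σ₁ := by rw [hσ₁]; exact le_max_left _ _
  obtain ⟨A, hA1, hA⟩ := big_R e₁ e₂ σ₁ he₁ he₂ (by linarith)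
  obtain ⟨c₀, hc₀⟩ : ∃ c₀ : ℝ, c₀ = c₂ / C₁ := ⟨_, rfl⟩
  have hc₀0 : 0 < c₀ := by rw [hc₀]; positivity
  obtain ⟨c₁, hc₁0, hc₁c, hcomb⟩ := comb (dexp g) c₀ (e₁ / 2) A (dexp_le hg) hc₀0
    (by positivity) hA1
  refine ⟨c₁, max e₂ (C₁ * C₂ ^ (2 * D₀ + 1)), 2 * (2 * D₀ + 1), hc₁0,
    lt_of_lt_of_le he₂ (le_max_left _ _), ?_⟩
  intro W _ hWh F _ _ _ _ _ ρ hρ M hM hinv P hP
  have hJn := hJ_nonneg W
  obtain ⟨h, hh⟩ : ∃ h : ℝ, h = 1 + hJ W := ⟨_, rfl⟩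
  have hh1 : 1 ≤ h := by rw [hh]; linarith
  have hh0 : 0 < h := by linarith
  by_cases hob : Obstructed ρ M P
      (max e₂ (C₁ * C₂ ^ (2 * D₀ + 1)) * (1 + hJ W) ^ (2 * (2 * D₀ + 1)))
  · exact Or.inl ⟨hob, obstructed_not_li hob⟩
  right
  have hcard : Nat.card (F ≃ₐ[K] F) ≤ D₀ := by
    rw [hD₀]; exact card_le_of_injective ρ hρ
  have hcardF : Nat.card (F ≃ₐ[K] F) = Module.finrank K F := IsGalois.card_aut_eq_finrank K F
  obtain ⟨m, b, hm1, hm2, hb, hSp, hmb⟩ := hsep W hWh F (by rw [← hcardF]; exact hcard)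
  rw [← hh] at hm2 hmb hob
  have hk1 : (1 : ℝ) ≤ h ^ (2 * (2 * D₀ + 1)) := one_le_pow₀ hh1
  rcases hlat (F ≃ₐ[K] F) hcard _ gal ρ M hM hinv P hP nt nt_par nt_nonneg m b hm1 hb hSp with
    ⟨h1, _⟩ | ⟨h1, h2⟩
  · exfalso
    apply hob
    refine h1.mono hM ?_
    have h3 : m ^ (2 * D₀ + 1) ≤ (C₂ * h ^ 2) ^ (2 * D₀ + 1) :=
      pow_le_pow_left₀ (by linarith) hm2 _
    calc C₁ * m ^ (2 * D₀ + 1) ≤ C₁ * (C₂ * h ^ 2) ^ (2 * D₀ + 1) :=
          mul_le_mul_of_nonneg_left h3 (by linarith)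
      _ = C₁ * C₂ ^ (2 * D₀ + 1) * h ^ (2 * (2 * D₀ + 1)) := by
        rw [mul_pow, ← pow_mul]; ring
      _ ≤ _ := mul_le_mul_of_nonneg_right (le_max_right _ _) (by positivity)
  refine ⟨h1, ?_⟩
  obtain ⟨L, hL⟩ : ∃ L : ℝ, L = ntL M P := ⟨_, rfl⟩
  have hLe : (∑ a, ∑ b, (M a b : ℝ) * pairX nt (P a) (P b)) = L := by rw [hL]; rfl
  rw [hLe] at h2
  obtain ⟨w, hw⟩ : ∃ w : ℝ, w = ((M.det : ℤ) : ℝ) ^ (1 / g : ℝ) := ⟨_, rfl⟩
  have hw1 : 1 ≤ w := by
    rw [hw]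
    exact Real.one_le_rpow (by exact_mod_cast det_ge_one M hM) (by positivity)
  rw [← hw] at h2
  have hloww : c₀ * (w * h ^ dexp g) ≤ L := by
    have hmp : 0 < m ^ (2 / g : ℝ) := by positivity
    have h3 : c₂ * (w * h ^ dexp g) * m ^ (2 / g : ℝ) ≤ C₁ * L * m ^ (2 / g : ℝ) := by
      calc c₂ * (w * h ^ dexp g) * m ^ (2 / g : ℝ) =
            w * (c₂ * h ^ dexp g * m ^ (2 / g : ℝ)) := by ring
        _ ≤ w * b := mul_le_mul_of_nonneg_left hmb (by linarith)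
        _ ≤ C₁ * m ^ (2 / g : ℝ) * L := h2
        _ = _ := by ring
    have h4 := le_of_mul_le_mul_right h3 hmp
    rw [hc₀, div_mul_eq_mul_div, div_le_iff₀ (by linarith)]
    linarith
  have hhd : 0 < h ^ dexp g := by positivity
  have hlow : c₀ * h ^ dexp g ≤ L := by
    refine le_trans (mul_le_mul_of_nonneg_left ?_ hc₀0.le) hloww
    exact le_mul_of_one_le_left hhd.le hw1
  rw [← hL, ← hh, ← hw]
  refine ⟨?_, ?_⟩
  · calc c₁ * w * h ^ dexp g = c₁ * (w * h ^ dexp g) := by ring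
      _ ≤ c₀ * (w * h ^ dexp g) := mul_le_mul_of_nonneg_right hc₁c (by positivity)
      _ ≤ L := hloww
  intro S hS
  obtain ⟨R, hR⟩ : ∃ R : ℝ, R = (∑ p ∈ S, Real.log (Ideal.absNorm p)) / Module.finrank ℚ K :=
    ⟨_, rfl⟩
  have hR0 : 0 ≤ R := by
    rw [hR]
    refine div_nonneg (Finset.sum_nonneg fun p hp => ?_) (Nat.cast_nonneg _)
    exact Real.log_natCast_nonneg _
  rcases hT2 W F ρ hρ M hM hinv P hP with h3 | h3
  · exfalso
    apply hob
    refine h3.mono hM ?_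
    calc e₂ ≤ max e₂ (C₁ * C₂ ^ (2 * D₀ + 1)) := le_max_left _ _
      _ = max e₂ (C₁ * C₂ ^ (2 * D₀ + 1)) * 1 := (mul_one _).symm
      _ ≤ _ := mul_le_mul_of_nonneg_left hk1 (he₂.le.trans (le_max_left _ _))
  have h4 := h3 S hS
  rw [← hR, ← hL] at h4
  rw [← hR]
  refine hcomb h R L hh1 hR0 hlow fun hRA => ?_
  refine hA h R L (hW W) hh1 ?_ h4 hRA
  have h9 : hW W ≤ σ₁ * (1 + hJ W) :=
    hWh.trans (mul_le_mul_of_nonneg_right hσσ (by linarith))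
  rwa [← hh] at h9

/-- Integral invertible matrices of size one. -/
theorem gl_one (u : Matrix.GeneralLinearGroup (Fin 1) ℤ) :
    u.val.transpose * (1 : Matrix (Fin 1) (Fin 1) ℤ) * u.val = 1 := by
  have h1 : u.val * (u⁻¹).val = 1 := by
    rw [← Units.val_mul]; simp
  have h2 := congrFun (congrFun h1 0) 0
  rw [Matrix.mul_apply] at h2
  simp only [Finset.univ_unique, Fin.default_eq_zero, Fin.isValue, Finset.sum_singleton,
    Matrix.one_apply_eq] at h2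
  ext i j
  rw [Subsingleton.elim i 0, Subsingleton.elim j 0, Matrix.mul_one, Matrix.mul_apply]
  simp only [Finset.univ_unique, Fin.default_eq_zero, Fin.isValue, Finset.sum_singleton,
    Matrix.transpose_apply, Matrix.one_apply_eq]
  rcases Int.eq_one_or_neg_one_of_mul_eq_one h2 with h | h <;> rw [h] <;> norm_num

theorem isPol_one : IsPol (1 : Matrix (Fin 1) (Fin 1) ℤ) := by
  refine ⟨Matrix.isSymm_one, fun v hv => ?_⟩
  rw [Matrix.one_mulVec]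
  have h0 : v 0 ≠ 0 := by
    intro h
    apply hv
    funext i
    rw [Subsingleton.elim i 0, h]
    rfl
  simp only [dotProduct, Finset.univ_unique, Fin.default_eq_zero, Fin.isValue,
    Finset.sum_singleton]
  exact mul_self_pos.2 h0

/-- A nontrivial combination of independent points is not a torsion point. -/
theorem li_phi {g : ℕ} {X : Type} [AddCommGroup X] {Q : Fin g → X} (hQ : LinearIndependent ℤ Q)
    {ℓ : Fin g → ℤ} (hℓ : ℓ ≠ 0) : LinearIndependent ℤ fun _ : Fin 1 => Phi Q ℓ := by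
  rw [Fintype.linearIndependent_iff]
  intro n hn i
  simp only [Finset.univ_unique, Fin.default_eq_zero, Fin.isValue, Finset.sum_singleton] at hn
  rw [← Phi_smul] at hn
  have h1 := Fintype.linearIndependent_iff.1 hQ (n 0 • ℓ) hn
  obtain ⟨a, ha⟩ := Function.ne_iff.1 hℓ
  have h2 := h1 a
  rw [Pi.smul_apply, smul_eq_mul] at h2
  rw [Subsingleton.elim i 0]
  exact (mul_eq_zero.1 h2).resolve_right ha

/-- The points which satisfy the cocycle condition form a group. -/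
theorem kp_phi {G X : Type} [Group G] [AddCommGroup X] {g : ℕ}
    (ρ : G →* Matrix.GeneralLinearGroup (Fin 1) ℤ) (act : G → X →+ X) (Q : Fin g → X)
    (hK : ∀ i s (a : Fin 1), ∑ b, (ρ s).val a b • act s (Q i) = Q i) (ℓ : Fin g → ℤ) (s : G)
    (a : Fin 1) : ∑ b, (ρ s).val a b • act s (Phi Q ℓ) = Phi Q ℓ := by
  have h1 : ∀ i, (ρ s).val a 0 • act s (Q i) = Q i := by
    intro i
    have h2 := hK i s a
    simpa using h2
  simp only [Finset.univ_unique, Fin.default_eq_zero, Fin.isValue, Finset.sum_singleton]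
  simp only [Phi, map_sum, map_zsmul, Finset.smul_sum]
  refine Finset.sum_congr rfl fun i _ => ?_
  rw [smul_comm, h1]

theorem ntL_one {F : Type} [Field F] [NumberField F] [DecidableEq F] {W : WeierstrassCurve F}
    [W.IsElliptic] (x : W.toAffine.Point) :
    ntL (1 : Matrix (Fin 1) (Fin 1) ℤ) (fun _ => x) = nt x := by
  have h1 : pairX nt x x = nt x := psd_pairX_self nt_par x
  simp only [ntL, Finset.univ_unique, Fin.default_eq_zero, Fin.isValue,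
    Finset.sum_singleton, Matrix.one_apply_eq]
  rw [h1, Int.cast_one, one_mul]

/-- The lower bound for the Gram determinant in an abstract group. -/
theorem reg_abs {g : ℕ} (hg : 1 ≤ g) {X : Type} [AddCommGroup X] (q : X → ℝ)
    (hpar : ∀ P Q, q (P + Q) + q (P - Q) = 2 * q P + 2 * q Q) (hq : ∀ P, 0 ≤ q P)
    (Q : Fin g → X) (hQ : LinearIndependent ℤ Q) (c₁ c₂ e A B h R m b δ : ℝ)
    (hB : B = 256 * g * 2 ^ (2 / g : ℝ)) (hc₁ : 0 < c₁)
    (hcomb : ∀ h R L : ℝ, 1 ≤ h → 0 ≤ R → c₂ / (256 * g) * h ^ δ ≤ L →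
      (A * h ≤ R → e / B * R ≤ L) → c₁ * (h + R) ^ δ ≤ L)
    (hh1 : 1 ≤ h) (hR0 : 0 ≤ R) (hm1 : 1 ≤ m) (hSp : Sp q m b)
    (hmb : c₂ * h ^ δ * m ^ (2 / g : ℝ) ≤ b)
    (hpt : A * h ≤ R → ∀ ℓ : Fin g → ℤ, ℓ ≠ 0 → e * R ≤ q (Phi Q ℓ)) :
    c₁ ^ g * (h + R) ^ (δ * g) ≤ (gramX q Q).det := by
  have hg0 : (0 : ℝ) < g := by exact_mod_cast hg
  have hB0 : 0 < B := by rw [hB]; positivity
  obtain ⟨Δ, hΔ⟩ : ∃ Δ : ℝ, Δ = (gramX q Q).det := ⟨_, rfl⟩
  have hΔ0 : 0 ≤ Δ := by rw [hΔ]; exact (gramX_psd q hpar hq Q).det_nonneg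
  have hlow : c₂ / (256 * g) * h ^ δ ≤ Δ ^ (1 / g : ℝ) := by
    have h1 := reg_step hg q hpar hq Q hQ m b hm1 fun S hS _ => hSp S hS
    rw [← hΔ] at h1
    have hmp : 0 < m ^ (2 / g : ℝ) := by positivity
    have h3 : c₂ * h ^ δ * m ^ (2 / g : ℝ) ≤
        256 * g * Δ ^ (1 / g : ℝ) * m ^ (2 / g : ℝ) := by
      refine (hmb.trans h1).trans (le_of_eq ?_)
      ring
    have h4 := le_of_mul_le_mul_right h3 hmp
    rw [div_mul_eq_mul_div, div_le_iff₀ (by positivity)]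
    linarith
  have hbigR : A * h ≤ R → e / B * R ≤ Δ ^ (1 / g : ℝ) := by
    intro hRA
    have h1 := reg_step hg q hpar hq Q hQ 2 (e * R) (by norm_num)
      fun S hS hS2 => by
        have h2 : 1 < S.card := by
          have h3 : (2 : ℝ) ≤ S.card := hS
          have h4 : 2 ≤ S.card := by exact_mod_cast h3
          omega
        obtain ⟨x, hx, y, hy, hxy⟩ := Finset.one_lt_card.1 h2
        obtain ⟨ℓ, rfl⟩ := hS2 x hx
        obtain ⟨ℓ', rfl⟩ := hS2 y hy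
        refine ⟨_, hx, _, hy, hxy, ?_⟩
        rw [← Phi_sub]
        refine hpt hRA _ ?_
        intro h0
        apply hxy
        rw [sub_eq_zero.1 h0]
    rw [← hΔ, ← hB] at h1
    rw [div_mul_eq_mul_div, div_le_iff₀ hB0]
    linarith
  have hfin := hcomb h R _ hh1 hR0 hlow hbigR
  rw [← hΔ]
  have hx0 : 0 ≤ c₁ * (h + R) ^ δ := by positivity
  calc c₁ ^ g * (h + R) ^ (δ * g) = (c₁ * (h + R) ^ δ) ^ g := by
        rw [mul_pow, ← Real.rpow_natCast ((h + R) ^ δ), ← Real.rpow_mul (by positivity)]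
    _ ≤ (Δ ^ (1 / g : ℝ)) ^ g := pow_le_pow_left₀ hx0 hfin g
    _ = Δ := by
      rw [← Real.rpow_natCast, ← Real.rpow_mul hΔ0, one_div_mul_cancel hg0.ne', Real.rpow_one]

theorem regulator (K : Type) [Field K] [NumberField K] (g : ℕ) (hg : 1 ≤ g) (σ : ℝ) :
    ∃ c₁ : ℝ, 0 < c₁ ∧ ∀ (W : WeierstrassCurve K) [W.IsElliptic],
    hW W ≤ σ * (1 + hJ W) →
    ∀ (F : Type) [Field F] [NumberField F] [DecidableEq F] [Algebra K F] [IsGalois K F]
    (ρ : (F ≃ₐ[K] F) →* Matrix.GeneralLinearGroup (Fin 1) ℤ), Function.Injective ρ →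
    ∀ (Q : Fin g → (W.baseChange F).toAffine.Point), LinearIndependent ℤ Q →
    (∀ i, IsKPoint ρ fun _ : Fin 1 => Q i) →
      ∀ S : Finset (Ideal (𝓞 K)),
        (∀ p ∈ S, p.IsMaximal ∧ p ≠ ⊥ ∧ ¬ Algebra.IsUnramifiedIn (𝓞 F) p) →
        c₁ * (1 + hJ W + (∑ p ∈ S, Real.log (Ideal.absNorm p)) / Module.finrank ℚ K) ^
          (dexp g * g) ≤ (gramX nt Q).det := by
  classical
  have hg0 : (0 : ℝ) < g := by exact_mod_cast hg
  obtain ⟨e₁, e₂, he₁, he₂, hT2⟩ := uniform_lower_bound K 1 le_rfl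
  obtain ⟨D₀, hD₀⟩ : ∃ D₀ : ℕ, D₀ = 3 ^ (1 ^ 2) := ⟨_, rfl⟩
  have hD₀1 : 1 ≤ D₀ := by rw [hD₀]; norm_num
  obtain ⟨C₂, c₂, hC₂, hc₂, hsep⟩ := sep_pow K g hg D₀ hD₀1 σ
  obtain ⟨σ₁, hσ₁⟩ : ∃ σ₁, σ₁ = max σ 1 := ⟨_, rfl⟩
  have hσ1 : 1 ≤ σ₁ := by rw [hσ₁]; exact le_max_right _ _
  have hσσ : σ ≤ σ₁ := by rw [hσ₁]; exact le_max_left _ _
  obtain ⟨A, hA1, hA⟩ := big_R e₁ e₂ σ₁ he₁ he₂ (by linarith)
  obtain ⟨B, hB⟩ : ∃ B : ℝ, B = 256 * g * 2 ^ (2 / g : ℝ) := ⟨_, rfl⟩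
  have hB0 : 0 < B := by rw [hB]; positivity
  obtain ⟨c₁, hc₁0, hc₁c, hcomb⟩ := comb (dexp g) (c₂ / (256 * g)) (e₁ / 2 / B) A
    (dexp_le hg) (by positivity) (by positivity) hA1
  refine ⟨c₁ ^ g, by positivity, ?_⟩
  intro W _ hWh F _ _ _ _ _ ρ hρ Q hQ hK S hS
  have hJn := hJ_nonneg W
  obtain ⟨h, hh⟩ : ∃ h : ℝ, h = 1 + hJ W := ⟨_, rfl⟩
  have hh1 : 1 ≤ h := by rw [hh]; linarith
  have hcard : Nat.card (F ≃ₐ[K] F) ≤ D₀ := by
    rw [hD₀]; exact card_le_of_injective ρ hρ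
  have hcardF : Nat.card (F ≃ₐ[K] F) = Module.finrank K F := IsGalois.card_aut_eq_finrank K F
  obtain ⟨m, b, hm1, hm2, hb, hSp, hmb⟩ := hsep W hWh F (by rw [← hcardF]; exact hcard)
  obtain ⟨R, hR⟩ : ∃ R : ℝ, R = (∑ p ∈ S, Real.log (Ideal.absNorm p)) / Module.finrank ℚ K :=
    ⟨_, rfl⟩
  have hR0 : 0 ≤ R := by
    rw [hR]
    refine div_nonneg (Finset.sum_nonneg fun p hp => ?_) (Nat.cast_nonneg _)
    exact Real.log_natCast_nonneg _
  have h9 : hW W ≤ σ₁ * (1 + hJ W) :=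
    hWh.trans (mul_le_mul_of_nonneg_right hσσ (by linarith))
  rw [← hh] at hm2 hmb h9
  rw [← hR, ← hh]
  have hpt : A * h ≤ R → ∀ ℓ : Fin g → ℤ, ℓ ≠ 0 → e₁ / 2 * R ≤ nt (Phi Q ℓ) := by
    intro hRA ℓ hℓ
    have hKx := kp_phi ρ gal Q hK ℓ
    rcases hT2 W F ρ hρ 1 isPol_one (fun s => gl_one (ρ s)) (fun _ => Phi Q ℓ) hKx with h3 | h3
    · exact absurd (li_phi hQ hℓ) (obstructed_not_li h3)
    have h4 := h3 S hS
    rw [ntL_one, ← hR] at h4
    exact hA h R _ (hW W) hh1 h9 h4 hRA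
  exact reg_abs hg (X := (W.baseChange F).toAffine.Point) nt nt_par nt_nonneg Q hQ c₁ c₂ (e₁ / 2)
    A B h R m b (dexp g) hB hc₁0 hcomb hh1 hR0 hm1 hSp hmb hpt

end Pow

end LangForms
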