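import Pool.Agent.Lib_MP_f5471b_q.Many
import Pool.Agent.Lib_MP_f5471b_q.CoreP
import Pool.Agent.Lib_MP_f5471b_q.SepAbs
import Pool.Agent.Lib_MP_f5471b_nt.Final

/-!
# MP_f5471b_nt: from sets of points to the height of a point of the form
-/

namespace LangForms

namespace Pow

theorem torsion_q {X : Type} [AddCommGroup X] (q : X → ℝ)
    (hpar : ∀ P Q, q (P + Q) + q (P - Q) = 2 * q P + 2 * q Q) (n : ℕ) (hn : 1 ≤ n) (z : X)
    (hz : n • z = 0) : q z = 0 := by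
  have h1 := q_nsmul q hpar n z
  have h2 := q_nsmul q hpar 0 z
  rw [hz] at h1
  simp only [zero_smul] at h2
  rw [h2] at h1
  have h3 : (0 : ℝ) < n := by exact_mod_cast hn
  have h4 : (n : ℝ) ^ 2 * q z = 0 := by rw [← h1]; simp
  rcases mul_eq_zero.1 h4 with h | h
  · exact absurd h (by positivity)
  · exact h

theorem lat_step (g D : ℕ) (hg : 1 ≤ g) : ∃ C : ℝ, 1 ≤ C ∧ ∀ (G : Type) [Group G] [Finite G],
    Nat.card G ≤ D → ∀ (X : Type) [AddCommGroup X] (act : G → X →+ X)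
    (ρ : G →* Matrix.GeneralLinearGroup (Fin g) ℤ)
    (M : Matrix (Fin g) (Fin g) ℤ), IsPol M →
    (∀ σ, (ρ σ).val.transpose * M * (ρ σ).val = M) → ∀ (P : Fin g → X),
    (∀ σ a, ∑ b, (ρ σ).val a b • act σ (P b) = P a) →
    ∀ q : X → ℝ, (∀ P Q, q (P + Q) + q (P - Q) = 2 * q P + 2 * q Q) → (∀ P, 0 ≤ q P) →
    ∀ m b : ℝ, 1 ≤ m → 0 < b → Sp q m b →
      (Obstructed ρ M P (C * m ^ (2 * D + 1)) ∧ ¬ LinearIndependent ℤ P) ∨
      ((∀ n : ℕ, 1 ≤ n → n • P ≠ 0) ∧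
        ((M.det : ℤ) : ℝ) ^ (1 / g : ℝ) * b ≤
          C * m ^ (2 / g : ℝ) * ∑ a, ∑ b, (M a b : ℝ) * pairX q (P a) (P b)) := by
  classical
  obtain ⟨C₁, hC₁, hcore⟩ := core_poly g D
  have hg0 : (0 : ℝ) < g := by exact_mod_cast hg
  have hg1 : (1 : ℝ) ≤ g := by exact_mod_cast hg
  have hC₂ : 1 ≤ C₁ * (256 * (g : ℝ)) ^ D := by
    have : (1 : ℝ) ≤ (256 * (g : ℝ)) ^ D := one_le_pow₀ (by linarith)
    nlinarith
  refine ⟨max (C₁ * (256 * g) ^ D) (256 * g), le_max_of_le_left hC₂, ?_⟩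
  intro G _ _ hG X _ act ρ M hM hinv P hP q hpar hq m b hm hb hSp
  -- the prime
  obtain ⟨n₀, hn₀⟩ : ∃ n₀ : ℕ, n₀ = ⌈m⌉₊ := ⟨_, rfl⟩
  have hn₀1 : m ≤ n₀ := by rw [hn₀]; exact Nat.le_ceil m
  have hn₀2 : (n₀ : ℝ) < m + 1 := by rw [hn₀]; exact Nat.ceil_lt_add_one (by linarith)
  have hn₀pos : n₀ ≠ 0 := by
    intro h
    rw [h] at hn₀1
    norm_num at hn₀1
    linarith
  obtain ⟨p, hp, hp1, hp2⟩ := Nat.exists_prime_lt_and_le_two_mul n₀ hn₀pos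
  have hp1' : (n₀ : ℝ) < p := by exact_mod_cast hp1
  have hp2' : (p : ℝ) ≤ 2 * n₀ := by exact_mod_cast hp2
  obtain ⟨dM, hdM⟩ : ∃ dM : ℝ, dM = ((M.det : ℤ) : ℝ) := ⟨_, rfl⟩
  have hdM1 : 1 ≤ dM := by rw [hdM]; exact_mod_cast det_ge_one M hM
  have hdM0 : 0 < dM := by linarith
  obtain ⟨w, hw⟩ : ∃ w : ℝ, w = dM ^ (1 / g : ℝ) := ⟨_, rfl⟩
  have hw0 : 0 < w := by rw [hw]; positivity
  have hw1 : 1 ≤ w := by rw [hw]; exact Real.one_le_rpow hdM1 (by positivity)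
  obtain ⟨s, hs⟩ : ∃ s : ℝ, s = (8 * m) ^ (1 / g : ℝ) * dM ^ (-(1 / 2) * (1 / g) : ℝ) := ⟨_, rfl⟩
  have hs0 : 0 < s := by rw [hs]; positivity
  have hsg : (s ^ g) ^ 2 * dM = (8 * m) ^ 2 := by
    have e1 : ((8 * m) ^ (1 / g : ℝ)) ^ g = 8 * m := by
      rw [← Real.rpow_natCast, ← Real.rpow_mul (by positivity), one_div_mul_cancel hg0.ne',
        Real.rpow_one]
    have e2 : ((dM ^ (-(1 / 2) * (1 / g) : ℝ)) ^ g) ^ 2 = dM⁻¹ := by
      rw [← pow_mul, ← Real.rpow_natCast, ← Real.rpow_mul hdM0.le, ← Real.rpow_neg_one]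
      congr 1
      push_cast
      field_simp
    rw [hs, mul_pow, e1, mul_pow, e2]
    field_simp
  have hs2' : s ^ 2 * w = (8 * m) ^ (2 / g : ℝ) := by
    have e1 : ((8 * m) ^ (1 / g : ℝ)) ^ 2 = (8 * m) ^ (2 / g : ℝ) := by
      rw [← Real.rpow_natCast, ← Real.rpow_mul (by positivity)]
      congr 1
      push_cast
      ring
    have e2 : (dM ^ (-(1 / 2) * (1 / g) : ℝ)) ^ 2 * w = 1 := by
      rw [← Real.rpow_natCast, ← Real.rpow_mul hdM0.le, hw, ← Real.rpow_add hdM0]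
      have : -(1 / 2) * (1 / (g : ℝ)) * ((2 : ℕ) : ℝ) + 1 / g = 0 := by push_cast; ring
      rw [this, Real.rpow_zero]
    rw [hs, mul_pow, e1, mul_assoc, e2, mul_one]
  have hs2w1 : 1 ≤ s ^ 2 * w := by
    rw [hs2']; exact Real.one_le_rpow (by linarith) (by positivity)
  have hs2 : s ^ 2 * w ≤ 64 * m ^ (2 / g : ℝ) := by
    rw [hs2', Real.mul_rpow (by norm_num) (by linarith)]
    refine mul_le_mul_of_nonneg_right ?_ (by positivity)
    have h1 : (8 : ℝ) ^ (2 / g : ℝ) ≤ 8 ^ (2 : ℝ) :=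
      Real.rpow_le_rpow_of_exponent_le (by norm_num) (by
        rw [div_le_iff₀ hg0]; linarith)
    refine h1.trans (le_of_eq ?_)
    norm_num
  have hm2 : m ^ (2 / g : ℝ) ≤ m ^ 2 := by
    have h1 : m ^ (2 / g : ℝ) ≤ m ^ (2 : ℝ) :=
      Real.rpow_le_rpow_of_exponent_le hm (by rw [div_le_iff₀ hg0]; linarith)
    refine h1.trans (le_of_eq ?_)
    norm_cast
  obtain ⟨B, hB1, hB2⟩ := many_short M hM p hp s hs0 (by
    rw [← hdM, hsg]
    exact pow_le_pow_left₀ (by positivity) (by linarith) 2)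
  obtain ⟨C₀', hC₀'⟩ : ∃ C₀' : ℝ, C₀' = 4 * (g * s ^ 2) := ⟨_, rfl⟩
  obtain ⟨C₀, hC₀⟩ : ∃ C₀ : ℝ, C₀ = C₀' * w := ⟨_, rfl⟩
  have hC₀e : C₀ = 4 * g * (s ^ 2 * w) := by rw [hC₀, hC₀']; ring
  have hC₀1 : 1 ≤ C₀ := by rw [hC₀e]; nlinarith
  have hC₀2 : C₀ ≤ 256 * g * m ^ (2 / g : ℝ) := by
    rw [hC₀e]
    have := mul_le_mul_of_nonneg_left hs2 hg0.le
    linarith
  have hC₀'0 : 0 < C₀' := by rw [hC₀']; positivity
  have hC₀'1 : C₀' ≤ C₀ := by rw [hC₀]; nlinarith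
  have hshort' : ∀ ℓ ∈ B, ∀ ℓ' ∈ B, Sh M C₀' (ℓ - ℓ') := fun ℓ hℓ ℓ' hℓ' => by
    rw [hC₀']; exact Sh_sub M _ ℓ ℓ' (hB2 ℓ hℓ) (hB2 ℓ' hℓ')
  have hshort : ∀ ℓ ∈ B, ∀ ℓ' ∈ B, Sh M C₀ (ℓ - ℓ') := fun ℓ hℓ ℓ' hℓ' =>
    Sh_mono M hM hC₀'1 _ (hshort' ℓ hℓ ℓ' hℓ')
  by_cases hinj : Set.InjOn (Phi P) (B : Set (Fin g → ℤ))
  · right
    obtain ⟨x, hx, y, hy, hxy, hle⟩ := hSp (B.image (Phi P)) (by
      rw [Finset.card_image_of_injOn hinj]
      have : (p : ℝ) ≤ B.card := by exact_mod_cast hB1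
      linarith)
    obtain ⟨ℓ, hℓ, rfl⟩ := Finset.mem_image.1 hx
    obtain ⟨ℓ', hℓ', rfl⟩ := Finset.mem_image.1 hy
    rw [← Phi_sub] at hle
    have h1 := q_le q hpar hq M hM C₀' (ℓ - ℓ') (hshort' ℓ hℓ ℓ' hℓ') P
    obtain ⟨Lq, hLq⟩ : ∃ Lq : ℝ, Lq = ∑ a, ∑ b, (M a b : ℝ) * pairX q (P a) (P b) := ⟨_, rfl⟩
    rw [← hLq] at h1 ⊢
    have hLpos : 0 ≤ Lq := by
      by_contra hneg
      push Not at hneg
      have : C₀' * Lq < 0 := mul_neg_of_pos_of_neg hC₀'0 hneg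
      linarith
    refine ⟨?_, ?_⟩
    · intro n hn h0
      have h2 : n • Phi P (ℓ - ℓ') = 0 := by
        rw [← Phi_nsmul, h0]; simp [Phi]
      have := torsion_q q hpar n hn _ h2
      linarith
    · rw [← hdM, ← hw]
      have h3 : w * b ≤ C₀ * Lq := by
        calc w * b ≤ w * (C₀' * Lq) := mul_le_mul_of_nonneg_left (hle.trans h1) hw0.le
          _ = C₀ * Lq := by rw [hC₀]; ring
      refine h3.trans ?_
      refine mul_le_mul_of_nonneg_right ?_ hLpos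
      refine hC₀2.trans ?_
      exact mul_le_mul_of_nonneg_right (le_max_right _ _) (by positivity)
  · left
    rw [Set.InjOn] at hinj
    push Not at hinj
    obtain ⟨ℓ, hℓ, ℓ', hℓ', heq, hne⟩ := hinj
    have hψ0 : ℓ - ℓ' ≠ 0 := sub_ne_zero.2 hne
    have hψΦ : Phi P (ℓ - ℓ') = 0 := by rw [Phi_sub, heq, sub_self]
    refine ⟨?_, ?_⟩
    · obtain ⟨ℓ₁, hℓ₁U, _, _, hob⟩ := hcore C₀ hC₀1 G hG X act ρ M hM hinv P hP (Utor P)
        (Utor_saturated P) (fun σ ℓ hℓ => Utor_stable act ρ P hP σ ℓ hℓ)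
        ⟨ℓ - ℓ', ⟨1, le_rfl, by rw [hψΦ, smul_zero]⟩, hψ0, hshort ℓ hℓ ℓ' hℓ'⟩
      obtain ⟨k, hk1, hk⟩ := hℓ₁U
      obtain ⟨T, hT⟩ : ∃ T, T = Phi P ℓ₁ := ⟨_, rfl⟩
      rw [← hT] at hk hob
      have hfin : IsOfFinAddOrder T := isOfFinAddOrder_iff_nsmul_eq_zero.2 ⟨k, hk1, hk⟩
      have ht1 : 1 ≤ addOrderOf T := hfin.addOrderOf_pos
      have htm : (addOrderOf T : ℝ) ≤ m := by
        by_contra hlt
        push Not at hlt
        obtain ⟨x, hx, y, hy, _, hle⟩ := hSp ((Finset.range (addOrderOf T)).image fun j => j • T)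
          (by
            rw [Finset.card_image_of_injOn, Finset.card_range]
            · exact hlt.le
            · intro i hi j hj hij
              rw [Finset.coe_range, Set.mem_Iio] at hi hj
              exact nsmul_injOn_Iio_addOrderOf hi hj hij)
        obtain ⟨i, _, rfl⟩ := Finset.mem_image.1 hx
        obtain ⟨j, _, rfl⟩ := Finset.mem_image.1 hy
        have h0 : k • (i • T - j • T) = 0 := by
          rw [smul_sub, smul_comm k i, smul_comm k j, hk, smul_zero, smul_zero, sub_zero]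
        have := torsion_q q hpar k hk1 _ h0
        linarith
      refine (hob _ ht1 (addOrderOf_nsmul_eq_zero T)).mono hM ?_
      have h1 : C₀ ≤ 256 * g * m ^ 2 :=
        hC₀2.trans (mul_le_mul_of_nonneg_left hm2 (by positivity))
      have h2 : C₀ ^ D ≤ (256 * g * m ^ 2) ^ D := pow_le_pow_left₀ (by linarith) h1 D
      calc C₁ * C₀ ^ D * (addOrderOf T : ℕ) ≤ C₁ * (256 * g * m ^ 2) ^ D * m := by
            refine mul_le_mul (mul_le_mul_of_nonneg_left h2 (by linarith)) htm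
              (Nat.cast_nonneg _) (by positivity)
        _ = C₁ * (256 * g) ^ D * m ^ (2 * D + 1) := by ring
        _ ≤ _ := mul_le_mul_of_nonneg_right (le_max_left _ _) (by positivity)
    · intro hli
      apply hψ0
      have h1 := Fintype.linearIndependent_iff.1 hli (ℓ - ℓ') (by
        rw [← hψΦ]; rfl)
      funext a
      exact h1 a

end Pow

end LangForms
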