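import Pool.Agent.Lib_MP_f5471b_nt.MinkA

/-!
# MP_f5471b_nt: many short characters
-/

namespace LangForms

namespace Pow

open Matrix
open scoped MatrixOrder

/-- Minkowski's theorem for linear forms with one congruence. -/
theorem forms_mod {r : ℕ} (C : Matrix (Fin r) (Fin r) ℝ) (h0 : C.det ≠ 0) (p : ℕ) (hp : 1 ≤ p)
    (s : ℝ) (hs : 0 < s) (h1 : 2 * p * |C.det| ≤ s ^ r) (u : Fin r → ℤ) :
    ∃ ℓ : Fin r → ℤ, ℓ ≠ 0 ∧ (p : ℤ) ∣ ∑ a, u a * ℓ a ∧
      ∀ i, |(C.mulVec fun a => (ℓ a : ℝ)) i| ≤ s := by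
  classical
  have hp0 : (0 : ℝ) < p := by exact_mod_cast hp
  let e : Fin r ⊕ Fin 1 ≃ Fin (r + 1) := finSumFinEquiv
  let M' : Matrix (Fin r ⊕ Fin 1) (Fin r ⊕ Fin 1) ℝ :=
    Matrix.fromBlocks (s⁻¹ • C) 0 (Matrix.of fun _ a => 2 * (u a : ℝ))
      (Matrix.of fun _ _ => -(2 * (p : ℝ)))
  have hdetM' : M'.det = (s⁻¹) ^ r * C.det * -(2 * (p : ℝ)) := by
    simp only [M']
    rw [Matrix.det_fromBlocks_zero₁₂, Matrix.det_smul, Fintype.card_fin]
    congr 1
    simp
  have hdet : (M'.submatrix e.symm e.symm).det = M'.det := Matrix.det_submatrix_equiv_self _ _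
  obtain ⟨κ, hκ0, hκ⟩ := Mink.linear_forms (r := r + 1) (by omega) (M'.submatrix e.symm e.symm)
    (by
      rw [hdet, hdetM']
      refine mul_ne_zero (mul_ne_zero (pow_ne_zero _ (inv_ne_zero hs.ne')) h0) ?_
      rw [neg_ne_zero]
      positivity)
    (by
      rw [hdet, hdetM', abs_mul, abs_mul, abs_neg, abs_of_pos (by positivity : (0 : ℝ) < 2 * p),
        abs_of_pos (by positivity : (0 : ℝ) < s⁻¹ ^ r), inv_pow]
      rw [inv_mul_eq_div, div_mul_eq_mul_div, div_le_one (by positivity)]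
      linarith)
  obtain ⟨ℓ, hℓ⟩ : ∃ ℓ : Fin r → ℤ, ℓ = fun a => κ (e (Sum.inl a)) := ⟨_, rfl⟩
  obtain ⟨k, hk⟩ : ∃ k : ℤ, k = κ (e (Sum.inr 0)) := ⟨_, rfl⟩
  have hmv : ∀ i : Fin r ⊕ Fin 1, ((M'.submatrix e.symm e.symm).mulVec fun a => (κ a : ℝ)) (e i) =
      ∑ a : Fin r, M' i (Sum.inl a) * ℓ a + M' i (Sum.inr 0) * k := by
    intro i
    simp only [Matrix.mulVec, dotProduct, Matrix.submatrix_apply, Equiv.symm_apply_apply]
    rw [← e.sum_comp, Fintype.sum_sum_type]
    simp [hℓ, hk]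
  have hrow : ∑ a, u a * ℓ a = p * k := by
    have h2 := hκ (e (Sum.inr 0))
    rw [hmv] at h2
    simp only [M', Matrix.fromBlocks_apply₂₁, Matrix.fromBlocks_apply₂₂, Matrix.of_apply] at h2
    have e1 : ∑ a : Fin r, 2 * (u a : ℝ) * ℓ a + -(2 * (p : ℝ)) * k =
        2 * (((∑ a, u a * ℓ a - p * k : ℤ)) : ℝ) := by
      push_cast
      rw [mul_sub, Finset.mul_sum]
      have : ∑ a : Fin r, 2 * (u a : ℝ) * ℓ a = ∑ a : Fin r, 2 * ((u a : ℝ) * ℓ a) :=
        Finset.sum_congr rfl fun a _ => by ring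
      rw [this]
      ring
    rw [e1, abs_mul, abs_two] at h2
    have h3 : |((∑ a, u a * ℓ a - p * k : ℤ) : ℝ)| < 1 := by linarith
    have h4 : |(∑ a, u a * ℓ a - p * k : ℤ)| < 1 := by exact_mod_cast h3
    have h5 := Int.abs_lt_one_iff.1 h4
    linarith
  refine ⟨ℓ, ?_, ⟨k, hrow⟩, ?_⟩
  · intro hz
    apply hκ0
    have hk0 : k = 0 := by
      rw [hz] at hrow
      simp only [Pi.zero_apply, mul_zero, Finset.sum_const_zero] at hrow
      rcases mul_eq_zero.1 hrow.symm with h | h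
      · exact absurd h (by exact_mod_cast (by omega : p ≠ 0))
      · exact h
    funext j
    obtain ⟨i, rfl⟩ := e.surjective j
    rcases i with a | b
    · have := congrFun hz a
      rw [hℓ] at this
      exact this
    · rw [Subsingleton.elim b 0, ← hk, hk0]
      rfl
  · intro i
    have h2 := hκ (e (Sum.inl i))
    rw [hmv] at h2
    simp only [M', Matrix.fromBlocks_apply₁₁, Matrix.fromBlocks_apply₁₂, Matrix.smul_apply,
      Matrix.zero_apply, zero_mul, add_zero, smul_eq_mul] at h2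
    have e1 : ∑ a : Fin r, s⁻¹ * C i a * (ℓ a : ℝ) = s⁻¹ * (C.mulVec fun a => (ℓ a : ℝ)) i := by
      simp only [Matrix.mulVec, dotProduct, Finset.mul_sum]
      exact Finset.sum_congr rfl fun a _ => by ring
    rw [e1, abs_mul, abs_of_pos (inv_pos.2 hs), inv_mul_le_iff₀ hs, mul_one] at h2
    exact h2

/-- The solutions of a nontrivial linear equation over `ZMod p`. -/
theorem card_sol {r : ℕ} (p : ℕ) [Fact p.Prime] (w : Fin r → ZMod p) (hw : w ≠ 0) :
    p * (Finset.univ.filter fun u : Fin r → ZMod p => ∑ a, u a * w a = 0).card =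
      p ^ r := by
  classical
  let φ : (Fin r → ZMod p) →+ ZMod p :=
    { toFun := fun u => ∑ a, u a * w a
      map_zero' := by simp
      map_add' := fun u v => by simp [add_mul, Finset.sum_add_distrib] }
  have hsurj : Function.Surjective φ := by
    obtain ⟨a, ha⟩ := Function.ne_iff.1 hw
    intro c
    refine ⟨Pi.single a (c / w a), ?_⟩
    change ∑ b, (Pi.single a (c / w a) : Fin r → ZMod p) b * w b = c
    rw [Finset.sum_eq_single a]
    · rw [Pi.single_eq_same]
      exact div_mul_cancel₀ _ ha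
    · intro b _ hb
      rw [Pi.single_eq_of_ne hb, zero_mul]
    · intro h
      exact absurd (Finset.mem_univ a) h
  have h1 := AddSubgroup.card_mul_index φ.ker
  rw [AddSubgroup.index_ker, AddMonoidHom.range_eq_top.2 hsurj] at h1
  have h2 : Nat.card φ.ker =
      (Finset.univ.filter fun u : Fin r → ZMod p => ∑ a, u a * w a = 0).card := by
    rw [← Fintype.card_coe, ← Nat.card_eq_fintype_card]
    refine Nat.card_congr ⟨fun x => ⟨x.1, ?_⟩, fun x => ⟨x.1, ?_⟩, fun x => rfl, fun x => rfl⟩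
    · rw [Finset.mem_filter]
      exact ⟨Finset.mem_univ _, x.2⟩
    · exact (Finset.mem_filter.1 x.2).2
  have h3 : Nat.card ((⊤ : AddSubgroup (ZMod p)) : Type) = p := by
    rw [AddSubgroup.card_top, Nat.card_zmod]
  have h4 : Nat.card (Fin r → ZMod p) = p ^ r := by
    rw [Nat.card_fun, Nat.card_zmod, Nat.card_eq_fintype_card, Fintype.card_fin]
  rw [h2, h3, h4] at h1
  rw [mul_comm]
  exact h1

theorem many_forms {r : ℕ} (C : Matrix (Fin r) (Fin r) ℝ) (h0 : C.det ≠ 0)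
    (p : ℕ) (hp : p.Prime) (s : ℝ) (hs : 0 < s) (h1 : 2 * p * |C.det| ≤ s ^ r) :
    ∃ B : Finset (Fin r → ℤ), p ≤ B.card ∧
      ∀ ℓ ∈ B, ∀ i, |(C.mulVec fun a => (ℓ a : ℝ)) i| ≤ s := by
  classical
  haveI : Fact p.Prime := ⟨hp⟩
  have hp1 : 1 ≤ p := hp.one_le
  have hkey : ∀ u : Fin r → ZMod p, ∃ ℓ : Fin r → ℤ, ℓ ≠ 0 ∧
      ∑ a, u a * ((ℓ a : ℤ) : ZMod p) = 0 ∧ ∀ i, |(C.mulVec fun a => (ℓ a : ℝ)) i| ≤ s := by
    intro u
    obtain ⟨ℓ, hℓ0, hℓ1, hℓ2⟩ := forms_mod C h0 p hp1 s hs h1 fun a => ((u a).val : ℤ)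
    refine ⟨ℓ, hℓ0, ?_, hℓ2⟩
    have h2 := (ZMod.intCast_zmod_eq_zero_iff_dvd _ p).2 hℓ1
    push_cast at h2
    simpa using h2
  choose f hf0 hf1 hf2 using hkey
  by_cases hdiv : ∃ u, (fun a => ((f u a : ℤ) : ZMod p)) = 0
  · obtain ⟨u, hu⟩ := hdiv
    have h2 : ∀ a, (p : ℤ) ∣ f u a := fun a =>
      (ZMod.intCast_zmod_eq_zero_iff_dvd _ p).1 (congrFun hu a)
    choose ℓ' hℓ' using h2
    have hℓ'0 : ℓ' ≠ 0 := by
      intro hz
      apply hf0 u
      funext a
      rw [hℓ', hz]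
      simp
    refine ⟨(Finset.Icc 1 p).image fun j : ℕ => (j : ℤ) • ℓ', ?_, ?_⟩
    · rw [Finset.card_image_of_injective]
      · simp
      · intro i j hij
        obtain ⟨a, ha⟩ := Function.ne_iff.1 hℓ'0
        have h3 := congrFun hij a
        simp only [Pi.smul_apply, smul_eq_mul] at h3
        have h4 := mul_right_cancel₀ ha h3
        exact_mod_cast h4
    · intro ℓ hℓ i
      obtain ⟨j, hj, rfl⟩ := Finset.mem_image.1 hℓ
      rw [Finset.mem_Icc] at hj
      have h3 := hf2 u i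
      have hpr : (0 : ℝ) < p := by exact_mod_cast hp.pos
      have e1 : (C.mulVec fun a => ((f u a : ℤ) : ℝ)) i =
          p * (C.mulVec fun a => ((ℓ' a : ℤ) : ℝ)) i := by
        simp only [Matrix.mulVec, dotProduct, Finset.mul_sum]
        refine Finset.sum_congr rfl fun a _ => ?_
        rw [hℓ']
        push_cast
        ring
      have e2 : (C.mulVec fun a => ((((j : ℤ) • ℓ') a : ℤ) : ℝ)) i =
          j * (C.mulVec fun a => ((ℓ' a : ℤ) : ℝ)) i := by
        simp only [Matrix.mulVec, dotProduct, Finset.mul_sum]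
        refine Finset.sum_congr rfl fun a _ => ?_
        rw [Pi.smul_apply, smul_eq_mul]
        push_cast
        ring
      rw [e1, abs_mul, abs_of_pos hpr] at h3
      rw [e2, abs_mul, Nat.abs_cast]
      have h4 : (j : ℝ) ≤ p := by exact_mod_cast hj.2
      exact (mul_le_mul_of_nonneg_right h4 (abs_nonneg _)).trans h3
  · push Not at hdiv
    refine ⟨Finset.univ.image f, ?_, ?_⟩
    · by_contra hlt
      push Not at hlt
      have h2 : (Finset.univ : Finset (Fin r → ZMod p)) ⊆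
          (Finset.univ.image f).biUnion fun ℓ =>
            Finset.univ.filter fun u : Fin r → ZMod p => ∑ a, u a * ((ℓ a : ℤ) : ZMod p) = 0 := by
        intro u _
        rw [Finset.mem_biUnion]
        exact ⟨f u, Finset.mem_image_of_mem _ (Finset.mem_univ _),
          Finset.mem_filter.2 ⟨Finset.mem_univ _, hf1 u⟩⟩
      have h3 := Finset.card_le_card h2
      have h4 := h3.trans Finset.card_biUnion_le
      have h5 : p * ∑ ℓ ∈ Finset.univ.image f, (Finset.univ.filter fun u : Fin r → ZMod p =>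
          ∑ a, u a * ((ℓ a : ℤ) : ZMod p) = 0).card = (Finset.univ.image f).card * p ^ r := by
        rw [Finset.mul_sum, Finset.sum_congr rfl (g := fun _ => p ^ r), Finset.sum_const,
          smul_eq_mul]
        intro ℓ hℓ
        obtain ⟨u, _, rfl⟩ := Finset.mem_image.1 hℓ
        exact card_sol p (fun a => ((f u a : ℤ) : ZMod p)) (hdiv u)
      have h6 : p * (Finset.univ : Finset (Fin r → ZMod p)).card ≤
          (Finset.univ.image f).card * p ^ r := by
        rw [← h5]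
        exact Nat.mul_le_mul_left _ h4
      have h7 : (Finset.univ : Finset (Fin r → ZMod p)).card = p ^ r := by
        rw [Finset.card_univ, Fintype.card_fun, ZMod.card, Fintype.card_fin]
      rw [h7] at h6
      have h8 : 0 < p ^ r := by positivity
      have h9 := Nat.le_of_mul_le_mul_right h6 h8
      omega
    · intro ℓ hℓ i
      obtain ⟨u, _, rfl⟩ := Finset.mem_image.1 hℓ
      exact hf2 u i

theorem det_ge_one {r : ℕ} (A : Matrix (Fin r) (Fin r) ℤ) (hA : IsPol A) : 1 ≤ A.det := by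
  have hpos : 0 < (A.map (Int.cast : ℤ → ℝ)).det := (posDef_real A hA).det_pos
  have hdet : (A.map (Int.cast : ℤ → ℝ)).det = ((A.det : ℤ) : ℝ) := by
    have := (Int.castRingHom ℝ).map_det A
    simpa [RingHom.mapMatrix_apply] using this.symm
  rw [hdet] at hpos
  have h1 : 0 < A.det := by exact_mod_cast hpos
  omega

/-- At least `p` short characters. -/
theorem many_short {r : ℕ} (A : Matrix (Fin r) (Fin r) ℤ) (hA : IsPol A)
    (p : ℕ) (hp : p.Prime) (s : ℝ) (hs : 0 < s)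
    (hsp : (2 * (p : ℝ)) ^ 2 ≤ (s ^ r) ^ 2 * (A.det : ℤ)) :
    ∃ B : Finset (Fin r → ℤ), p ≤ B.card ∧ ∀ ℓ ∈ B, Sh A (r * s ^ 2) ℓ := by
  classical
  have hP := posDef_real A hA
  obtain ⟨B, hB⟩ := CStarAlgebra.nonneg_iff_eq_star_mul_self.mp hP.posSemidef.nonneg
  have hB' : A.map (Int.cast : ℤ → ℝ) = B.transpose * B := by
    rw [hB]
    simp [star_eq_conjTranspose]
  have hdet : (A.map (Int.cast : ℤ → ℝ)).det = ((A.det : ℤ) : ℝ) := by
    have := (Int.castRingHom ℝ).map_det A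
    simpa [RingHom.mapMatrix_apply] using this.symm
  have hpos : 0 < (A.map (Int.cast : ℤ → ℝ)).det := hP.det_pos
  have hge : (1 : ℝ) ≤ B.det ^ 2 := by
    have h1 : 0 < A.det := by
      rw [hdet] at hpos
      exact_mod_cast hpos
    have h2 : (1 : ℝ) ≤ ((A.det : ℤ) : ℝ) := by exact_mod_cast h1
    rw [← hdet, hB', Matrix.det_mul, Matrix.det_transpose] at h2
    nlinarith
  have hdB : 1 ≤ |B.det| := by
    rw [← sq_abs] at hge
    nlinarith [abs_nonneg B.det]
  have hB0 : B.det ≠ 0 := by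
    intro h
    rw [h] at hdB
    simp at hdB
    linarith
  have hunit : IsUnit B.det := isUnit_iff_ne_zero.2 hB0
  obtain ⟨T, hT1, hT2⟩ := many_forms (B⁻¹).transpose
    (by rw [Matrix.det_transpose, Matrix.det_nonsing_inv]; simpa using hB0) p hp s hs
    (by
      rw [Matrix.det_transpose, Matrix.det_nonsing_inv]
      rw [Ring.inverse_eq_inv', abs_inv, ← div_eq_mul_inv, div_le_iff₀ (by linarith)]
      have h3 : ((A.det : ℤ) : ℝ) = B.det ^ 2 := by
        rw [← hdet, hB', Matrix.det_mul, Matrix.det_transpose]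
        ring
      rw [h3] at hsp
      have h4 : (2 * (p : ℝ)) ^ 2 ≤ (s ^ r * |B.det|) ^ 2 := by
        rw [mul_pow (s ^ r), sq_abs]
        exact hsp
      exact le_of_pow_le_pow_left₀ two_ne_zero (by positivity) h4)
  refine ⟨T, hT1, fun κ hκT v => ?_⟩
  have hκ := hT2 κ hκT
  set y : Fin r → ℝ := (B⁻¹).transpose.mulVec fun a => (κ a : ℝ) with hy
  have e1 : ∑ a, (κ a : ℝ) * v a = ∑ i, y i * (B.mulVec v) i := by
    have h1 : y ⬝ᵥ B.mulVec v = (fun a => (κ a : ℝ)) ⬝ᵥ v := by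
      rw [hy, Matrix.mulVec_transpose, ← Matrix.dotProduct_mulVec, Matrix.mulVec_mulVec,
        Matrix.nonsing_inv_mul _ hunit, Matrix.one_mulVec]
    simpa [dotProduct] using h1.symm
  have e2 : ∑ i, (B.mulVec v) i ^ 2 = ∑ a, ∑ b, v a * A a b * v b := by
    have h1 : B.mulVec v ⬝ᵥ B.mulVec v = v ⬝ᵥ (A.map (Int.cast : ℤ → ℝ)).mulVec v := by
      rw [hB', ← Matrix.mulVec_mulVec, Matrix.dotProduct_mulVec v, Matrix.vecMul_transpose]
    have h2 : v ⬝ᵥ (A.map (Int.cast : ℤ → ℝ)).mulVec v = ∑ a, ∑ b, v a * A a b * v b := by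
      simp only [dotProduct, Matrix.mulVec, Matrix.map_apply, Finset.mul_sum]
      refine Finset.sum_congr rfl fun a _ => Finset.sum_congr rfl fun b _ => by ring
    rw [← h2, ← h1]
    simp only [dotProduct, sq]
  rw [e1, ← e2]
  calc (∑ i, y i * (B.mulVec v) i) ^ 2 ≤ (∑ i, y i ^ 2) * ∑ i, (B.mulVec v) i ^ 2 :=
        Finset.sum_mul_sq_le_sq_mul_sq _ _ _
    _ ≤ r * s ^ 2 * ∑ i, (B.mulVec v) i ^ 2 := by
        apply mul_le_mul_of_nonneg_right _ (Finset.sum_nonneg fun i _ => sq_nonneg _)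
        calc ∑ i, y i ^ 2 ≤ ∑ _i : Fin r, s ^ 2 := by
              apply Finset.sum_le_sum
              intro i _
              have := hκ i
              rw [← sq_abs]
              exact pow_le_pow_left₀ (abs_nonneg _) this 2
          _ = r * s ^ 2 := by simp

end Pow

end LangForms
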