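import Pool.Agent.Lib_MP_f5471b_q.Circ

/-!
# MP_f5471b_nt: pairs of points with a large sum of local terms
-/

namespace LangForms

namespace Pow

open Finset

variable {X : Type} [AddCommGroup X]

/-- Some pair of different points is at least as good as the average. -/
theorem avg_pair {X : Type} (S : Finset X) (K : X → X → ℝ) (D Y : ℝ) (h2 : 2 ≤ S.card)
    (hdiag : ∀ x, K x x = D) (hY : Y ≤ ∑ x ∈ S, ∑ y ∈ S, K x y) :
    ∃ x ∈ S, ∃ y ∈ S, x ≠ y ∧ Y - S.card * D ≤ ((S.card : ℝ) ^ 2 - S.card) * K x y := by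
  classical
  by_contra hcon
  push Not at hcon
  have hS1 : 0 < S.card := by omega
  have hc : (1 : ℝ) < S.card := by exact_mod_cast (by omega : 1 < S.card)
  have hq : 0 < (S.card : ℝ) ^ 2 - S.card := by nlinarith
  have h1 : ∑ p ∈ S.offDiag, K p.1 p.2 =
      ∑ x ∈ S, ∑ y ∈ S, K x y - S.card * D := by
    have h3 := Finset.sum_product' S S K
    rw [← h3, ← Finset.diag_union_offDiag, Finset.sum_union (Finset.disjoint_diag_offDiag S),
      Finset.sum_diag]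
    simp only [hdiag, Finset.sum_const, nsmul_eq_mul]
    ring
  have h4 : ∑ p ∈ S.offDiag, K p.1 p.2 <
      ∑ p ∈ S.offDiag, (Y - S.card * D) / ((S.card : ℝ) ^ 2 - S.card) := by
    apply Finset.sum_lt_sum_of_nonempty
    · rw [← Finset.card_pos, Finset.offDiag_card]
      have : S.card < S.card * S.card := by nlinarith
      omega
    · intro p hp
      rw [Finset.mem_offDiag] at hp
      rw [lt_div_iff₀ hq, mul_comm]
      exact hcon p.1 hp.1 p.2 hp.2.1 hp.2.2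
  rw [Finset.sum_const, Finset.offDiag_card, nsmul_eq_mul, Nat.cast_sub (by nlinarith)] at h4
  push_cast at h4
  have e : ((S.card : ℝ) * S.card - S.card) * ((Y - S.card * D) /
      ((S.card : ℝ) ^ 2 - S.card)) = Y - S.card * D := by
    rw [show (S.card : ℝ) * S.card - S.card = (S.card : ℝ) ^ 2 - S.card by ring]
    exact mul_div_cancel₀ _ hq.ne'
  rw [e, h1] at h4
  linarith

section

variable {α : Type} (T : Finset α) (L : α → ℝ) (ρ : α → X → ℝ)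

/-- The sum of the local terms. -/
noncomputable def bsum (x : X) : ℝ := ∑ v ∈ T, L v * bv (L v) (ρ v) x

variable {T L ρ}

theorem bsum_psd (hC : ∀ v ∈ T, Circ (L v) (ρ v)) (S : Finset X) :
    PSDk S fun x y => bsum T L ρ (x - y) :=
  PSDk.sum T fun v hv => ((hC v hv).psd_bv S).smul (hC v hv).pos.le

theorem bsum_zero (hC : ∀ v ∈ T, Circ (L v) (ρ v)) : bsum T L ρ 0 = (∑ v ∈ T, L v) / 6 := by
  rw [bsum, Finset.sum_div]
  refine Finset.sum_congr rfl fun v hv => ?_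
  rw [(hC v hv).bv_zero]
  ring

theorem pairA (hC : ∀ v ∈ T, Circ (L v) (ρ v)) (S : Finset X) (hS : 41 ≤ S.card) :
    ∃ x ∈ S, ∃ y ∈ S, x ≠ y ∧ -(∑ v ∈ T, L v) / 240 ≤ bsum T L ρ (x - y) := by
  obtain ⟨x, hx, y, hy, hxy, h⟩ := avg_pair S (fun x y => bsum T L ρ (x - y))
    ((∑ v ∈ T, L v) / 6) 0 (by omega) (fun x => by simp only [sub_self]; exact bsum_zero hC)
    (bsum_psd hC S).sum_nonneg
  refine ⟨x, hx, y, hy, hxy, ?_⟩
  have hW : 0 ≤ ∑ v ∈ T, L v := Finset.sum_nonneg fun v hv => (hC v hv).pos.le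
  have hc : (41 : ℝ) ≤ S.card := by exact_mod_cast hS
  obtain ⟨W, hWd⟩ : ∃ W, W = ∑ v ∈ T, L v := ⟨_, rfl⟩
  obtain ⟨n, hn⟩ : ∃ n : ℝ, n = S.card := ⟨_, rfl⟩
  rw [← hWd, ← hn] at h
  rw [← hWd] at hW ⊢
  rw [← hn] at hc
  by_contra hlt
  push Not at hlt
  have h1 : (n ^ 2 - n) * bsum T L ρ (x - y) < (n ^ 2 - n) * (-W / 240) :=
    mul_lt_mul_of_pos_left hlt (by nlinarith)
  have h2 : 0 - n * (W / 6) < (n ^ 2 - n) * (-W / 240) := lt_of_le_of_lt h h1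
  have h3 : 0 ≤ (n * W) * (n - 41) := mul_nonneg (by positivity) (by linarith)
  nlinarith

theorem bsum_sum (S : Finset X) : ∑ x ∈ S, ∑ y ∈ S, bsum T L ρ (x - y) =
    ∑ v ∈ T, L v * ∑ x ∈ S, ∑ y ∈ S, bv (L v) (ρ v) (x - y) := by
  simp only [bsum, Finset.mul_sum]
  rw [Finset.sum_congr rfl (fun x _ => Finset.sum_comm)]
  rw [Finset.sum_comm]

theorem pairB1 (hC : ∀ v ∈ T, Circ (L v) (ρ v)) (T₁ : Finset α) (hT₁ : T₁ ⊆ T) (n : α → ℕ)
    (hn1 : ∀ v ∈ T₁, 1 ≤ n v) (N : ℝ) (hN : 1 ≤ N) (hnN : ∀ v ∈ T₁, (n v : ℝ) ≤ N)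
    (hint : ∀ v ∈ T₁, ∀ x, ∃ a : ℕ, ρ v x / L v * (2 * n v) = a)
    (hW : ∑ v ∈ T, L v ≤ 4 * ∑ v ∈ T₁, L v) (S : Finset X) (hS : 54 * N ^ 2 ≤ S.card) :
    ∃ x ∈ S, ∃ y ∈ S, x ≠ y ∧ (∑ v ∈ T, L v) / (320 * N ^ 2) ≤ bsum T L ρ (x - y) := by
  classical
  have hNpos : 0 < N := by linarith
  have hc : (54 : ℝ) ≤ S.card := by nlinarith
  have hc' : 54 ≤ S.card := by exact_mod_cast hc
  obtain ⟨W, hWd⟩ : ∃ W, W = ∑ v ∈ T, L v := ⟨_, rfl⟩
  obtain ⟨W₁, hW₁d⟩ : ∃ W₁, W₁ = ∑ v ∈ T₁, L v := ⟨_, rfl⟩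
  have hW0 : 0 ≤ W := by rw [hWd]; exact Finset.sum_nonneg fun v hv => (hC v hv).pos.le
  have hlow : W₁ * (S.card : ℝ) ^ 2 / (40 * N ^ 2) ≤
      ∑ x ∈ S, ∑ y ∈ S, bsum T L ρ (x - y) := by
    rw [bsum_sum]
    have e2 : W₁ * (S.card : ℝ) ^ 2 / (40 * N ^ 2) =
        ∑ v ∈ T₁, L v * ((S.card : ℝ) ^ 2 / (40 * N ^ 2)) := by
      rw [← Finset.sum_mul, ← hW₁d]
      ring
    rw [e2]
    calc ∑ v ∈ T₁, L v * ((S.card : ℝ) ^ 2 / (40 * N ^ 2))
        ≤ ∑ v ∈ T₁, L v * ∑ x ∈ S, ∑ y ∈ S, bv (L v) (ρ v) (x - y) := by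
          refine Finset.sum_le_sum fun v hv => ?_
          refine mul_le_mul_of_nonneg_left ?_ (hC v (hT₁ hv)).pos.le
          refine le_trans ?_ ((hC v (hT₁ hv)).first S (n v) (hn1 v hv) (hint v hv))
          have h0 : (0 : ℝ) < n v := by exact_mod_cast (hn1 v hv)
          have h1 := hnN v hv
          gcongr
      _ ≤ _ := by
          refine Finset.sum_le_sum_of_subset_of_nonneg hT₁ fun v hv _ => ?_
          exact mul_nonneg (hC v hv).pos.le ((hC v hv).psd_bv S).sum_nonneg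
  obtain ⟨x, hx, y, hy, hxy, h⟩ := avg_pair S (fun x y => bsum T L ρ (x - y))
    (W / 6) _ (by omega) (fun x => by
      simp only [sub_self]; rw [hWd]; exact bsum_zero hC) hlow
  refine ⟨x, hx, y, hy, hxy, ?_⟩
  obtain ⟨m, hm⟩ : ∃ m : ℝ, m = S.card := ⟨_, rfl⟩
  rw [← hm] at h hS hc
  rw [← hWd, ← hW₁d] at hW
  rw [← hWd]
  by_contra hlt
  push Not at hlt
  have hm2 : 0 < m ^ 2 - m := by nlinarith
  have h1 : (m ^ 2 - m) * bsum T L ρ (x - y) < (m ^ 2 - m) * (W / (320 * N ^ 2)) :=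
    mul_lt_mul_of_pos_left hlt hm2
  have hN2 : 0 < N ^ 2 := by positivity
  have hq : 0 ≤ W / (320 * N ^ 2) := by positivity
  have h2 : (m ^ 2 - m) * (W / (320 * N ^ 2)) ≤ m ^ 2 * (W / (320 * N ^ 2)) :=
    mul_le_mul_of_nonneg_right (by linarith) hq
  have h3 : W₁ * m ^ 2 / (40 * N ^ 2) - m * (W / 6) < m ^ 2 * (W / (320 * N ^ 2)) :=
    lt_of_lt_of_le (lt_of_le_of_lt h h1) h2
  have h4 : W / 4 * m ^ 2 / (40 * N ^ 2) ≤ W₁ * m ^ 2 / (40 * N ^ 2) := by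
    gcongr
    linarith
  have h5 : W / 4 * m ^ 2 / (40 * N ^ 2) = 2 * (m ^ 2 * (W / (320 * N ^ 2))) := by
    field_simp
    ring
  have h6 : m ^ 2 * (W / (320 * N ^ 2)) < m * (W / 6) := by linarith
  have h7 : m * (W / 6) ≤ m ^ 2 * (W / (320 * N ^ 2)) := by
    have e : m ^ 2 * (W / (320 * N ^ 2)) = m * W * (m / (320 * N ^ 2)) := by ring
    have e' : m * (W / 6) = m * W * (1 / 6) := by ring
    rw [e, e']
    refine mul_le_mul_of_nonneg_left ?_ (by positivity)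
    rw [div_le_div_iff₀ (by norm_num) (by positivity)]
    linarith
  linarith

theorem bsum_sq (hC : ∀ v ∈ T, Circ (L v) (ρ v)) (S : Finset X) :
    (∑ v ∈ T, L v ^ 2) / 195 * (S.card : ℝ) ^ 2 ≤
      ∑ x ∈ S, ∑ y ∈ S, bsum T L ρ (x - y) ^ 2 := by
  classical
  have e1 : ∑ x ∈ S, ∑ y ∈ S, bsum T L ρ (x - y) ^ 2 =
      ∑ v ∈ T, ∑ w ∈ T, L v * L w *
        ∑ x ∈ S, ∑ y ∈ S, bv (L v) (ρ v) (x - y) * bv (L w) (ρ w) (x - y) := by
    have e2 : ∀ z : X, bsum T L ρ z ^ 2 = ∑ v ∈ T, ∑ w ∈ T,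
        L v * L w * (bv (L v) (ρ v) z * bv (L w) (ρ w) z) := by
      intro z
      rw [bsum, sq, Finset.sum_mul_sum]
      refine Finset.sum_congr rfl fun v _ => Finset.sum_congr rfl fun w _ => ?_
      ring
    simp only [e2, Finset.mul_sum]
    rw [Finset.sum_congr rfl (fun x _ => Finset.sum_comm)]
    rw [Finset.sum_comm]
    refine Finset.sum_congr rfl fun v _ => ?_
    rw [Finset.sum_congr rfl (fun x _ => Finset.sum_comm)]
    rw [Finset.sum_comm]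
  rw [e1, Finset.sum_div, Finset.sum_mul]
  refine Finset.sum_le_sum fun v hv => ?_
  have h1 := (hC v hv).second S
  have hLv := (hC v hv).pos
  calc L v ^ 2 / 195 * (S.card : ℝ) ^ 2 = L v * L v * ((S.card : ℝ) ^ 2 / 195) := by ring
    _ ≤ L v * L v * ∑ x ∈ S, ∑ y ∈ S, bv (L v) (ρ v) (x - y) * bv (L v) (ρ v) (x - y) :=
        mul_le_mul_of_nonneg_left h1 (by positivity)
    _ ≤ _ := by
        refine Finset.single_le_sum (f := fun w => L v * L w *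
          ∑ x ∈ S, ∑ y ∈ S, bv (L v) (ρ v) (x - y) * bv (L w) (ρ w) (x - y)) ?_ hv
        intro w hw
        refine mul_nonneg (mul_nonneg hLv.le (hC w hw).pos.le) ?_
        exact ((hC w hw).psd_mul_bv ((hC v hv).psd_bv S)).sum_nonneg

theorem pairB2 (hC : ∀ v ∈ T, Circ (L v) (ρ v)) (T₂ : Finset α) (hT₂ : T₂ ⊆ T)
    (N : ℝ) (hN : 1 ≤ N) (hLN : ∀ v ∈ T₂, N / 2 ≤ L v)
    (hWp : 0 < ∑ v ∈ T, L v) (hW : ∑ v ∈ T, L v ≤ 4 * ∑ v ∈ T₂, L v)
    (S : Finset X) (hS : 2240 * (∑ v ∈ T, L v) / N ≤ S.card) (β : ℝ) (hβ : 0 ≤ β)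
    (hβ3 : β ^ 3 * 19200 ^ 2 ≤ (∑ v ∈ T, L v) * N ^ 2) :
    ∃ x ∈ S, ∃ y ∈ S, x ≠ y ∧ β ≤ bsum T L ρ (x - y) := by
  classical
  have hNpos : 0 < N := by linarith
  obtain ⟨W, hWd⟩ : ∃ W, W = ∑ v ∈ T, L v := ⟨_, rfl⟩
  obtain ⟨W₂, hW₂d⟩ : ∃ W₂, W₂ = ∑ v ∈ T₂, L v := ⟨_, rfl⟩
  rw [← hWd] at hWp hS hβ3
  rw [← hWd, ← hW₂d] at hW
  have hW₂W : W₂ ≤ W := by
    rw [hWd, hW₂d]
    exact Finset.sum_le_sum_of_subset_of_nonneg hT₂ fun v hv _ => (hC v hv).pos.le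
  -- the second moment of the weights
  have hcard : (T₂.card : ℝ) * (N / 2) ≤ W := by
    refine le_trans ?_ hW₂W
    rw [hW₂d, ← nsmul_eq_mul, ← Finset.sum_const]
    exact Finset.sum_le_sum hLN
  have hcs : W₂ ^ 2 ≤ T₂.card * ∑ v ∈ T₂, L v ^ 2 := by
    rw [hW₂d]
    exact sq_sum_le_card_mul_sum_sq
  have hsq2 : ∑ v ∈ T₂, L v ^ 2 ≤ ∑ v ∈ T, L v ^ 2 :=
    Finset.sum_le_sum_of_subset_of_nonneg hT₂ fun v _ _ => sq_nonneg _
  obtain ⟨Q, hQ⟩ : ∃ Q, Q = ∑ v ∈ T, L v ^ 2 := ⟨_, rfl⟩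
  have hT₂ne : T₂.Nonempty := by
    by_contra hne
    rw [Finset.not_nonempty_iff_eq_empty] at hne
    rw [hne] at hW₂d
    simp at hW₂d
    linarith
  have hNW : N ≤ 2 * W := by
    have h1 : (1 : ℝ) ≤ T₂.card := by exact_mod_cast hT₂ne.card_pos
    nlinarith
  have hQlow : N * W / 32 ≤ Q := by
    have h1 : (W / 4) ^ 2 ≤ W₂ ^ 2 := pow_le_pow_left₀ (by positivity) (by linarith) 2
    have h2 : (W / 4) ^ 2 ≤ T₂.card * Q := by
      refine h1.trans (hcs.trans ?_)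
      rw [hQ]
      exact mul_le_mul_of_nonneg_left hsq2 (Nat.cast_nonneg _)
    have hQ0 : 0 ≤ Q := by rw [hQ]; exact Finset.sum_nonneg fun v _ => sq_nonneg _
    have h3 : (W / 4) ^ 2 * (N / 2) ≤ W * Q := by
      calc (W / 4) ^ 2 * (N / 2) ≤ T₂.card * Q * (N / 2) :=
            mul_le_mul_of_nonneg_right h2 (by positivity)
        _ = T₂.card * (N / 2) * Q := by ring
        _ ≤ W * Q := mul_le_mul_of_nonneg_right hcard hQ0
    have h4 : W * (N * W / 32) ≤ W * Q := by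
      calc W * (N * W / 32) = (W / 4) ^ 2 * (N / 2) := by ring
        _ ≤ _ := h3
    exact le_of_mul_le_mul_left h4 hWp
  obtain ⟨κ, hκ⟩ : ∃ κ, κ = N / (32 * W) := ⟨_, rfl⟩
  have hκ0 : 0 < κ := by rw [hκ]; positivity
  have hκ1 : κ ≤ 1 / 16 := by
    rw [hκ, div_le_div_iff₀ (by positivity) (by norm_num)]
    linarith
  obtain ⟨τ, hτ⟩ : ∃ τ, τ = (κ / 600) ^ (1 / 3 : ℝ) := ⟨_, rfl⟩
  have hτ0 : 0 < τ := by rw [hτ]; positivity
  have hτ3 : τ ^ 3 = κ / 600 := by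
    rw [hτ, ← Real.rpow_natCast, ← Real.rpow_mul (by positivity)]
    norm_num
  have hτ1 : τ ≤ 1 / 2 := by
    by_contra hlt
    push Not at hlt
    have h1 : (1 / 2 : ℝ) ^ 3 < τ ^ 3 := pow_lt_pow_left₀ hlt (by norm_num) (by norm_num)
    rw [hτ3] at h1
    linarith
  have hsym : ∀ x y : X, bsum T L ρ (x - y) / W = bsum T L ρ (y - x) / W := by
    intro x y
    congr 1
    rw [bsum, bsum]
    refine Finset.sum_congr rfl fun v hv => ?_
    rw [bv, bv, (hC v hv).sub_comm]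
  obtain ⟨x, hx, y, hy, hxy, h⟩ := code_step (S := S)
    (K := fun x y => bsum T L ρ (x - y) / W)
    (by
      have h1 := (bsum_psd hC S).smul (a := W⁻¹) (by positivity)
      refine fun c => (h1 c).trans (le_of_eq ?_)
      refine Finset.sum_congr rfl fun x _ => Finset.sum_congr rfl fun y _ => ?_
      change c x * c y * (W⁻¹ * bsum T L ρ (x - y)) = c x * c y * (bsum T L ρ (x - y) / W)
      rw [div_eq_inv_mul])
    hsym
    (fun x => by
      simp only [sub_self]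
      rw [bsum_zero hC, ← hWd]
      field_simp)
    κ τ
    (by
      have h1 := bsum_sq hC S
      rw [← hQ] at h1
      have e : ∑ x ∈ S, ∑ y ∈ S, (bsum T L ρ (x - y) / W) ^ 2 =
          (∑ x ∈ S, ∑ y ∈ S, bsum T L ρ (x - y) ^ 2) / W ^ 2 := by
        rw [Finset.sum_div]
        refine Finset.sum_congr rfl fun x _ => ?_
        rw [Finset.sum_div]
        refine Finset.sum_congr rfl fun y _ => ?_
        rw [div_pow]
      rw [e, le_div_iff₀ (by positivity)]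
      refine le_trans ?_ h1
      have e2 : κ / 195 * (S.card : ℝ) ^ 2 * W ^ 2 = (N * W / 32) / 195 * (S.card : ℝ) ^ 2 := by
        rw [hκ]
        field_simp
      rw [e2]
      gcongr)
    hκ0 hτ0 hτ1 hτ3.le
    (by
      have h1 : κ * (2240 * W / N) = 70 := by
        rw [hκ]
        field_simp
        norm_num
      rw [← h1]
      exact mul_le_mul_of_nonneg_left hS hκ0.le)
  refine ⟨x, hx, y, hy, hxy, ?_⟩
  have h1 : τ ^ 2 * W < bsum T L ρ (x - y) := by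
    rwa [lt_div_iff₀ hWp] at h
  refine le_trans ?_ h1.le
  have h2 : β ^ 3 ≤ (τ ^ 2 * W) ^ 3 := by
    have e : (τ ^ 2 * W) ^ 3 = (τ ^ 3) ^ 2 * W ^ 3 := by ring
    rw [e, hτ3, hκ]
    have e2 : (N / (32 * W) / 600) ^ 2 * W ^ 3 = W * N ^ 2 / 19200 ^ 2 := by
      field_simp
      norm_num
    rw [e2, le_div_iff₀ (by norm_num)]
    exact hβ3
  exact le_of_pow_le_pow_left₀ (by norm_num) (by positivity) h2

end

end Pow

end LangForms
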