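import Pool.Agent.Lib_MP_f5471b_q.Pairs

/-!
# MP_f5471b_nt: pairs of points, third moment
-/

namespace LangForms

namespace Pow

open Finset

/-- If the first and third moments are nonnegative and the second moment is large, some pair of
different points has a large value. -/
theorem third_step {X : Type} {S : Finset X} {K : X → X → ℝ}
    (h1 : 0 ≤ ∑ x ∈ S, ∑ y ∈ S, K x y) (h3 : 0 ≤ ∑ x ∈ S, ∑ y ∈ S, K x y ^ 3)
    (hdiag : ∀ x, K x x = 1 / 6) (κ β : ℝ)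
    (h2 : κ / 195 * (S.card : ℝ) ^ 2 ≤ ∑ x ∈ S, ∑ y ∈ S, K x y ^ 2) (hβ0 : 0 < β) (hβ1 : β ≤ 1)
    (hκ : 450 * β ^ 2 ≤ κ) (hn : 1 ≤ β ^ 3 * S.card) :
    ∃ x ∈ S, ∃ y ∈ S, x ≠ y ∧ β ≤ K x y := by
  classical
  by_contra hcon
  push Not at hcon
  obtain ⟨n, hnd⟩ : ∃ n : ℝ, n = S.card := ⟨_, rfl⟩
  have hn0 : 0 < n := by
    rw [← hnd] at hn
    by_contra hle
    push Not at hle
    have : β ^ 3 * n ≤ 0 := mul_nonpos_of_nonneg_of_nonpos (by positivity) hle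
    linarith
  obtain ⟨F, hF⟩ : ∃ F : ℝ → ℝ, F = fun k => k ^ 2 + β / 2 * k + 1 / (2 * β) * k ^ 3 := ⟨_, rfl⟩
  have hF1 : ∀ k, k < β → F k ≤ 2 * β ^ 2 := by
    intro k hk
    have e : F k = k / (2 * β) * (k + β) ^ 2 := by
      rw [hF]
      field_simp
      ring
    rw [e]
    rcases le_total k 0 with h | h
    · have h4 : k / (2 * β) ≤ 0 := div_nonpos_of_nonpos_of_nonneg h (by positivity)
      have h5 : k / (2 * β) * (k + β) ^ 2 ≤ 0 :=
        mul_nonpos_of_nonpos_of_nonneg h4 (sq_nonneg _)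
      have h6 : 0 ≤ 2 * β ^ 2 := by positivity
      linarith
    · have h4 : k / (2 * β) ≤ 1 / 2 := by
        rw [div_le_div_iff₀ (by positivity) (by norm_num)]
        linarith
      have h5 : (k + β) ^ 2 ≤ (2 * β) ^ 2 := pow_le_pow_left₀ (by linarith) (by linarith) 2
      calc k / (2 * β) * (k + β) ^ 2 ≤ 1 / 2 * (2 * β) ^ 2 :=
            mul_le_mul h4 h5 (by positivity) (by norm_num)
        _ = 2 * β ^ 2 := by ring
  obtain ⟨D, hD⟩ : ∃ D : ℝ, D = F (1 / 6) := ⟨_, rfl⟩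
  have hup : ∑ x ∈ S, ∑ y ∈ S, F (K x y) ≤ n * D + n ^ 2 * (2 * β ^ 2) := by
    have h4 : ∀ x ∈ S, ∑ y ∈ S, F (K x y) ≤ D + n * (2 * β ^ 2) := by
      intro x hx
      have h5 : ∀ y ∈ S, F (K x y) ≤ (if x = y then D else 0) + 2 * β ^ 2 := by
        intro y hy
        by_cases hxy : x = y
        · rw [if_pos hxy, ← hxy, hdiag, hD]
          have : 0 ≤ 2 * β ^ 2 := by positivity
          linarith
        · rw [if_neg hxy, zero_add]
          exact hF1 _ (hcon x hx y hy hxy)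
      refine (Finset.sum_le_sum h5).trans (le_of_eq ?_)
      rw [Finset.sum_add_distrib, Finset.sum_ite_eq, if_pos hx, Finset.sum_const, nsmul_eq_mul,
        hnd]
    refine (Finset.sum_le_sum h4).trans (le_of_eq ?_)
    rw [Finset.sum_const, nsmul_eq_mul, ← hnd]
    ring
  have hlow : κ / 195 * n ^ 2 ≤ ∑ x ∈ S, ∑ y ∈ S, F (K x y) := by
    have e : ∑ x ∈ S, ∑ y ∈ S, F (K x y) = ∑ x ∈ S, ∑ y ∈ S, K x y ^ 2 +
        β / 2 * ∑ x ∈ S, ∑ y ∈ S, K x y + 1 / (2 * β) * ∑ x ∈ S, ∑ y ∈ S, K x y ^ 3 := by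
      rw [hF]
      simp only [Finset.sum_add_distrib, Finset.mul_sum]
    rw [e]
    rw [← hnd] at h2
    have h5 : 0 ≤ β / 2 * ∑ x ∈ S, ∑ y ∈ S, K x y := mul_nonneg (by positivity) h1
    have h6 : 0 ≤ 1 / (2 * β) * ∑ x ∈ S, ∑ y ∈ S, K x y ^ 3 := mul_nonneg (by positivity) h3
    linarith
  rw [← hnd] at hn
  have hDle : n * D ≤ n ^ 2 * β ^ 2 * (1 / 8) := by
    have hD1 : β * D ≤ 1 / 8 := by
      rw [hD, hF]
      have e : β * ((1 / 6 : ℝ) ^ 2 + β / 2 * (1 / 6) + 1 / (2 * β) * (1 / 6) ^ 3) =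
          β / 36 + β ^ 2 / 12 + 1 / 432 := by
        field_simp
        ring
      simp only
      rw [e]
      nlinarith
    have hD0 : 0 ≤ D := by rw [hD, hF]; positivity
    calc n * D ≤ β ^ 3 * n * (n * D) := le_mul_of_one_le_left (by positivity) hn
      _ = n ^ 2 * β ^ 2 * (β * D) := by ring
      _ ≤ n ^ 2 * β ^ 2 * (1 / 8) := mul_le_mul_of_nonneg_left hD1 (by positivity)
  have h7 : 450 / 195 * (n ^ 2 * β ^ 2) ≤ κ / 195 * n ^ 2 := by
    have := mul_le_mul_of_nonneg_right hκ (by positivity : 0 ≤ n ^ 2 / 195)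
    linarith
  have h8 : 0 < n ^ 2 * β ^ 2 := by positivity
  linarith

section

variable {X : Type} [AddCommGroup X] {α : Type} {T : Finset α} {L : α → ℝ} {ρ : α → X → ℝ}

theorem bsum_psd_mul (hC : ∀ v ∈ T, Circ (L v) (ρ v)) {S : Finset X} {K : X → X → ℝ}
    (hK : PSDk S K) : PSDk S fun x y => K x y * bsum T L ρ (x - y) := by
  have h1 := PSDk.sum T (K := fun v x y => L v * (K x y * bv (L v) (ρ v) (x - y)))
    fun v hv => ((hC v hv).psd_mul_bv hK).smul (hC v hv).pos.le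
  refine fun c => (h1 c).trans (le_of_eq ?_)
  refine Finset.sum_congr rfl fun x _ => Finset.sum_congr rfl fun y _ => ?_
  simp only [bsum, Finset.mul_sum]
  refine Finset.sum_congr rfl fun v _ => ?_
  ring

theorem pairB3 (hC : ∀ v ∈ T, Circ (L v) (ρ v)) (T₂ : Finset α) (hT₂ : T₂ ⊆ T)
    (N : ℝ) (hN : 1 ≤ N) (hLN : ∀ v ∈ T₂, N / 2 ≤ L v)
    (hWp : 0 < ∑ v ∈ T, L v) (hW : ∑ v ∈ T, L v ≤ 4 * ∑ v ∈ T₂, L v)
    (S : Finset X) (hS : (14400 * (∑ v ∈ T, L v) / N) ^ 3 ≤ (S.card : ℝ) ^ 2) (β : ℝ)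
    (hβ2 : β ^ 2 * 14400 ≤ (∑ v ∈ T, L v) * N) :
    ∃ x ∈ S, ∃ y ∈ S, x ≠ y ∧ β ≤ bsum T L ρ (x - y) := by
  classical
  have hNpos : 0 < N := by linarith
  obtain ⟨W, hWd⟩ : ∃ W, W = ∑ v ∈ T, L v := ⟨_, rfl⟩
  obtain ⟨W₂, hW₂d⟩ : ∃ W₂, W₂ = ∑ v ∈ T₂, L v := ⟨_, rfl⟩
  rw [← hWd] at hWp hS hβ2
  rw [← hWd, ← hW₂d] at hW
  have hW₂W : W₂ ≤ W := by
    rw [hWd, hW₂d]
    exact Finset.sum_le_sum_of_subset_of_nonneg hT₂ fun v hv _ => (hC v hv).pos.le
  -- the second moment of the weights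
  have hcard : (T₂.card : ℝ) * (N / 2) ≤ W := by
    refine le_trans ?_ hW₂W
    rw [hW₂d, ← nsmul_eq_mul, ← Finset.sum_const]
    exact Finset.sum_le_sum hLN
  have hcs : W₂ ^ 2 ≤ T₂.card * ∑ v ∈ T₂, L v ^ 2 := by
    rw [hW₂d]
    exact sq_sum_le_card_mul_sum_sq
  have hsq2 : ∑ v ∈ T₂, L v ^ 2 ≤ ∑ v ∈ T, L v ^ 2 :=
    Finset.sum_le_sum_of_subset_of_nonneg hT₂ fun v _ _ => sq_nonneg _
  obtain ⟨Q, hQ⟩ : ∃ Q, Q = ∑ v ∈ T, L v ^ 2 := ⟨_, rfl⟩
  have hT₂ne : T₂.Nonempty := by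
    by_contra hne
    rw [Finset.not_nonempty_iff_eq_empty] at hne
    rw [hne] at hW₂d
    simp at hW₂d
    linarith
  have hNW : N ≤ 2 * W := by
    have h1 : (1 : ℝ) ≤ T₂.card := by exact_mod_cast hT₂ne.card_pos
    nlinarith
  have hQlow : N * W / 32 ≤ Q := by
    have h1 : (W / 4) ^ 2 ≤ W₂ ^ 2 := pow_le_pow_left₀ (by positivity) (by linarith) 2
    have h2 : (W / 4) ^ 2 ≤ T₂.card * Q := by
      refine h1.trans (hcs.trans ?_)
      rw [hQ]
      exact mul_le_mul_of_nonneg_left hsq2 (Nat.cast_nonneg _)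
    have hQ0 : 0 ≤ Q := by rw [hQ]; exact Finset.sum_nonneg fun v _ => sq_nonneg _
    have h3 : (W / 4) ^ 2 * (N / 2) ≤ W * Q := by
      calc (W / 4) ^ 2 * (N / 2) ≤ T₂.card * Q * (N / 2) :=
            mul_le_mul_of_nonneg_right h2 (by positivity)
        _ = T₂.card * (N / 2) * Q := by ring
        _ ≤ W * Q := mul_le_mul_of_nonneg_right hcard hQ0
    have h4 : W * (N * W / 32) ≤ W * Q := by
      calc W * (N * W / 32) = (W / 4) ^ 2 * (N / 2) := by ring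
        _ ≤ _ := h3
    exact le_of_mul_le_mul_left h4 hWp
  obtain ⟨κ, hκ⟩ : ∃ κ, κ = N / (32 * W) := ⟨_, rfl⟩
  have hκ0 : 0 < κ := by rw [hκ]; positivity
  have hκ1 : κ ≤ 1 / 16 := by
    rw [hκ, div_le_div_iff₀ (by positivity) (by norm_num)]
    linarith
  obtain ⟨τ, hτ⟩ : ∃ τ, τ = Real.sqrt (κ / 450) := ⟨_, rfl⟩
  have hτ0 : 0 < τ := by rw [hτ]; exact Real.sqrt_pos.2 (by positivity)
  have hτ2 : τ ^ 2 = κ / 450 := by
    rw [hτ, Real.sq_sqrt (by positivity)]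
  have hτ1 : τ ≤ 1 := by
    by_contra hlt
    push Not at hlt
    have h1 : (1 : ℝ) ^ 2 < τ ^ 2 := pow_lt_pow_left₀ hlt (by norm_num) (by norm_num)
    rw [hτ2] at h1
    linarith
  have hn1 : 1 ≤ τ ^ 3 * (S.card : ℝ) := by
    have h1 : (1 : ℝ) ^ 2 ≤ (τ ^ 3 * (S.card : ℝ)) ^ 2 := by
      have e : (τ ^ 3 * (S.card : ℝ)) ^ 2 = (τ ^ 2) ^ 3 * (S.card : ℝ) ^ 2 := by ring
      rw [e, hτ2]
      have h2 := mul_le_mul_of_nonneg_left hS (by positivity : 0 ≤ (κ / 450) ^ 3)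
      refine le_trans (le_of_eq ?_) h2
      rw [hκ]
      field_simp
      norm_num
    exact le_of_pow_le_pow_left₀ (by norm_num) (by positivity) h1
  obtain ⟨x, hx, y, hy, hxy, h⟩ := third_step (S := S)
    (K := fun x y => bsum T L ρ (x - y) / W)
    (by
      have h1 := (bsum_psd hC S).sum_nonneg
      have e : ∑ x ∈ S, ∑ y ∈ S, bsum T L ρ (x - y) / W =
          (∑ x ∈ S, ∑ y ∈ S, bsum T L ρ (x - y)) / W := by
        rw [Finset.sum_div]
        exact Finset.sum_congr rfl fun x _ => (Finset.sum_div _ _ _).symm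
      rw [e]
      positivity)
    (by
      have h1 := (bsum_psd_mul hC (bsum_psd_mul hC (bsum_psd hC S))).sum_nonneg
      have e : ∑ x ∈ S, ∑ y ∈ S, (bsum T L ρ (x - y) / W) ^ 3 =
          (∑ x ∈ S, ∑ y ∈ S, bsum T L ρ (x - y) * bsum T L ρ (x - y) * bsum T L ρ (x - y)) /
            W ^ 3 := by
        rw [Finset.sum_div]
        refine Finset.sum_congr rfl fun x _ => ?_
        rw [Finset.sum_div]
        refine Finset.sum_congr rfl fun y _ => ?_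
        rw [div_pow]
        ring
      rw [e]
      positivity)
    (fun x => by
      simp only [sub_self]
      rw [bsum_zero hC, ← hWd]
      field_simp)
    κ τ
    (by
      have h1 := bsum_sq hC S
      rw [← hQ] at h1
      have e : ∑ x ∈ S, ∑ y ∈ S, (bsum T L ρ (x - y) / W) ^ 2 =
          (∑ x ∈ S, ∑ y ∈ S, bsum T L ρ (x - y) ^ 2) / W ^ 2 := by
        rw [Finset.sum_div]
        refine Finset.sum_congr rfl fun x _ => ?_
        rw [Finset.sum_div]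
        refine Finset.sum_congr rfl fun y _ => ?_
        rw [div_pow]
      rw [e, le_div_iff₀ (by positivity)]
      refine le_trans ?_ h1
      have e2 : κ / 195 * (S.card : ℝ) ^ 2 * W ^ 2 = (N * W / 32) / 195 * (S.card : ℝ) ^ 2 := by
        rw [hκ]
        field_simp
      rw [e2]
      gcongr)
    hτ0 hτ1 (by rw [hτ2]; linarith) hn1
  refine ⟨x, hx, y, hy, hxy, ?_⟩
  have h1 : τ * W ≤ bsum T L ρ (x - y) := by
    rwa [le_div_iff₀ hWp] at h
  refine le_trans ?_ h1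
  have h2 : β ^ 2 ≤ (τ * W) ^ 2 := by
    rw [mul_pow, hτ2, hκ]
    have e2 : N / (32 * W) / 450 * W ^ 2 = W * N / 14400 := by
      field_simp
      norm_num
    rw [e2, le_div_iff₀ (by norm_num)]
    exact hβ2
  exact le_of_pow_le_pow_left₀ (by norm_num) (by positivity) h2

end

end Pow

end LangForms
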