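import Pool.Agent.Lib_MP_f5471b_q.LatStep

/-!
# MP_f5471b_nt: lower bound for the Gram determinant
-/

namespace LangForms

namespace Pow

open Matrix Filter Topology
open scoped MatrixOrder

/-- The Gram matrix. -/
noncomputable def gramX {X : Type} [AddCommGroup X] {g : ℕ} (q : X → ℝ) (P : Fin g → X) :
    Matrix (Fin g) (Fin g) ℝ := Matrix.of fun a b => pairX q (P a) (P b)

theorem gramX_psd {X : Type} [AddCommGroup X] {g : ℕ} (q : X → ℝ)
    (hpar : ∀ P Q, q (P + Q) + q (P - Q) = 2 * q P + 2 * q Q) (hq : ∀ P, 0 ≤ q P)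
    (P : Fin g → X) : (gramX q P).PosSemidef := by
  refine Matrix.PosSemidef.of_dotProduct_mulVec_nonneg ?_ ?_
  · ext a b
    simp [gramX, Matrix.conjTranspose_apply, psd_pairX_comm hpar (P b) (P a)]
  · intro v
    have h1 := psd_nonneg_of_int (fun a b => pairX q (P a) (P b)) (fun m => by
      rw [← psd_q_Phi hpar]; exact hq _) v
    have h2 : star v ⬝ᵥ (gramX q P).mulVec v = ∑ a, ∑ b, v a * pairX q (P a) (P b) * v b := by
      simp only [dotProduct, Matrix.mulVec, gramX, Matrix.of_apply, Pi.star_apply, star_trivial]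
      refine Finset.sum_congr rfl fun a _ => ?_
      rw [Finset.mul_sum]
      refine Finset.sum_congr rfl fun b _ => ?_
      ring
    rw [h2]
    exact h1

theorem reg_eps {g : ℕ} (hg : 1 ≤ g) {X : Type} [AddCommGroup X] (q : X → ℝ)
    (hpar : ∀ P Q, q (P + Q) + q (P - Q) = 2 * q P + 2 * q Q) (hq : ∀ P, 0 ≤ q P)
    (P : Fin g → X) (hP : LinearIndependent ℤ P) (m b : ℝ) (hm : 1 ≤ m)
    (hSp : ∀ S : Finset X, m ≤ S.card → (∀ x ∈ S, ∃ ℓ, Phi P ℓ = x) →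
      ∃ x ∈ S, ∃ y ∈ S, x ≠ y ∧ b ≤ q (x - y)) (ε : ℝ) (hε : 0 < ε) :
    b ≤ 256 * g * m ^ (2 / g : ℝ) * (gramX q P + ε • (1 : Matrix (Fin g) (Fin g) ℝ)).det ^
      (1 / g : ℝ) := by
  classical
  have hg0 : (0 : ℝ) < g := by exact_mod_cast hg
  have hg1 : (1 : ℝ) ≤ g := by exact_mod_cast hg
  obtain ⟨G, hG⟩ : ∃ G, G = gramX q P + ε • (1 : Matrix (Fin g) (Fin g) ℝ) := ⟨_, rfl⟩
  have hpd : G.PosDef := by
    rw [hG]
    exact Matrix.PosDef.posSemidef_add (gramX_psd q hpar hq P) (Matrix.PosDef.one.smul hε)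
  rw [← hG]
  obtain ⟨B, hB⟩ := CStarAlgebra.nonneg_iff_eq_star_mul_self.mp hpd.posSemidef.nonneg
  have hB' : G = B.transpose * B := by
    rw [hB]
    simp [star_eq_conjTranspose]
  obtain ⟨Δ, hΔ⟩ : ∃ Δ, Δ = G.det := ⟨_, rfl⟩
  have hΔ0 : 0 < Δ := by rw [hΔ]; exact hpd.det_pos
  have hΔB : Δ = B.det ^ 2 := by
    rw [hΔ, hB', Matrix.det_mul, Matrix.det_transpose]
    ring
  have hBd : |B.det| = Δ ^ (1 / 2 : ℝ) := by
    rw [hΔB, ← Real.sqrt_eq_rpow, Real.sqrt_sq_eq_abs]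
  have hB0 : B.det ≠ 0 := by
    intro h
    rw [h] at hΔB
    norm_num at hΔB
    linarith
  -- the prime
  obtain ⟨n₀, hn₀⟩ : ∃ n₀ : ℕ, n₀ = ⌈m⌉₊ := ⟨_, rfl⟩
  have hn₀1 : m ≤ n₀ := by rw [hn₀]; exact Nat.le_ceil m
  have hn₀2 : (n₀ : ℝ) < m + 1 := by rw [hn₀]; exact Nat.ceil_lt_add_one (by linarith)
  have hn₀pos : n₀ ≠ 0 := by
    intro h
    rw [h] at hn₀1
    norm_num at hn₀1
    linarith
  obtain ⟨p, hp, hp1, hp2⟩ := Nat.exists_prime_lt_and_le_two_mul n₀ hn₀pos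
  have hp1' : (n₀ : ℝ) < p := by exact_mod_cast hp1
  have hp2' : (p : ℝ) ≤ 2 * n₀ := by exact_mod_cast hp2
  obtain ⟨s, hs⟩ : ∃ s : ℝ, s = (8 * m) ^ (1 / g : ℝ) * Δ ^ ((1 / 2) * (1 / g) : ℝ) := ⟨_, rfl⟩
  have hs0 : 0 < s := by rw [hs]; positivity
  have hsg : s ^ g = 8 * m * Δ ^ (1 / 2 : ℝ) := by
    have e1 : ((8 * m) ^ (1 / g : ℝ)) ^ g = 8 * m := by
      rw [← Real.rpow_natCast, ← Real.rpow_mul (by positivity), one_div_mul_cancel hg0.ne',
        Real.rpow_one]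
    have e2 : (Δ ^ ((1 / 2) * (1 / g) : ℝ)) ^ g = Δ ^ (1 / 2 : ℝ) := by
      rw [← Real.rpow_natCast, ← Real.rpow_mul hΔ0.le]
      congr 1
      field_simp
    rw [hs, mul_pow, e1, e2]
  have hs2 : s ^ 2 ≤ 64 * m ^ (2 / g : ℝ) * Δ ^ (1 / g : ℝ) := by
    have e1 : ((8 * m) ^ (1 / g : ℝ)) ^ 2 = (8 * m) ^ (2 / g : ℝ) := by
      rw [← Real.rpow_natCast, ← Real.rpow_mul (by positivity)]
      congr 1
      push_cast
      ring
    have e2 : (Δ ^ ((1 / 2) * (1 / g) : ℝ)) ^ 2 = Δ ^ (1 / g : ℝ) := by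
      rw [← Real.rpow_natCast, ← Real.rpow_mul hΔ0.le]
      congr 1
      push_cast
      ring
    rw [hs, mul_pow, e1, e2, Real.mul_rpow (by norm_num) (by linarith)]
    refine mul_le_mul_of_nonneg_right ?_ (by positivity)
    refine mul_le_mul_of_nonneg_right ?_ (by positivity)
    have h1 : (8 : ℝ) ^ (2 / g : ℝ) ≤ 8 ^ (2 : ℝ) :=
      Real.rpow_le_rpow_of_exponent_le (by norm_num) (by
        rw [div_le_iff₀ hg0]; linarith)
    refine h1.trans (le_of_eq ?_)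
    norm_num
  obtain ⟨T, hT1, hT2⟩ := many_forms B hB0 p hp s hs0 (by
    rw [hBd, hsg]
    exact mul_le_mul_of_nonneg_right (by linarith) (by positivity))
  have hinj : Function.Injective (Phi P) := by
    intro ℓ ℓ' h
    have h1 : Phi P (ℓ - ℓ') = 0 := by rw [Phi_sub, h, sub_self]
    have h2 := Fintype.linearIndependent_iff.1 hP (ℓ - ℓ') h1
    funext a
    have := h2 a
    rw [Pi.sub_apply] at this
    omega
  obtain ⟨x, hx, y, hy, hxy, hle⟩ := hSp (T.image (Phi P)) (by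
    rw [Finset.card_image_of_injective _ hinj]
    have : (p : ℝ) ≤ T.card := by exact_mod_cast hT1
    linarith) (fun x hx => by
      obtain ⟨ℓ, _, rfl⟩ := Finset.mem_image.1 hx
      exact ⟨ℓ, rfl⟩)
  obtain ⟨ℓ, hℓ, rfl⟩ := Finset.mem_image.1 hx
  obtain ⟨ℓ', hℓ', rfl⟩ := Finset.mem_image.1 hy
  rw [← Phi_sub, psd_q_Phi hpar] at hle
  obtain ⟨v, hv⟩ : ∃ v : Fin g → ℝ, v = fun a => (((ℓ - ℓ') a : ℤ) : ℝ) := ⟨_, rfl⟩
  have hq1 : ∑ a, ∑ b, v a * pairX q (P a) (P b) * v b ≤ ∑ i, (B.mulVec v) i ^ 2 := by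
    have h1 : B.mulVec v ⬝ᵥ B.mulVec v = v ⬝ᵥ G.mulVec v := by
      rw [hB', ← Matrix.mulVec_mulVec, Matrix.dotProduct_mulVec v, Matrix.vecMul_transpose]
    have h2 : v ⬝ᵥ G.mulVec v = ∑ a, ∑ b, v a * pairX q (P a) (P b) * v b + ε * (v ⬝ᵥ v) := by
      rw [hG, Matrix.add_mulVec, dotProduct_add, Matrix.smul_mulVec, Matrix.one_mulVec,
        dotProduct_smul, smul_eq_mul]
      congr 1
      simp only [dotProduct, Matrix.mulVec, gramX, Matrix.of_apply]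
      refine Finset.sum_congr rfl fun a _ => ?_
      rw [Finset.mul_sum]
      refine Finset.sum_congr rfl fun b _ => ?_
      ring
    have h3 : 0 ≤ v ⬝ᵥ v := by
      rw [dotProduct]
      exact Finset.sum_nonneg fun a _ => mul_self_nonneg _
    have h4 : ∑ i, (B.mulVec v) i ^ 2 = B.mulVec v ⬝ᵥ B.mulVec v := by
      simp only [dotProduct, sq]
    rw [h4, h1, h2]
    have := mul_nonneg hε.le h3
    linarith
  have hq2 : ∑ i, (B.mulVec v) i ^ 2 ≤ 4 * g * s ^ 2 := by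
    calc ∑ i, (B.mulVec v) i ^ 2 ≤ ∑ _i : Fin g, 4 * s ^ 2 := by
          refine Finset.sum_le_sum fun i _ => ?_
          have e1 : B.mulVec v i = (B.mulVec fun a => (ℓ a : ℝ)) i -
              (B.mulVec fun a => (ℓ' a : ℝ)) i := by
            rw [← Pi.sub_apply, ← Matrix.mulVec_sub, hv]
            congr 2
            funext a
            rw [Pi.sub_apply, Pi.sub_apply]
            push_cast
            ring
          have h1 := abs_le.1 (hT2 ℓ hℓ i)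
          have h2 := abs_le.1 (hT2 ℓ' hℓ' i)
          have h3 : |B.mulVec v i| ≤ 2 * s := by
            rw [e1, abs_le]
            constructor <;> linarith
          rw [← sq_abs]
          calc |B.mulVec v i| ^ 2 ≤ (2 * s) ^ 2 := pow_le_pow_left₀ (abs_nonneg _) h3 2
            _ = 4 * s ^ 2 := by ring
      _ = 4 * g * s ^ 2 := by
        rw [Finset.sum_const, Finset.card_univ, Fintype.card_fin, nsmul_eq_mul]
        ring
  have hle' : b ≤ ∑ a, ∑ b, v a * pairX q (P a) (P b) * v b := by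
    rw [hv]; exact hle
  rw [← hΔ]
  calc b ≤ 4 * g * s ^ 2 := (hle'.trans hq1).trans hq2
    _ ≤ 4 * g * (64 * m ^ (2 / g : ℝ) * Δ ^ (1 / g : ℝ)) :=
        mul_le_mul_of_nonneg_left hs2 (by positivity)
    _ = _ := by ring

theorem reg_step {g : ℕ} (hg : 1 ≤ g) {X : Type} [AddCommGroup X] (q : X → ℝ)
    (hpar : ∀ P Q, q (P + Q) + q (P - Q) = 2 * q P + 2 * q Q) (hq : ∀ P, 0 ≤ q P)
    (P : Fin g → X) (hP : LinearIndependent ℤ P) (m b : ℝ) (hm : 1 ≤ m)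
    (hSp : ∀ S : Finset X, m ≤ S.card → (∀ x ∈ S, ∃ ℓ, Phi P ℓ = x) →
      ∃ x ∈ S, ∃ y ∈ S, x ≠ y ∧ b ≤ q (x - y)) :
    b ≤ 256 * g * m ^ (2 / g : ℝ) * (gramX q P).det ^ (1 / g : ℝ) := by
  have hg0 : (0 : ℝ) < g := by exact_mod_cast hg
  have hcont : Continuous fun ε : ℝ =>
      256 * g * m ^ (2 / g : ℝ) * (gramX q P + ε • (1 : Matrix (Fin g) (Fin g) ℝ)).det ^
        (1 / g : ℝ) := by
    refine continuous_const.mul ?_
    refine Continuous.rpow_const ?_ fun x => Or.inr (by positivity)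
    exact Continuous.matrix_det (continuous_const.add (continuous_id.smul continuous_const))
  have h1 : Tendsto (fun n : ℕ => 256 * g * m ^ (2 / g : ℝ) *
      (gramX q P + (1 / ((n : ℝ) + 1)) • (1 : Matrix (Fin g) (Fin g) ℝ)).det ^ (1 / g : ℝ))
      atTop (𝓝 (256 * g * m ^ (2 / g : ℝ) *
        (gramX q P + (0 : ℝ) • (1 : Matrix (Fin g) (Fin g) ℝ)).det ^ (1 / g : ℝ))) :=
    (hcont.tendsto 0).comp tendsto_one_div_add_atTop_nhds_zero_nat
  rw [zero_smul, add_zero] at h1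
  exact ge_of_tendsto' h1 fun n => reg_eps hg q hpar hq P hP m b hm hSp _ (by positivity)

end Pow

end LangForms
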